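import Pool.Agent.MP_20b2fd_nt.H96.SpecK

/-! Row A1: the mass of the tube. -/

set_option autoImplicit false

namespace Pool.Agent.MP_20b2fd_nt.H96

open MeasureTheory Set Pool.Agent.MP_20b2fd_nt.H38
open scoped Real

namespace A1K

theorem int_a (U : ℝ) : Integrable fun u : ℝ => bm (u / U) ^ 2 / (1 + u ^ 2) := by
  have hc : Continuous fun u : ℝ => bm (u / U) ^ 2 / (1 + u ^ 2) :=
    ((bm.continuous.comp (continuous_id.div_const U)).pow 2).div (by fun_prop)
      fun u => by positivity
  refine integrable_inv_one_add_sq.mono' hc.aestronglyMeasurable (.of_forall fun u => ?_)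
  rw [Real.norm_of_nonneg (by positivity), ← one_div]
  exact div_le_div_of_nonneg_right (pow_le_one₀ bm.nonneg bm.le_one) (by positivity)

end A1K

theorem a1S : A1S := by
  intro U hU
  have h0 : 0 < U := one_pos.trans_le hU
  have h1 : Real.arctan U⁻¹ ≤ U⁻¹ := by
    have := Real.le_tan (Real.arctan_nonneg.2 (inv_pos.2 h0).le) (Real.arctan_lt_pi_div_two U⁻¹)
    rwa [Real.tan_arctan] at this
  have h2 : ∫ u in Ioc (-U) U, bm (u / U) ^ 2 / (1 + u ^ 2)
      = Real.arctan U - Real.arctan (-U) := by
    rw [← integral_inv_one_add_sq, intervalIntegral.integral_of_le (by linarith)]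
    refine setIntegral_congr_fun measurableSet_Ioc fun u hu => ?_
    have : bm (u / U) = 1 := bm.one_of_mem_closedBall (by
      rw [mem_closedBall_zero_iff, Real.norm_eq_abs, abs_div, abs_of_pos h0]
      exact (div_le_one h0).2 (abs_le.2 ⟨hu.1.le, hu.2⟩))
    simp only [this, one_pow, one_div]
  have h3 : ∫ u in Ioc (-U) U, bm (u / U) ^ 2 / (1 + u ^ 2) ≤ a1 U :=
    setIntegral_le_integral (A1K.int_a U) (.of_forall fun u => by positivity)
  rw [Real.arctan_inv_of_pos h0] at h1
  rw [h2, Real.arctan_neg] at h3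
  rw [div_eq_mul_inv]
  linarith

end Pool.Agent.MP_20b2fd_nt.H96
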