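import Pool.Agent.MP_20b2fd_nt.H96.SpecK
import Pool.Agent.MP_20b2fd_nt.H38.Ph

/-! The value of the constant term. -/

set_option autoImplicit false

namespace Pool.Agent.MP_20b2fd_nt.H96

open MeasureTheory Filter Topology Pool.Agent.MP_20b2fd_nt.H38
open scoped Real

namespace C0K

theorem lim {k x B D : ℝ} {e : ℝ → ℝ} (he : Tendsto e atTop (𝓝 0))
    (h : ∀ᶠ R in atTop, |k * R + x + e R| ≤ B + D / R) : |x| ≤ B := by
  have d : Tendsto (fun R : ℝ => B + D / R) atTop (𝓝 (B + 0)) :=
    tendsto_const_nhds.add (tendsto_const_nhds.div_atTop tendsto_id)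
  have k0 : k = 0 := by
    have a : Tendsto (fun R : ℝ => |k + (x + e R) / R|) atTop (𝓝 |k + 0|) :=
      (tendsto_const_nhds.add ((tendsto_const_nhds.add he).div_atTop tendsto_id)).abs
    have := le_of_tendsto_of_tendsto a (d.div_atTop tendsto_id) (by
      filter_upwards [h, eventually_gt_atTop 0] with R h1 h2
      rw [show k + (x + e R) / R = (k * R + x + e R) / R by field_simp; ring, abs_div,
        abs_of_pos h2]
      exact div_le_div_of_nonneg_right h1 h2.le)
    rw [add_zero] at this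
    exact abs_nonpos_iff.1 this
  have a : Tendsto (fun R : ℝ => |k * R + x + e R|) atTop (𝓝 |x + 0|) := by
    simp only [k0, zero_mul, zero_add]
    exact (tendsto_const_nhds.add he).abs
  simpa using le_of_tendsto_of_tendsto a d h

theorem amgm {U : ℝ} (hU : 0 < U) (u : ℝ) :
    1 / (U * √(1 + u ^ 2)) ≤ 1 / (U * √U) + 1 / √U * (1 / (1 + u ^ 2)) := by
  have a := Real.sq_sqrt hU.le
  have b := Real.sq_sqrt (show 0 ≤ 1 + u ^ 2 by positivity)
  have a0 := Real.sqrt_pos.2 hU
  have b0 := Real.sqrt_pos.2 (show 0 < 1 + u ^ 2 by positivity)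
  generalize √U = s at *
  generalize √(1 + u ^ 2) = t at *
  rw [← a, ← b, ← sub_nonneg, show 1 / (s ^ 2 * s) + 1 / s * (1 / t ^ 2) - 1 / (s ^ 2 * t) =
    ((t - s) ^ 2 + s * t) / (s ^ 3 * t ^ 2) by field_simp; ring]
  positivity

theorem int_b {U : ℝ} (hU : 0 < U) : Integrable fun u : ℝ => bm (u / U) :=
  bm.integrable.comp_div hU.ne'

theorem int_l {U : ℝ} (hU : 0 < U) (c : ℝ) :
    Integrable fun u : ℝ => c * bm (u / U) / √(1 + u ^ 2) ^ 3 := by
  have p : ∀ u : ℝ, 1 ≤ √(1 + u ^ 2) ^ 3 := fun u =>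
    one_le_pow₀ (Real.one_le_sqrt.2 (by nlinarith [sq_nonneg u]))
  refine ((int_b hU).const_mul c).mono (((PhA.cont_b U).const_mul c).div (by fun_prop)
    fun u => (one_pos.trans_le (p u)).ne').aestronglyMeasurable (.of_forall fun u => ?_)
  rw [norm_div, Real.norm_of_nonneg (zero_le_one.trans (p u))]
  exact div_le_self (norm_nonneg _) (p u)

theorem step {C U R : ℝ} {g : ℝ → ℂ} (hC : 0 ≤ C) (hU : 0 < U) (hg : Integrable g)
    (h : ∀ u, |(g u).re - R * (c1 U * bm (u / U) / √(1 + u ^ 2) ^ 3) +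
        bm (u / U) ^ 2 / (1 + u ^ 2) * Real.log R +
        bm (u / U) / (1 + u ^ 2) * Real.log (2 * π)| ≤
      C * (bm (u / U) / (U * √(1 + u ^ 2)) + (bm (u / U) - bm (u / U) ^ 2) / (1 + u ^ 2) +
        U / R * (bm (u / U) / (1 + u ^ 2)))) :
    |(∫ u, g u).re - R * (∫ u, c1 U * bm (u / U) / √(1 + u ^ 2) ^ 3) + a1 U * Real.log R +
        c1 U * Real.log (2 * π)| ≤
      C * (((∫ u, bm u) + c1 U) / √U + (c1 U - a1 U) + U / R * c1 U) := by
  have i0 : Integrable fun u => (g u).re := hg.re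
  have i1 := (int_l hU (c1 U)).const_mul R
  have i2 := (PhA.int_a U).mul_const (Real.log R)
  have i3 := (PhA.int_c U).mul_const (Real.log (2 * π))
  have j1 := (int_b hU).const_mul (1 / (U * √U))
  have j2 := (PhA.int_c U).const_mul (1 / √U)
  have j3 := (PhA.int_c U).sub (PhA.int_a U)
  have j4 := (PhA.int_c U).const_mul (U / R)
  have w : ∀ u, bm (u / U) / (U * √(1 + u ^ 2)) + (bm (u / U) - bm (u / U) ^ 2) / (1 + u ^ 2) ≤
      1 / (U * √U) * bm (u / U) + 1 / √U * (bm (u / U) / (1 + u ^ 2)) +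
        (bm (u / U) / (1 + u ^ 2) - bm (u / U) ^ 2 / (1 + u ^ 2)) := fun u => by
    have := mul_le_mul_of_nonneg_left (amgm hU u) (bm.nonneg (x := u / U))
    rw [sub_div]
    refine add_le_add (le_trans (le_of_eq ?_) (this.trans_eq ?_)) le_rfl
    · ring
    · ring
  have k := norm_integral_le_of_norm_le
    (f := ((fun u => (g u).re) - fun u => R * (c1 U * bm (u / U) / √(1 + u ^ 2) ^ 3)) +
      (fun u => bm (u / U) ^ 2 / (1 + u ^ 2) * Real.log R) +
      fun u => bm (u / U) / (1 + u ^ 2) * Real.log (2 * π))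
    ((((j1.add j2).add j3).add j4).const_mul C)
    (.of_forall fun u => (h u).trans (mul_le_mul_of_nonneg_left (add_le_add (w u) le_rfl) hC))
  rw [integral_add' ((i0.sub i1).add i2) i3, integral_add' (i0.sub i1) i2, integral_sub' i0 i1,
    integral_const_mul, integral_mul_const, integral_mul_const, integral_const_mul,
    integral_add' ((j1.add j2).add j3) j4, integral_add' (j1.add j2) j3, integral_add' j1 j2,
    integral_sub' (PhA.int_c U) (PhA.int_a U), integral_const_mul, integral_const_mul,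
    integral_const_mul, Measure.integral_comp_div (fun u => bm u), abs_of_pos hU] at k
  have e : ∫ u, (g u).re = (∫ u, g u).re := integral_re hg
  rw [e] at k
  refine le_trans k (le_of_eq ?_)
  have := (Real.sqrt_pos.2 hU).ne'
  simp only [c1, a1, smul_eq_mul]
  field_simp

end C0K

open C0K

theorem c0Of : C0Of := by
  rintro hP hA ⟨C, hC, hJ⟩ hS
  have M0 : 0 ≤ ∫ u, bm u := integral_nonneg fun _ => bm.nonneg
  have p3 := Real.pi_gt_three
  have l0 : 0 ≤ Real.log (2 * π) := Real.log_nonneg (by linarith)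
  refine ⟨C * ((∫ u, bm u) + π + 2) + 2 * Real.log (2 * π), by nlinarith, ?_⟩
  rintro U c hU ⟨A, r₀, ε, h0, hε, hs⟩
  have U0 : 0 < U := one_pos.trans_le hU
  obtain ⟨-, c1l, c1u, -⟩ := hP U hU
  have a1l := hA U hU
  have s0 := Real.sqrt_pos.2 U0
  have su : 2 / U ≤ 2 / √U := by
    refine div_le_div_of_nonneg_left (by norm_num) s0 ?_
    rw [Real.sqrt_le_left U0.le]
    nlinarith
  have k : |c.re + c1 U * Real.log (2 * π)| ≤
      C * (((∫ u, bm u) + c1 U) / √U + (c1 U - a1 U)) := by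
    refine lim (k := A.re - ∫ u, c1 U * bm (u / U) / √(1 + u ^ 2) ^ 3) (D := C * (U * c1 U))
      (e := fun R => (ε R).re) ((Complex.continuous_re.tendsto 0).comp hε) ?_
    filter_upwards [eventually_ge_atTop r₀, eventually_ge_atTop U] with R h1 h2
    have r0 : 0 < min r₀ (1 / (32 * U)) := lt_min h0 (by positivity)
    obtain ⟨i, s⟩ := hS U _ R hU r0 (min_le_right _ _) h2
    have t := step (R := R) (zero_le_one.trans hC) U0 i fun u => hJ U R u hU h2
    rw [← (hs _ R r0 (min_le_left _ _) h1).unique s] at t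
    simp only [Complex.add_re, Complex.sub_re, Complex.mul_re, Complex.ofReal_re,
      Complex.ofReal_im, mul_zero, sub_zero] at t
    refine le_trans (le_of_eq ?_) (t.trans_eq ?_)
    · congr 1
      ring
    · ring
  have k1 : ((∫ u, bm u) + c1 U) / √U + (c1 U - a1 U) ≤ ((∫ u, bm u) + π + 2) / √U := by
    have : ((∫ u, bm u) + c1 U) / √U ≤ ((∫ u, bm u) + π) / √U := by gcongr
    rw [add_div _ 2]
    linarith
  have k2 := k.trans (mul_le_mul_of_nonneg_left k1 (zero_le_one.trans hC))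
  have k3 : |(π - c1 U) * Real.log (2 * π)| ≤ 2 / √U * Real.log (2 * π) := by
    rw [abs_of_nonneg (mul_nonneg (by linarith) l0)]
    exact mul_le_mul_of_nonneg_right (by linarith) l0
  have k4 := abs_add_le (c.re + c1 U * Real.log (2 * π)) ((π - c1 U) * Real.log (2 * π))
  rw [show c.re + c1 U * Real.log (2 * π) + (π - c1 U) * Real.log (2 * π) =
    c.re + π * Real.log (2 * π) by ring] at k4
  refine (k4.trans (add_le_add k2 k3)).trans_eq ?_
  ring

end Pool.Agent.MP_20b2fd_nt.H96
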