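import Pool.Agent.MP_20b2fd_nt.H96.SpecK
import Pool.Agent.MP_20b2fd_nt.H38.Xs

/-! The Fourier transform of the profile. -/

set_option autoImplicit false

namespace Pool.Agent.MP_20b2fd_nt.H96

open MeasureTheory Complex Filter Topology Set Pool.Agent.MP_20b2fd_nt.H38 XsA
open scoped Real FourierTransform ContDiff

namespace FoK

theorem gam {a : ℂ} (ha : 0 < a.re) :
    IntegrableOn (fun t : ℝ => (t : ℂ) ^ 2 * exp (-a * t)) (Ioi 0) ∧
      ∫ t : ℝ in Ioi 0, (t : ℂ) ^ 2 * exp (-a * t) = 2 / a ^ 3 := by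
  have a0 : a ≠ 0 := fun h => by simp [h] at ha
  have nr : ∀ (n : ℕ) (t : ℝ), 0 < t →
      ‖(t : ℂ) ^ n * exp (-a * t)‖ = t ^ (n : ℝ) * Real.exp (-a.re * t) := fun n t ht => by
    simp [norm_exp, abs_of_pos ht]
  have i : IntegrableOn (fun t : ℝ => (t : ℂ) ^ 2 * exp (-a * t)) (Ioi 0) := by
    refine (integrableOn_rpow_mul_exp_neg_mul_rpow (s := (2 : ℕ)) (by norm_num) one_pos ha).mono'
      (by fun_prop) ?_
    filter_upwards [ae_restrict_mem measurableSet_Ioi] with t ht
    rw [nr 2 t ht, Real.rpow_one]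
  have l : ∀ n : ℕ, Tendsto (fun t : ℝ => (t : ℂ) ^ n * exp (-a * t)) atTop (𝓝 0) := fun n =>
    tendsto_zero_iff_norm_tendsto_zero.2 ((tendsto_rpow_mul_exp_neg_mul_atTop_nhds_zero n _
      ha).congr' ((eventually_gt_atTop 0).mono fun t ht => (nr n t ht).symm))
  refine ⟨i, (integral_Ioi_of_hasDerivAt_of_tendsto' (fun t _ => ?_) i (((l 2).mul_const
    (-1 / a)).add (((l 1).mul_const (-2 / a ^ 2)).add ((l 0).mul_const (-2 / a ^ 3))))).trans ?_⟩
  · have e := fun n : ℕ => ((hasDerivAt_id (t : ℂ)).pow n).mul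
      ((hasDerivAt_id (t : ℂ)).const_mul (-a)).cexp
    refine ((((e 2).mul_const (-1 / a)).add (((e 1).mul_const (-2 / a ^ 2)).add
      ((e 0).mul_const (-2 / a ^ 3)))).comp_ofReal).congr_deriv ?_
    simp
    field_simp
    ring
  · simp
    ring

theorem nI (u : ℝ) : ‖(u : ℂ) + I‖ ^ 2 = 1 + u ^ 2 := by
  rw [Complex.sq_norm, normSq_apply]
  simp
  ring

/-- the second derivative of `1 / (u + I)` -/
noncomputable def hq (u : ℝ) : ℂ := 2 / ((u : ℂ) + I) ^ 3

theorem hint : Integrable hq := by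
  refine (integrable_inv_one_add_sq.const_mul 2).mono' (Continuous.aestronglyMeasurable
    (continuous_const.div (by fun_prop) fun u => pow_ne_zero _ (uI u))) (.of_forall fun u => ?_)
  have a := nI u
  have b : 1 ≤ ‖(u : ℂ) + I‖ := by simpa using abs_im_le_norm ((u : ℂ) + I)
  rw [hq, norm_div, norm_pow, ← a, ← div_eq_mul_inv, Complex.norm_ofNat]
  exact div_le_div_of_nonneg_left zero_le_two (by positivity) (pow_le_pow_right₀ b (by norm_num))

theorem hF {ξ : ℝ} (h : ξ ≠ 0) : 𝓕 hq ξ =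
    (2 * π * I * ξ) ^ 2 * if 0 < ξ then -(2 * π * I) * Real.exp (-2 * π * ξ) else 0 := by
  have p : (π : ℂ) ≠ 0 := ofReal_ne_zero.2 Real.pi_ne_zero
  set ψ : ℝ → ℂ := (Ioi 0).indicator fun t => 8 * π ^ 3 * I * (t ^ 2 * exp (-(2 * π) * t)) with hψ
  have i : Integrable ψ := (integrable_indicator_iff measurableSet_Ioi).2
    ((gam (a := 2 * π) (by simp [Real.pi_pos])).1.const_mul _)
  have e : 𝓕 ψ = fun u : ℝ => hq (-u) := funext fun u => by
    have a := (gam (a := 2 * π * (1 + u * I)) (by simp [Real.pi_pos])).2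
    have b := uI (-u)
    rw [Real.fourier_real_eq_integral_exp_smul, hq]
    rw [← setIntegral_eq_integral_of_forall_compl_eq_zero (s := Ioi 0) fun t ht => by
      rw [hψ, indicator_of_notMem ht, smul_zero], setIntegral_congr_fun (g := fun t : ℝ => 8 * π ^ 3 * I * ((t : ℂ) ^ 2 *
      exp (-(2 * π * (1 + u * I)) * t))) measurableSet_Ioi fun t ht => ?_, integral_const_mul, a,
      show (1 + u * I : ℂ) = -I * ((-u : ℝ) + I) by push_cast; linear_combination I_sq]
    · field_simp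
      linear_combination (-8 : ℂ) * I_sq
    · simp only [hψ, indicator_of_mem ht, smul_eq_mul, mul_left_comm (exp _), ← Complex.exp_add]
      push_cast
      ring_nf
  have c : ContinuousAt ψ ξ := by
    rcases h.lt_or_gt with h | h
    · exact continuousAt_const.congr ((eventually_lt_nhds h).mono fun t ht =>
        (indicator_of_notMem (not_lt.2 ht.le) _).symm)
    · refine ContinuousAt.congr ?_
        ((eventually_gt_nhds h).mono fun t ht => (indicator_of_mem ht _).symm)
      fun_prop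
  have f := i.fourierInv_fourier_eq (e ▸ hint.comp_neg) c
  simp only [e, Real.fourierInv_eq_fourier_comp_neg, neg_neg] at f
  rw [f, hψ, indicator_apply, mul_ite, mul_zero]
  refine if_congr Iff.rfl ?_ rfl
  push_cast
  rw [neg_mul 2]
  linear_combination (8 * π ^ 3 * I * ξ ^ 2 * cexp (-(2 * π) * ξ)) * I_sq

/-- the bump with complex values -/
noncomputable def b (x : ℝ) : ℂ := (bm x : ℝ)

theorem b_sm : ContDiff ℝ ∞ b := ofRealCLM.contDiff.comp bm.contDiff

theorem b_cs : HasCompactSupport b := bm.hasCompactSupport.comp_left ofReal_zero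

theorem d2 (U u : ℝ) : iteratedDeriv 2 (be U) u = deriv (deriv b) (u / U) / U / U / (u + I) -
    2 * (deriv b (u / U) / U) / (u + I) ^ 2 + 2 * b (u / U) / (u + I) ^ 3 := by
  have s1 : ContDiff ℝ ∞ (deriv b) := b_sm.iterate_deriv 1
  have a : ∀ {f : ℝ → ℂ}, ContDiff ℝ ∞ f → ∀ u, HasDerivAt (fun u => f (u / U))
      (deriv f (u / U) / U) u := fun {f} h u => by
    exact ((h.differentiable (by simp) _).hasDerivAt.scomp u
      ((hasDerivAt_id u).div_const U)).congr_deriv (by simp [div_eq_inv_mul])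
  have c : ∀ u : ℝ, HasDerivAt (fun u : ℝ => (u : ℂ) + I) 1 u := fun u =>
    ofRealCLM.hasDerivAt.add_const I
  have e : deriv (be U) = fun u : ℝ => (deriv b (u / U) / U * (u + I) - b (u / U) * 1) /
      (u + I) ^ 2 := funext fun u => ((a b_sm u).div (c u) (uI u)).deriv
  have k := uI u
  rw [iteratedDeriv_succ, iteratedDeriv_one, e]
  refine ((((a s1 u).div_const _).mul (c u)).sub
    ((a b_sm u).mul_const 1) |>.div ((c u).pow 2) (pow_ne_zero _ k)).deriv.trans ?_
  simp only [Pi.mul_apply, Pi.sub_apply, Pi.pow_apply]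
  generalize deriv b (u / U) / U = p, deriv (deriv b) (u / U) / U / U = q
  push_cast
  field_simp
  ring

theorem bd : ∃ M : ℝ, 0 ≤ M ∧ ∀ U u : ℝ, 1 ≤ U →
    ‖iteratedDeriv 2 (be U) u - hq u‖ ≤ (M + 4) / U ^ 3 * (1 + (u / U) ^ 2)⁻¹ := by
  have s1 : ContDiff ℝ ∞ (deriv b) := b_sm.iterate_deriv 1
  have s2 : ContDiff ℝ ∞ (deriv (deriv b)) := b_sm.iterate_deriv 2
  obtain ⟨M, hM⟩ : ∃ M, ∀ x : ℝ,
      ‖(‖deriv (deriv b) x‖ + 2 * ‖deriv b x‖) * (1 + x ^ 2)‖ ≤ M := by
    have c1 := b_cs.deriv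
    have c2 := c1.deriv
    generalize deriv (deriv b) = g at *
    generalize deriv b = f at *
    exact ((s2.continuous.norm.add (continuous_const.mul s1.continuous.norm)).mul
      (by fun_prop)).bounded_above_of_compact_support (c2.norm.add c1.norm.mul_left).mul_right
  have M0 := (norm_nonneg _).trans (hM 0)
  refine ⟨M, M0, fun U u hU => ?_⟩
  have U0 : 0 < U := by linarith
  rw [d2, hq]
  by_cases h : |u / U| < 1
  · have a : b =ᶠ[𝓝 (u / U)] fun _ => 1 :=
      (bm.eventuallyEq_one_of_mem_ball (mem_ball_zero_iff.2 h)).mono fun x hx => by simp [b, hx]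
    have a1 := a.deriv
    have a2 := a1.deriv
    simp only [a.eq_of_nhds, a1.eq_of_nhds, a2.eq_of_nhds, deriv_const']
    simp
    positivity
  rw [not_lt, abs_div, abs_of_pos U0, one_le_div U0] at h
  have r1 : |u| ≤ ‖(u : ℂ) + I‖ := by simpa using abs_re_le_norm ((u : ℂ) + I)
  have r2 := h.trans r1
  have a : ‖b (u / U) - 1‖ ≤ 1 := by
    rw [b, ← ofReal_one, ← ofReal_sub, norm_real, Real.norm_eq_abs, abs_le]
    constructor <;> linarith [bm.nonneg (x := u / U), bm.le_one (x := u / U)]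
  have m := (le_abs_self _).trans (hM (u / U))
  rw [add_sub_assoc, ← sub_div, ← mul_sub_one]
  refine (norm_add_le_of_le (norm_sub_le _ _) le_rfl).trans ?_
  simp only [norm_div, norm_mul, norm_pow, norm_real, Real.norm_of_nonneg U0.le,
    Complex.norm_ofNat]
  have q : (u / U) ^ 2 * U ^ 2 = |u| ^ 2 := by rw [sq_abs]; field_simp
  generalize ‖(u : ℂ) + I‖ = r at *
  have r0 : 0 < r := by linarith
  have x0 : 0 < 1 + (u / U) ^ 2 := by positivity
  have t1 : ‖deriv (deriv b) (u / U)‖ / U / U / r ≤ ‖deriv (deriv b) (u / U)‖ / U ^ 3 := by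
    rw [div_div, div_div, pow_three]
    gcongr
  have t2 : 2 * (‖deriv b (u / U)‖ / U) / r ^ 2 ≤ 2 * ‖deriv b (u / U)‖ / U ^ 3 := by
    rw [← mul_div_assoc, div_div, pow_succ' U 2]
    gcongr
  have t3 : 2 * ‖b (u / U) - 1‖ / r ^ 3 ≤ 4 / U ^ 3 / (1 + (u / U) ^ 2) := by
    have : U ^ 3 ≤ r ^ 3 := by gcongr
    have : |u| ^ 2 * U ≤ r ^ 2 * r := by gcongr
    rw [div_div, div_le_div_iff₀ (by positivity) (by positivity)]
    refine (mul_le_mul_of_nonneg_right (by linarith : 2 * ‖b (u / U) - 1‖ ≤ 2)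
      (by positivity)).trans ?_
    nlinarith
  have t4 := div_le_div_of_nonneg_right ((le_div_iff₀ x0).2 m) (pow_pos U0 3).le
  rw [add_div, div_right_comm] at t4
  rw [← div_eq_mul_inv, add_div, add_div]
  linarith

end FoK

open FoK in
theorem foS : FoS := by
  obtain ⟨M, M0, hM⟩ := bd
  refine ⟨M + 4, by linarith, fun U ξ hU h => ?_⟩
  have U0 : 0 < U := by linarith
  have i : ∀ n : ℕ, Integrable (iteratedDeriv n (be U)) := fun n =>
    ((be_sm U).continuous_iteratedDeriv n (by exact_mod_cast le_top)).integrable_of_hasCompactSupport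
      (by
        induction n with
        | zero => simpa using be_cs U0.ne'
        | succ n ih => exact iteratedDeriv_succ (𝕜 := ℝ) (f := be U) ▸ ih.deriv)
  have e := congrFun (Real.fourier_iteratedDeriv (N := ⊤) (n := 2) (be_sm U) (fun n _ => i n)
    le_top) ξ
  have f : ‖𝓕 (iteratedDeriv 2 (be U)) ξ - 𝓕 hq ξ‖ ≤
      (M + 4) / U ^ 3 * (U * π) := by
    rw [Real.fourier_eq, Real.fourier_eq, ← integral_sub
      ((Real.fourierIntegral_convergent_iff ξ).2 (i 2))
      ((Real.fourierIntegral_convergent_iff ξ).2 hint)]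
    refine (norm_integral_le_of_norm_le ((integrable_inv_one_add_sq.comp_div U0.ne').const_mul
      ((M + 4) / U ^ 3)) (.of_forall fun u => ?_)).trans_eq ?_
    · rw [← smul_sub, Circle.norm_smul]
      exact hM U u hU
    · rw [integral_const_mul, Measure.integral_comp_div fun x : ℝ => (1 + x ^ 2)⁻¹,
        integral_univ_inv_one_add_sq, abs_of_pos U0, smul_eq_mul]
  rw [e, hF h, smul_eq_mul, ← mul_sub, norm_mul, norm_pow] at f
  simp only [norm_mul, norm_real, norm_I, Complex.norm_ofNat, Real.norm_eq_abs, mul_pow, sq_abs,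
    mul_one] at f
  rw [le_div_iff₀ (by positivity)]
  rw [div_mul_eq_mul_div, le_div_iff₀ (by positivity)] at f
  have p := Real.two_le_pi
  refine le_of_mul_le_mul_left (a := 4 * π ^ 2 * U) (le_trans (le_of_eq (by ring)) (f.trans ?_))
    (by positivity)
  nlinarith [mul_nonneg (mul_nonneg (by linarith : 0 ≤ M + 4) U0.le)
    (by nlinarith : 0 ≤ 4 * π ^ 2 - π)]

end Pool.Agent.MP_20b2fd_nt.H96
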