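import Pool.Agent.MP_20b2fd_nt.H96.SpecK
import Pool.Agent.MP_20b2fd_nt.H38.Xs

/-! The translates of the tube summed along one ray. -/

set_option autoImplicit false

namespace Pool.Agent.MP_20b2fd_nt.H96

open UpperHalfPlane hiding I
open MeasureTheory Complex Finset Filter Topology Pool.Agent.MP_20b2fd_nt.H38
open scoped Real

namespace JrK

theorem split {F g G : ℝ → ℂ} {a b D : ℝ} (ha : 0 < a) (hab : a ≤ b) (hD : 0 ≤ D)
    (mF : Measurable F) (hG : ∀ y ∈ Set.Icc a b, HasDerivAt G (g y) y)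
    (cg : ContinuousOn g (Set.Icc a b)) (hE : ∀ y ∈ Set.Icc a b, ‖F y - g y‖ ≤ D / y ^ 2) :
    ‖(∫ y in Set.Icc a b, F y) - (G b - G a)‖ ≤ D / a := by
  have u : Set.uIcc a b = Set.Icc a b := Set.uIcc_of_le hab
  have ig : IntervalIntegrable g volume a b := (u ▸ cg).intervalIntegrable
  have iB : IntervalIntegrable (fun y : ℝ => D / y ^ 2) volume a b := by
    refine ContinuousOn.intervalIntegrable (continuousOn_const.div (by fun_prop) fun y hy => ?_)
    rw [u] at hy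
    exact (pow_pos (ha.trans_le hy.1) 2).ne'
  have iE : IntervalIntegrable (fun y => F y - g y) volume a b := by
    refine iB.mono_fun' (mF.aestronglyMeasurable.sub ig.def'.aestronglyMeasurable) ?_
    rw [Set.uIoc_of_le hab]
    exact (ae_restrict_iff' measurableSet_Ioc).2 (.of_forall fun y hy => hE y ⟨hy.1.le, hy.2⟩)
  have e1 : ∫ y in a..b, g y = G b - G a :=
    intervalIntegral.integral_eq_sub_of_hasDerivAt (u ▸ hG) ig
  have e2 : ∫ y in a..b, D / y ^ 2 = -D / b - -D / a := by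
    refine intervalIntegral.integral_eq_sub_of_hasDerivAt (f := fun y => -D / y) (fun y hy => ?_) iB
    rw [u] at hy
    have y0 := (ha.trans_le hy.1).ne'
    exact ((hasDerivAt_const y (-D)).div (hasDerivAt_id y) y0).congr_deriv (by simp)
  have e3 := intervalIntegral.integral_add iE ig
  simp only [sub_add_cancel] at e3
  rw [integral_Icc_eq_integral_Ioc, ← intervalIntegral.integral_of_le hab, e3, e1,
    add_sub_cancel_right]
  refine (intervalIntegral.norm_integral_le_of_norm_le hab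
    (.of_forall fun y hy => hE y ⟨hy.1.le, hy.2⟩) iB).trans ?_
  have : 0 ≤ D / b := div_nonneg hD (ha.le.trans hab)
  rw [e2, neg_div, neg_div]
  linarith

theorem nw (u : ℝ) : ‖(u : ℂ) + I‖ = √(1 + u ^ 2) := by
  rw [norm_eq_sqrt_sq_add_sq]
  simp [add_comm]

theorem nq (u y : ℝ) : ‖ee (y * (u + I))‖ = Real.exp (-(2 * π * y)) := by
  rw [ee, norm_exp]
  simp

theorem nq_lt (u : ℝ) {y : ℝ} (hy : 0 < y) : ‖-ee (y * (u + I))‖ < 1 := by
  rw [norm_neg, nq, Real.exp_lt_one_iff]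
  have := Real.pi_pos
  exact neg_lt_zero.2 (by positivity)

theorem slit (u : ℝ) {y : ℝ} (hy : 0 < y) : 1 - ee (y * (u + I)) ∈ slitPlane := by
  rw [sub_eq_add_neg]
  exact mem_slitPlane_of_norm_lt_one (nq_lt u hy)

theorem relog {s : ℂ} (h : ‖s‖ ≤ 1 / 2) : |Real.log ‖1 + s‖| ≤ 3 / 2 * ‖s‖ := by
  rw [← log_re]
  exact (abs_re_le_norm _).trans (norm_log_one_add_half_le_self h)

/-- the primitive -/
noncomputable def GG (c u : ℝ) (β : ℂ) (y : ℝ) : ℂ :=
  -(I * c) * y + log (1 - ee (y * (u + I))) / (u + I) - β * Real.log y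

/-- the main part of the integrand -/
noncomputable def gg (c u : ℝ) (β : ℂ) (y : ℝ) : ℂ :=
  -(I * c) - 2 * π * I * ee (y * (u + I)) / (1 - ee (y * (u + I))) - β / y

theorem der (c u : ℝ) (β : ℂ) {y : ℝ} (hy : 0 < y) : HasDerivAt (GG c u β) (gg c u β y) y := by
  have h0 : HasDerivAt (fun y : ℝ => (y : ℂ)) 1 y := ofRealCLM.hasDerivAt
  have h1 : HasDerivAt (fun y : ℝ => ee (y * (u + I))) _ y :=
    ((h0.mul_const ((u : ℂ) + I)).const_mul (2 * π * I)).cexp
  have h2 := ((h1.const_sub 1).clog_real (slit u hy)).div_const ((u : ℂ) + I)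
  have h3 := (Real.hasDerivAt_log hy.ne').ofReal_comp.const_mul β
  refine (((h0.const_mul (-(I * c))).add h2).sub h3).congr_deriv ?_
  have n1 := XsA.uI u
  have n2 := slitPlane_ne_zero (slit u hy)
  unfold gg ee at *
  push_cast
  field_simp
  ring

theorem cont (c u : ℝ) (β : ℂ) {s : Set ℝ} (hs : ∀ y ∈ s, 0 < y) : ContinuousOn (gg c u β) s := by
  have h1 : Continuous fun y : ℝ => ee (y * (u + I)) := by unfold ee; fun_prop
  refine (continuousOn_const.sub (ContinuousOn.div (h1.const_mul _).continuousOn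
    (continuous_const.sub h1).continuousOn fun y hy => slitPlane_ne_zero (slit u (hs y hy)))).sub
      (continuousOn_const.div (by fun_prop) fun y hy => ofReal_ne_zero.2 (hs y hy).ne')

theorem cjb (m u : ℝ) : (starRingEnd ℂ) (m / (u + I)) = (m / (1 + u ^ 2) : ℝ) * ((u : ℂ) + I) := by
  have h2 := XsA.uI (-u)
  have h3 : (1 + (u : ℂ) ^ 2) = -((u + I) * (-u + I)) := by linear_combination I_sq
  have h4 : (u : ℂ) + -I = -(-u + I) := by ring
  have h1 := XsA.uI u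
  rw [map_div₀, map_add, conj_ofReal, conj_ofReal, conj_I]
  push_cast at h2 ⊢
  rw [h3, h4]
  field_simp

theorem reG (c u m y : ℝ) : ((starRingEnd ℂ) (m / (u + I)) * GG c u (m / (u + I)) y).re =
    m / (1 + u ^ 2) * (c * y + Real.log ‖1 - ee (y * (u + I))‖ - m * Real.log y) := by
  have h1 := XsA.uI u
  have e : ((u : ℂ) + I) * GG c u (m / (u + I)) y = -(I * c) * y * (u + I) +
      log (1 - ee (y * (u + I))) - (m * Real.log y : ℝ) := by
    unfold GG
    push_cast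
    field_simp
  rw [cjb, mul_assoc, re_ofReal_mul, e, sub_re, add_re, log_re, ofReal_re]
  simp

theorem near (u : ℝ) {y : ℝ} (hy : 0 < y) (h : 2 * π * (y * √(1 + u ^ 2)) ≤ 1 / 2) :
    |Real.log ‖1 - ee (y * (u + I))‖ - Real.log (2 * π) - Real.log (y * √(1 + u ^ 2))|
      ≤ 3 / 2 * (2 * π * (y * √(1 + u ^ 2))) := by
  have p := Real.pi_pos
  have r : 0 < √(1 + u ^ 2) := by positivity
  obtain ⟨ω, hω⟩ : ∃ ω : ℂ, ω = 2 * π * I * (y * (u + I)) := ⟨_, rfl⟩
  have n : ‖ω‖ = 2 * π * (y * √(1 + u ^ 2)) := by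
    rw [hω, ← nw]
    simp [abs_of_pos p, abs_of_pos hy]
  have n0 : 0 < ‖ω‖ := by rw [n]; positivity
  have w0 : ω ≠ 0 := norm_pos_iff.1 n0
  have hs : ‖(exp ω - 1 - ω) / ω‖ ≤ ‖ω‖ := by
    rw [norm_div, div_le_iff₀ n0, ← sq]
    exact norm_exp_sub_one_sub_id_le (by linarith)
  have e : 1 - ee (y * (u + I)) = -(ω * (1 + (exp ω - 1 - ω) / ω)) := by
    rw [ee, ← hω]
    field_simp
    ring
  have s0 : ‖1 + (exp ω - 1 - ω) / ω‖ ≠ 0 :=
    norm_ne_zero_iff.2 (slitPlane_ne_zero (mem_slitPlane_of_norm_lt_one (by linarith)))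
  have := relog (hs.trans (n.trans_le h))
  rw [e, norm_neg, norm_mul, Real.log_mul n0.ne' s0, n, Real.log_mul (by positivity) (by positivity)]
  rw [n] at hs
  refine le_of_eq_of_le (congrArg _ (by ring)) (this.trans (by linarith))

theorem far (u : ℝ) {y t : ℝ} (hy : 0 < y) (h : 1 ≤ 3 * y * t) (ht : t ≤ 1) :
    |Real.log ‖1 - ee (y * (u + I))‖| ≤ t := by
  have p := Real.pi_gt_three
  have t0 : 0 < t := by
    by_contra h'
    nlinarith [mul_nonneg hy.le (neg_nonneg.2 (not_lt.1 h'))]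
  have h1 : ‖-ee (y * (u + I))‖ ≤ t / 2 := by
    rw [norm_neg, nq, Real.exp_neg, inv_le_iff_one_le_mul₀ (Real.exp_pos _)]
    have a1 := mul_le_mul_of_nonneg_left (Real.add_one_le_exp (2 * π * y)) (half_pos t0).le
    nlinarith [mul_pos hy t0]
  rw [sub_eq_add_neg]
  exact (relog (by linarith)).trans (by linarith)

theorem fin {C U R ρ m c e LY L0 L2 : ℝ} (C1 : 1 ≤ C) (hU : 1 ≤ U) (hR : U ≤ R) (ρ1 : 1 ≤ ρ)
    (m0 : 0 ≤ m) (m1 : m ≤ 1) (c0 : 0 ≤ c) (c4 : c ≤ 4)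
    (he : |e| ≤ m / ρ * (C / U ^ 2 / (1 / (32 * U)))) (hY : |LY| ≤ U / R)
    (h0 : |L0 - L2 - Real.log (1 / (32 * U) * ρ)| ≤ ρ / U)
    (hl : (m - m ^ 2) * |Real.log (1 / (32 * U) * ρ)| ≤ (m - m ^ 2) * 32) :
    |e + (m / ρ ^ 2 * (c * (R / ρ) + LY - m * Real.log (R / ρ))
        - m / ρ ^ 2 * (c * (1 / (32 * U)) + L0 - m * Real.log (1 / (32 * U))))
        - R * (c * m / ρ ^ 3) + m ^ 2 / ρ ^ 2 * Real.log R + m / ρ ^ 2 * L2|
      ≤ (32 * C + 32) * (m / (U * ρ) + (m - m ^ 2) / ρ ^ 2 + U / R * (m / ρ ^ 2)) := by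
  have U0 : 0 < U := by linarith
  have R0 : 0 < R := by linarith
  have ρ0 : 0 < ρ := by linarith
  have mm : 0 ≤ m - m ^ 2 := by nlinarith
  rw [Real.log_div R0.ne' ρ0.ne']
  have el : Real.log (1 / (32 * U)) = Real.log (1 / (32 * U) * ρ) - Real.log ρ := by
    rw [Real.log_mul (by positivity) ρ0.ne']; ring
  rw [el]
  generalize Real.log (1 / (32 * U) * ρ) = l at *
  have id : e + (m / ρ ^ 2 * (c * (R / ρ) + LY - m * (Real.log R - Real.log ρ))
        - m / ρ ^ 2 * (c * (1 / (32 * U)) + L0 - m * (l - Real.log ρ)))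
        - R * (c * m / ρ ^ 3) + m ^ 2 / ρ ^ 2 * Real.log R + m / ρ ^ 2 * L2
      = e + m / ρ ^ 2 * LY - m / (U * ρ) * (c / (32 * ρ)) - m / ρ ^ 2 * (L0 - L2 - l)
        - (m - m ^ 2) * l / ρ ^ 2 := by
    field_simp
    ring
  have p1 : 0 ≤ m / ρ ^ 2 := by positivity
  have p2 : 0 ≤ m / (U * ρ) := by positivity
  have p3 : 0 ≤ (m - m ^ 2) / ρ ^ 2 := by positivity
  have p4 : 0 ≤ U / R * (m / ρ ^ 2) := by positivity
  have a1 : |e| ≤ 32 * C * (m / (U * ρ)) := he.trans_eq (by field_simp)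
  have a2 : |m / ρ ^ 2 * LY| ≤ U / R * (m / ρ ^ 2) := by
    rw [abs_mul, abs_of_nonneg p1, mul_comm]
    exact mul_le_mul_of_nonneg_right hY p1
  have a3 : |m / (U * ρ) * (c / (32 * ρ))| ≤ m / (U * ρ) := by
    rw [abs_of_nonneg (by positivity)]
    exact mul_le_of_le_one_right p2 ((div_le_one (by positivity)).2 (by linarith))
  have a4 : |m / ρ ^ 2 * (L0 - L2 - l)| ≤ m / (U * ρ) := by
    rw [abs_mul, abs_of_nonneg p1]
    exact (mul_le_mul_of_nonneg_left h0 p1).trans_eq (by field_simp)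
  have a5 : |(m - m ^ 2) * l / ρ ^ 2| ≤ 32 * ((m - m ^ 2) / ρ ^ 2) := by
    rw [abs_div, abs_mul, abs_of_nonneg mm, abs_of_pos (pow_pos ρ0 2)]
    exact (div_le_div_of_nonneg_right hl (by positivity)).trans_eq (by ring)
  have C0 : 0 ≤ C := by linarith
  have b3 := mul_nonneg C0 p3
  have b4 := mul_nonneg C0 p4
  rw [id]
  rw [abs_le] at a1 a2 a3 a4 a5 ⊢
  constructor <;> linarith [a1.1, a1.2, a2.1, a2.2, a3.1, a3.2, a4.1, a4.2, a5.1, a5.2]

end JrK

open JrK in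
theorem jrOf : JrOf := by
  rintro k p ⟨C, C1, hC⟩
  refine ⟨32 * C + 32, by linarith, fun U R u hU hR => ?_⟩
  obtain ⟨pm, cl, cu, -, -, pb, -⟩ := p U hU
  have U0 : 0 < U := zero_lt_one.trans_le hU
  have R0 : 0 < R := U0.trans_le hR
  have pi3 := Real.pi_gt_three
  have pi4 := Real.pi_lt_d2
  obtain ⟨m, hm⟩ : ∃ m, m = bm (u / U) := ⟨_, rfl⟩
  have hb : be U u = m / (u + I) := by rw [hm, be]
  have m0 : 0 ≤ m := hm ▸ bm.nonneg
  have m1 : m ≤ 1 := hm ▸ bm.le_one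
  rw [hb, ← hm]
  rcases m0.eq_or_lt with h0 | m0
  · simp [← h0]
  have u2 : |u| < 2 * U := by
    by_contra h
    refine m0.ne' (hm.trans (bm.zero_of_le_dist ?_))
    rw [dist_zero_right, Real.norm_eq_abs, abs_div, abs_of_pos U0, le_div_iff₀ U0]
    exact not_lt.1 h
  obtain ⟨ρ, hρ⟩ : ∃ ρ, ρ = √(1 + u ^ 2) := ⟨_, rfl⟩
  have r2 : 1 + u ^ 2 = ρ ^ 2 := hρ ▸ (Real.sq_sqrt (by positivity)).symm
  have ρ0 : 0 < ρ := by rw [hρ]; positivity
  have ρ1 : 1 ≤ ρ := by nlinarith [sq_nonneg u]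
  have ρ2 : ρ ≤ 9 / 4 * U := by
    have := sq_lt_sq' (abs_lt.1 u2).1 (abs_lt.1 u2).2
    exact (pow_le_pow_iff_left₀ ρ0.le (by positivity) two_ne_zero).1 (by nlinarith)
  have y0 : (0 : ℝ) < 1 / (32 * U) := by positivity
  have yr : 1 / (32 * U) * ρ ≤ 9 / 128 := by
    rw [one_div_mul_eq_div, div_le_iff₀ (by positivity)]; linarith
  have hab : 1 / (32 * U) ≤ R / ρ := by
    rw [le_div_iff₀ ρ0]; linarith
  have hnear := near u y0 (by rw [← hρ]; nlinarith)
  have hfar := far u (y := R / ρ) (t := U / R) (by positivity) (by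
    have : 3 * (R / ρ) * (U / R) = 3 * U / ρ := by field_simp
    rw [this, le_div_iff₀ ρ0]; linarith) ((div_le_one R0).2 hR)
  have key : ‖Jr U R u - (GG (c1 U) u (m / (u + I)) (R / ρ) -
      GG (c1 U) u (m / (u + I)) (1 / (32 * U)))‖ ≤ C / U ^ 2 / (1 / (32 * U)) := by
    have mp : Measurable fun y : ℝ => pt (y * u) y :=
      k.mpt.comp ((measurable_id.mul_const u).prodMk measurable_id)
    rw [Jr, ← hρ]
    refine split y0 hab (by positivity) (((k.mts ℤ (tr U) (fun b => k.msr _ _ pm)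
      (XsA.tr_sum (fun z => (pb z).2) k)).comp mp).sub (pm.comp mp))
      (fun y hy => der _ _ _ (y0.trans_le hy.1)) (cont _ _ _ fun y hy => y0.trans_le hy.1)
      fun y hy => ?_
    have hy0 := y0.trans_le hy.1
    obtain ⟨e1, e2, e3⟩ := k.ptc (y * u) y hy0
    have e4 : ((pt (y * u) y : ℍ) : ℂ) = y * (u + I) := by rw [e1]; push_cast; ring
    have h := hC U (pt (y * u) y) hU
    rw [e3, e4, mul_pow, ← div_div] at h
    refine le_of_eq_of_le (congrArg _ ?_) h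
    rw [gg, ph, e2, e3, e4, mul_comm U y, mul_div_mul_left _ _ hy0.ne', ← hm, div_div,
      mul_comm _ (y : ℂ)]
    ring
  have g1 := reG (c1 U) u m (R / ρ)
  have g2 := reG (c1 U) u m (1 / (32 * U))
  have nb : ‖(starRingEnd ℂ) (m / (u + I) : ℂ)‖ = m / ρ := by
    rw [RCLike.norm_conj, norm_div, nw, norm_real, Real.norm_of_nonneg m0.le, hρ]
  have he := (abs_re_le_norm _).trans ((norm_mul _ _).trans_le
    (mul_le_mul nb.le key (norm_nonneg _) (by positivity)))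
  rw [← hρ] at hnear ⊢
  rw [r2] at g1 g2 ⊢
  have c0 : 0 ≤ c1 U := by
    have : 2 / U ≤ 2 := div_le_self zero_le_two hU
    linarith
  refine le_of_eq_of_le (congrArg _ ?_) (fin (L2 := Real.log (2 * π)) C1 hU hR ρ1 m0.le m1 c0
    (by linarith) he hfar (hnear.trans ?_) ?_)
  · rw [← g1, ← g2, ← sub_re, ← add_re, ← mul_sub, ← mul_add, sub_add_cancel]
  · have : ρ / U = 32 * (1 / (32 * U) * ρ) := by field_simp
    rw [this]
    nlinarith [mul_pos y0 ρ0]
  · rcases m1.eq_or_lt with h1 | h1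
    · simp [h1]
    refine mul_le_mul_of_nonneg_left ?_ (by nlinarith)
    have u1 : U ≤ |u| := by
      by_contra h
      refine h1.ne (hm.trans (bm.one_of_mem_closedBall ?_))
      rw [mem_closedBall_zero_iff, Real.norm_eq_abs, abs_div, abs_of_pos U0, div_le_iff₀ U0]
      exact (not_le.1 h).le.trans_eq (one_mul U).symm
    have u3 : U ≤ ρ := (pow_le_pow_iff_left₀ U0.le ρ0.le two_ne_zero).1 (by
      have := pow_le_pow_left₀ U0.le u1 2
      rw [sq_abs] at this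
      linarith)
    have l1 := Real.log_nonpos (mul_pos y0 ρ0).le (by linarith)
    have l2 := Real.one_sub_inv_le_log_of_pos (mul_pos y0 ρ0)
    have l3 : (1 / (32 * U) * ρ)⁻¹ ≤ 32 := by
      rw [one_div_mul_eq_div, inv_div, div_le_iff₀ ρ0]; linarith
    rw [abs_of_nonpos l1]
    linarith

end Pool.Agent.MP_20b2fd_nt.H96
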