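import Pool.Agent.MP_20b2fd_nt.H96.SpecK
import Pool.Agent.MP_20b2fd_nt.H38.Xs

/-! The holomorphic kernel against the tube. -/

set_option autoImplicit false

namespace Pool.Agent.MP_20b2fd_nt.H96

open UpperHalfPlane hiding I
open MeasureTheory Complex Finset Filter Topology Pool.Agent.MP_20b2fd_nt.H38
open scoped Real

namespace K1K

theorem low {U p q : ℝ} (hU : 1 ≤ U) (hp : p ≠ 0) (hq : q ≠ 0) : ∃ c : ℝ, 0 < c ∧ ∀ w : ℂ,
    |w.re| ≤ 2 * U * w.im → 1 + w.im ≤ c * ‖p * w + q‖ := by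
  have p0 := abs_pos.2 hp
  have q0 := abs_pos.2 hq
  refine ⟨(1 + 2 * U) / |q| + 1 / |p|, by positivity, fun w hw => ?_⟩
  have y0 : 0 ≤ w.im := by nlinarith [abs_nonneg w.re]
  have h1 : |p| * w.im ≤ ‖p * w + q‖ := by
    have := abs_im_le_norm (p * w + q)
    simpa [abs_mul, abs_of_nonneg y0] using this
  have h2 : |q| ≤ ‖p * w + q‖ + |p| * |w.re| := by
    have h := abs_re_le_norm (p * w + q)
    have e : ((p : ℂ) * w + q).re = p * w.re + q := by simp
    rw [e] at h
    have := abs_sub (p * w.re + q) (p * w.re)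
    rw [add_sub_cancel_left, abs_mul] at this
    linarith
  have h3 : |q| ≤ (1 + 2 * U) * ‖p * w + q‖ := by
    have := mul_le_mul_of_nonneg_left hw p0.le
    nlinarith
  have h4 : 1 ≤ (1 + 2 * U) / |q| * ‖p * w + q‖ := by
    rw [div_mul_eq_mul_div, le_div_iff₀ q0]; linarith
  have h5 : w.im ≤ 1 / |p| * ‖p * w + q‖ := by
    rw [div_mul_eq_mul_div, le_div_iff₀ p0]; linarith
  linarith

/-- the kernel on complex numbers -/
noncomputable def G (t : ℝ) (w : ℂ) : ℂ := 1 / ((w + 1) * ((1 + t) * w + t))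

theorem bd {U t : ℝ} (hU : 1 ≤ U) (h0 : t ≠ 0) (h1 : t ≠ -1) : ∃ B : ℝ, 0 ≤ B ∧ ∀ w : ℂ,
    |w.re| ≤ 2 * U * w.im →
      w + 1 ≠ 0 ∧ (1 + t) * w + t ≠ 0 ∧ ‖G t w‖ ≤ B * (1 + w.im ^ 2)⁻¹ := by
  obtain ⟨c, c0, hc⟩ := low hU one_ne_zero one_ne_zero
  obtain ⟨d, d0, hd⟩ := low (p := 1 + t) hU (fun h => h1 (by linarith)) h0
  refine ⟨c * d, by positivity, fun w hw => ?_⟩
  have y0 : 0 ≤ w.im := by nlinarith [abs_nonneg w.re]
  have a := hc w hw
  have b := hd w hw
  simp only [ofReal_one, one_mul, ofReal_add] at a b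
  have a0 : 0 < ‖w + 1‖ := by
    by_contra h
    nlinarith [norm_nonneg (w + 1)]
  have b0 : 0 < ‖(1 + t) * w + t‖ := by
    by_contra h
    nlinarith [norm_nonneg ((1 + t) * w + t)]
  refine ⟨norm_pos_iff.1 a0, norm_pos_iff.1 b0, ?_⟩
  rw [G, norm_div, norm_one, norm_mul, ← div_eq_mul_inv, div_le_div_iff₀ (by positivity)
    (by positivity)]
  have := mul_le_mul a b (by positivity) (by positivity)
  nlinarith

theorem dlog (a b : ℂ) {y : ℝ} (h : a * y + b ≠ 0) :
    HasDerivAt (fun y : ℝ => Real.log ‖a * y + b‖) (a / (a * y + b)).re y := by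
  have h1 : HasDerivAt (fun y : ℝ => a * y + b) a y := by
    simpa using ((hasDerivAt_id y).ofReal_comp.const_mul a).add_const b
  have n0 : ‖a * y + b‖ ^ 2 ≠ 0 := pow_ne_zero _ (norm_ne_zero_iff.2 h)
  have h2 := (h1.norm_sq.log n0).div_const 2
  have e : (fun y : ℝ => Real.log (‖a * y + b‖ ^ 2) / 2) = fun y : ℝ => Real.log ‖a * y + b‖ := by
    funext y
    rw [Real.log_pow]
    push_cast
    ring
  rw [e] at h2
  refine h2.congr_deriv ?_
  rw [div_re, Complex.inner, ← Complex.normSq_eq_norm_sq, mul_re, conj_re, conj_im]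
  ring

theorem tl (a b : ℂ) (h : a ≠ 0) :
    Tendsto (fun y : ℝ => Real.log ‖a * y + b‖ - Real.log y) atTop (𝓝 (Real.log ‖a‖)) := by
  have h1 : Tendsto (fun y : ℝ => a + b * ((y⁻¹ : ℝ) : ℂ)) atTop (𝓝 a) := by
    have := ((continuous_ofReal.tendsto 0).comp tendsto_inv_atTop_zero).const_mul b
    simpa using this.const_add a
  have h2 := h1.norm.log (norm_ne_zero_iff.2 h)
  have h3 := h1.eventually_ne h
  refine h2.congr' ?_
  filter_upwards [h3, eventually_gt_atTop 0] with y hy y0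
  have e : a * y + b = (a + b * ((y⁻¹ : ℝ) : ℂ)) * y := by
    have : (y : ℂ) ≠ 0 := ofReal_ne_zero.2 y0.ne'
    push_cast
    field_simp
  rw [e, norm_mul, Real.log_mul (norm_ne_zero_iff.2 hy) (by simpa using y0.ne'), norm_real,
    Real.norm_of_nonneg y0.le]
  ring

theorem ray {U t u : ℝ} (hU : 1 ≤ U) (h0 : t ≠ 0) (h1 : t ≠ -1) (hu : |u| ≤ 2 * U) :
    ((u + I) * ∫ y in Set.Ioi (0 : ℝ), G t ((u + I) * y)).re = Real.log |1 + 1 / t| := by
  obtain ⟨B, B0, hB⟩ := bd hU h0 h1
  have t1 : 1 + t ≠ 0 := fun h => h1 (by linarith)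
  have t1' : (1 + t : ℂ) ≠ 0 := by exact_mod_cast t1
  have hv := XsA.uI u
  have hb : ∀ y : ℝ, 0 ≤ y → (u + I) * y + 1 ≠ 0 ∧ (1 + t) * ((u + I) * y) + t ≠ 0 ∧
      ‖G t ((u + I) * y)‖ ≤ B * (1 + y ^ 2)⁻¹ := fun y hy => by
    have := hB ((u + I) * y) (by
      simp only [mul_re, add_re, ofReal_re, Complex.I_re, add_zero, add_im, ofReal_im,
        Complex.I_im, zero_add, mul_zero, sub_zero, mul_im, one_mul, abs_mul,
        abs_of_nonneg hy]
      exact mul_le_mul_of_nonneg_right hu hy)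
    simpa using this
  have hm : Measurable fun y : ℝ => G t ((u + I) * y) := by
    unfold G
    fun_prop
  have hi : IntegrableOn (fun y : ℝ => G t ((u + I) * y)) (Set.Ioi 0) := by
    refine Integrable.mono' (integrable_inv_one_add_sq.const_mul B).integrableOn
      hm.aestronglyMeasurable ?_
    exact (ae_restrict_mem measurableSet_Ioi).mono fun y hy => (hb y (le_of_lt hy)).2.2
  have hi' := hi.const_mul (u + I)
  rw [← integral_const_mul]
  refine (integral_re hi').symm.trans ?_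
  have hd : ∀ y ∈ Set.Ici (0 : ℝ), HasDerivAt (fun y : ℝ =>
      Real.log ‖(1 + t) * (u + I) * y + t‖ - Real.log ‖(u + I) * y + 1‖)
      (RCLike.re ((u + I) * G t ((u + I) * y))) y := fun y hy => by
    obtain ⟨a, b, -⟩ := hb y hy
    have b' : (1 + t) * (u + I) * y + t ≠ 0 := by rwa [mul_assoc]
    refine ((dlog _ _ b').sub (dlog _ _ a)).congr_deriv ?_
    rw [← sub_re, G, ← mul_assoc]
    refine congrArg Complex.re ?_
    field_simp
    ring
  have ht := (tl ((1 + t) * (u + I)) t (mul_ne_zero t1' hv)).sub (tl (u + I) 1 hv)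
  simp only [sub_sub_sub_cancel_right] at ht
  rw [integral_Ioi_of_hasDerivAt_of_tendsto' hd hi'.re ht]
  have e : ‖(1 + t : ℂ)‖ = |1 + t| := by
    rw [← Real.norm_eq_abs, ← norm_real]
    push_cast
    rfl
  have e2 : 1 + 1 / t = (1 + t) / t := by field_simp; ring
  rw [norm_mul, Real.log_mul (norm_ne_zero_iff.2 t1') (norm_ne_zero_iff.2 hv), e, e2, abs_div,
    Real.log_div (abs_ne_zero.2 t1) (abs_ne_zero.2 h0)]
  simp

end K1K

theorem k1Of : K1Of := by
  intro k p r U t hU h0 h1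
  obtain ⟨pm, -, -, -, -, pb, -, -, -, hI, -⟩ := p U hU
  have U0 : 0 < U := zero_lt_one.trans_le hU
  have hm : Measurable (Fk t) := by
    have := UpperHalfPlane.continuous_coe.measurable
    unfold Fk
    fun_prop
  obtain ⟨B, B0, hB⟩ := K1K.bd hU h0 h1
  have ms : MeasurableSet {z : ℍ | |z.re| ≤ 2 * U * z.im} :=
    (isClosed_le UpperHalfPlane.continuous_re.abs
      (continuous_const.mul UpperHalfPlane.continuous_im)).measurableSet
  have hi : Integrable (pe (Fk t) (ph U)) := by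
    have h := XsA.int0 hI hm ms B0 (fun z hz => ?_) fun z hz => ?_
    · refine (integrableOn_iff_integrable_of_support_subset fun z hz => ?_).1 h
      exact le_of_lt ((pb z).2 fun e => hz (XsA.pe_zero (.inr e)))
    · refine (hB z hz).2.2.trans (mul_le_of_le_one_right B0 ?_)
      exact inv_le_one_of_one_le₀ (by nlinarith [sq_nonneg (z : ℂ).im])
    · refine (mul_le_mul_of_nonneg_left (hB z hz).2.2 (sq_nonneg _)).trans ?_
      rw [coe_im, mul_left_comm, ← div_eq_mul_inv]
      exact mul_le_of_le_one_right B0 (div_le_one_of_le₀ (by linarith) (by positivity))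
  refine ⟨hm, hi, ?_⟩
  obtain ⟨r1, r2⟩ := r U (Fk t) hU hm hi
  rw [r2]
  refine (integral_re r1).symm.trans ?_
  rw [c1, ← integral_mul_const]
  refine integral_congr_ae (Eventually.of_forall fun u => ?_)
  by_cases hu : |u| ≤ 2 * U
  · have e : ∫ y in Set.Ioi (0 : ℝ), Fk t (pt (y * u) y) =
        ∫ y in Set.Ioi (0 : ℝ), K1K.G t ((u + I) * y) := by
      refine setIntegral_congr_fun measurableSet_Ioi fun y hy => ?_
      have : ((pt (y * u) y : ℍ) : ℂ) = (u + I) * y := by
        rw [(k.ptc _ _ hy).1]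
        push_cast
        ring
      simp only [Fk, K1K.G, this]
    have e2 : (starRingEnd ℂ) (be U u) = ((bm (u / U) / (1 + u ^ 2) : ℝ) : ℂ) * (u + I) := by
      have h2 : (u : ℂ) - I ≠ 0 := fun h => by simpa using congrArg Complex.im h
      have h3 : (1 + u ^ 2 : ℂ) = (u - I) * (u + I) := by
        linear_combination I_mul_I
      have := XsA.uI u
      simp only [be, map_div₀, conj_ofReal, map_add, conj_I, ← sub_eq_add_neg]
      push_cast
      rw [h3]
      field_simp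
    simp only [e, e2, mul_assoc, RCLike.re_to_complex, re_ofReal_mul, K1K.ray hU h0 h1 hu]
  · have : bm (u / U) = 0 := by
      refine bm.zero_of_le_dist ?_
      rw [dist_zero_right, Real.norm_eq_abs, abs_div, abs_of_pos U0, le_div_iff₀ U0]
      exact (not_le.1 hu).le
    simp [be, this]

end Pool.Agent.MP_20b2fd_nt.H96
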