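import Pool.Agent.MP_20b2fd_nt.H96.K3

/-! The convolution bound with an explicit constant. -/

set_option autoImplicit false

namespace Pool.Agent.MP_20b2fd_nt.H96

open MeasureTheory Set

namespace K3K

theorem phi_le {θ : ℝ} (h0 : 0 < θ) (h1 : θ < 1) :
    ∫ x : ℝ, |x| ^ (θ - 1) / (1 + |x|) ≤ 2 * (1 / θ + 1 / (1 - θ)) := by
  have hi := int_phi h0 h1
  rw [integral_comp_abs (f := fun v : ℝ => v ^ (θ - 1) / (1 + v)),
    ← Ioc_union_Ioi_eq_Ioi (zero_le_one' ℝ),
    setIntegral_union Ioc_disjoint_Ioi_same measurableSet_Ioi (hi.mono_set Ioc_subset_Ioi_self)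
      (hi.mono_set (Ioi_subset_Ioi zero_le_one))]
  refine mul_le_mul_of_nonneg_left (add_le_add ?_ ?_) zero_le_two
  · refine (setIntegral_mono_on (hi.mono_set Ioc_subset_Ioi_self)
      (intervalIntegral.intervalIntegrable_rpow' (r := θ - 1) (a := 0) (b := 1) (by linarith)).1
      measurableSet_Ioc fun v hv => ?_).trans_eq ?_
    · have := hv.1
      exact div_le_self (by positivity) (by linarith)
    · rw [← intervalIntegral.integral_of_le zero_le_one, integral_rpow (Or.inl (by linarith)),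
        sub_add_cancel, Real.one_rpow, Real.zero_rpow h0.ne', sub_zero]
  · refine (setIntegral_mono_on (hi.mono_set (Ioi_subset_Ioi zero_le_one))
      (integrableOn_Ioi_rpow_of_lt (a := θ - 1 - 1) (by linarith) one_pos)
      measurableSet_Ioi fun v hv => ?_).trans_eq ?_
    · have : 0 < v := one_pos.trans hv
      rw [Real.rpow_sub_one this.ne' (θ - 1)]
      exact div_le_div_of_nonneg_left (by positivity) this (by linarith)
    · rw [integral_Ioi_rpow_of_lt (by linarith) one_pos, Real.one_rpow, sub_add_cancel,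
        ← neg_sub 1 θ, neg_div_neg_eq]

end K3K

theorem k3E : ∀ θ : ℝ, 0 < θ → θ ≤ 1 / 2 → ∀ c : ℝ, c ≠ 0 →
    ∫ x : ℝ, |x| ^ (-θ) * (|x - c| ^ (θ - 1) / (1 + |x - c|)) ≤ 16 / θ * |c| ^ (-θ) := by
  intro θ h0 h1 c hc
  have h2 : θ < 1 := by linarith
  refine (K3K.core h0 h2 hc).2.trans (mul_le_mul_of_nonneg_right ?_ (by positivity))
  have h3 := K3K.phi_le h0 h2
  have h4 : 1 / (1 - θ) ≤ 1 / θ := one_div_le_one_div_of_le h0 (by linarith)
  have h5 : 0 < 1 / θ := by positivity
  rw [div_eq_mul_one_div 2, div_eq_mul_one_div 16]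
  linarith

end Pool.Agent.MP_20b2fd_nt.H96
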