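import Pool.Agent.MP_20b2fd_nt.H96.SpecK

/-! The limit of the kernel. -/

set_option autoImplicit false

namespace Pool.Agent.MP_20b2fd_nt.H96

open UpperHalfPlane hiding I
open MeasureTheory Complex Finset Filter Topology Pool.Agent.MP_20b2fd_nt.H38
open scoped Real

namespace KlimK

theorem log_le {θ v s : ℝ} (h0 : 0 < θ) (h1 : θ < 1) (hv : 0 < v) (hs : 0 < s)
    (h : s ≤ 1 + 1 / v) : Real.log s ≤ v ^ (-θ) / θ := by
  have h2 := Real.rpow_add_le_add_rpow zero_le_one (one_div_pos.2 hv).le h0.le h1.le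
  have h3 := Real.log_le_sub_one_of_pos (Real.rpow_pos_of_pos hs θ)
  have h4 := Real.rpow_le_rpow hs.le h h0.le
  rw [Real.log_rpow hs] at h3
  rw [Real.one_rpow, one_div v, Real.inv_rpow hv.le, ← Real.rpow_neg hv.le, ← one_div v] at h2
  rw [le_div_iff₀ h0]
  linarith

theorem abs_log {θ t : ℝ} (h0 : 0 < θ) (h1 : θ < 1) (ht : t ≠ 0) (ht' : 1 + t ≠ 0) :
    |Real.log (|1 + 1 / t|)| ≤ (|t| ^ (-θ) + |1 + t| ^ (-θ)) / θ := by
  have a := abs_pos.2 ht
  have b := abs_pos.2 ht'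
  have e : |1 + 1 / t| = |1 + t| / |t| := by
    rw [← abs_div]
    congr 1
    field_simp
    ring
  have h2 := log_le h0 h1 a (div_pos b a) (by
    rw [div_le_iff₀ a, add_mul, one_div_mul_cancel a.ne', one_mul, add_comm]
    simpa using abs_add_le t 1)
  have h3 := log_le h0 h1 b (div_pos a b) (by
    rw [div_le_iff₀ b, add_mul, one_div_mul_cancel b.ne', one_mul]
    simpa using abs_sub (1 + t) 1)
  have h4 : 0 ≤ |t| ^ (-θ) / θ := by positivity
  have h5 : 0 ≤ |1 + t| ^ (-θ) / θ := by positivity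
  rw [← inv_div, Real.log_inv] at h3
  rw [e, add_div, abs_le]
  constructor <;> linarith

theorem ptw (k : KitS) {U t : ℝ} (hU : 1 ≤ U) (hp : ∀ z : ℍ, ‖ph U z‖ ≤ 1 / ‖(z : ℂ)‖) (w : ℍ) :
    ‖pe (fun z => 1 / (z : ℂ) - ph U z) (sr (ph U) (gr 1 (-t) (-1) (1 + t))) w‖ ≤ Ed U t w := by
  have hd : (0 : ℝ) < 1 * (1 + t) - -t * -1 := by linarith
  have hy := w.im_pos
  have e : 1 / (w : ℂ) - ph U w = ((1 - bm (w.re / (U * w.im)) : ℝ) : ℂ) / w := by
    rw [ph]
    push_cast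
    ring
  rw [pe, Ed, e]
  split_ifs with h
  · have n0 : 0 < ‖(w : ℂ)‖ := norm_pos_iff.2 w.ne_zero
    have nz : ∀ a : ℝ, 0 < ‖(w : ℂ) - a‖ := fun a => norm_pos_iff.2 fun e => by
      have := congrArg Complex.im e
      simp [hy.ne'] at this
    have n1 := nz t
    have n2 := nz (1 + t)
    push_cast at n2
    have h1 : ‖((1 - bm (w.re / (U * w.im)) : ℝ) : ℂ) / w‖ ≤ 1 / ‖(w : ℂ)‖ := by
      rw [norm_div, Complex.norm_real, Real.norm_of_nonneg (sub_nonneg.2 bm.le_one)]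
      exact div_le_div_of_nonneg_right (sub_le_self _ bm.nonneg) n0.le
    have h2 : ‖sr (ph U) (gr 1 (-t) (-1) (1 + t)) w‖ ≤
        1 / (‖(w : ℂ) - t‖ * ‖(w : ℂ) - (1 + t)‖) := by
      have h3 := hp (gr 1 (-t) (-1) (1 + t) • w)
      rw [k.coe _ _ _ _ _ hd] at h3
      rw [k.slr _ _ _ _ _ _ hd, norm_mul]
      refine (mul_le_mul_of_nonneg_left h3 (norm_nonneg _)).trans_eq ?_
      have e1 : ((-1 : ℝ) : ℂ) * w + (1 + t : ℝ) = -(w - (1 + t)) := by
        push_cast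
        ring
      have e2 : ((1 : ℝ) : ℂ) * w + (-t : ℝ) = w - t := by
        push_cast
        ring
      rw [e1, e2, show 1 * (1 + t) - -t * -1 = 1 by ring]
      simp only [norm_div, norm_pow, norm_neg, ofReal_one, norm_one]
      field_simp
    rw [norm_mul, norm_mul, norm_conj, norm_pow, Complex.norm_real, Real.norm_of_nonneg hy.le]
    refine (mul_le_mul_of_nonneg_right (mul_le_mul h1 h2 (norm_nonneg _) (by positivity))
      (by positivity)).trans_eq ?_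
    field_simp
  · have : bm (w.re / (U * w.im)) = 1 := bm.one_of_mem_closedBall (by
      have h1 : 0 < U * w.im := by positivity
      rw [mem_closedBall_zero_iff, Real.norm_eq_abs, abs_div, abs_of_pos h1, div_le_iff₀ h1]
      simpa [bm] using (not_le.1 h).le)
    simp [this]

theorem main (k : KitS) {U t : ℝ} (z : ℍ) :
    pe (fun z => 1 / (z : ℂ) - ph U z) (sr (ph U) (gr 1 (-t) (-1) (1 + t))) (gr (1 + t) t 1 1 • z)
      = pe (Fk t) (ph U) z - pe (sr (ph U) (gr (1 + t) t 1 1)) (ph U) z := by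
  have hd : (0 : ℝ) < (1 + t) * 1 - t * 1 := by linarith
  have hd' : (0 : ℝ) < 1 * (1 + t) - -t * -1 := by linarith
  have h0 : 0 < (gr (1 + t) t 1 1).det.val := by
    rw [gr, dif_pos hd.ne', Matrix.GeneralLinearGroup.val_det_apply]
    change 0 < Matrix.det !![1 + t, t; 1, 1]
    rwa [Matrix.det_fin_two_of]
  have h1 : sr (sr (ph U) (gr 1 (-t) (-1) (1 + t))) (gr (1 + t) t 1 1) = ph U := by
    rw [k.srm, k.grm _ _ _ _ _ _ _ _ hd'.ne' hd.ne']
    have : gr (1 * (1 + t) + -t * 1) (1 * t + -t * 1) (-1 * (1 + t) + (1 + t) * 1)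
        (-1 * t + (1 + t) * 1) = gl (1, 0, 0, 1) := by
      simp only [gl]
      congr 1 <;> simp
    rw [this]
    exact (k.one _).1
  rw [← k.pes _ _ _ _ h0, h1, pe, pe, pe, ← sub_mul, ← sub_mul, k.slr _ _ _ _ _ _ hd,
    k.slr _ _ _ _ _ _ hd, mul_sub, k.coe _ _ _ _ _ hd, Fk]
  have h2 := k.den 1 1 z (Or.inl one_ne_zero)
  congr 3
  push_cast at h2 ⊢
  rw [one_mul] at h2 ⊢
  rw [one_div_div, div_mul_div_comm, sq, mul_right_comm, mul_div_mul_right _ _ h2]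
  congr 1
  ring

theorem edge (k : KitS) (hP : PhS) (hX : XgS) (h1 : K1S) {U t : ℝ} (hU : 1 ≤ U) (ht : t ≠ 0)
    (ht' : t ≠ -1) (i2 : Integrable (Ed U t)) :
    |Kf U t - c1 U * Real.log (|1 + 1 / t|)| ≤ ∫ w, Ed U t w := by
  have ht1 : 1 + t ≠ 0 := fun e => ht' (by linarith)
  obtain ⟨-, -, -, -, -, hp, -⟩ := hP U hU
  obtain ⟨-, i1, e1⟩ := h1 U t hU ht ht'
  have i3 := ((hX U hU).1 (1 + t) t 1 1 ht1 ht one_ne_zero one_ne_zero (by linarith)).1
  have a1 := (k.ints (gr (1 + t) t 1 1) (pe (fun z => 1 / (z : ℂ) - ph U z)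
    (sr (ph U) (gr 1 (-t) (-1) (1 + t))))).1
  simp only [main k] at a1
  rw [integral_sub i1 i3] at a1
  have a2 := norm_integral_le_of_norm_le i2
    (Eventually.of_forall (ptw k (t := t) hU fun z => (hp z).1))
  rw [← a1] at a2
  have a3 := (abs_re_le_norm _).trans a2
  rwa [sub_re, e1, abs_sub_comm] at a3

theorem lgb {θ t : ℝ} (h0 : 0 < θ) (h1 : θ < 1) (ht : t ≠ 0) (ht' : t ≠ -1) :
    |Real.log (|1 + 1 / t|)| ≤ (1 + 1 / θ) * (|t| ^ (-θ) + |1 + t| ^ (-θ)) := by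
  refine (abs_log h0 h1 ht fun e => ht' (by linarith)).trans ?_
  rw [div_eq_mul_one_div, mul_comm]
  exact mul_le_mul_of_nonneg_right (by linarith) (by positivity)

end KlimK

theorem klimOf : KlimOf := by
  intro k hP hX h1 h2 θ h0 hθ
  obtain ⟨C, C1, hC⟩ := h2 θ h0 hθ
  refine ⟨C + 2 / θ, le_add_of_le_of_nonneg C1 (by positivity), fun U t hU ht ht' => ?_⟩
  obtain ⟨-, c1a, c1b, -⟩ := hP U hU
  obtain ⟨i2, e2⟩ := hC U t hU ht ht'
  have a3 := (KlimK.edge k hP hX h1 hU ht ht' i2).trans e2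
  have a4 := KlimK.abs_log h0 hθ ht fun e => ht' (by linarith)
  have a5 : 2 / U ≤ 2 * U ^ (θ - 1) := by
    rw [div_eq_mul_inv, ← Real.rpow_neg_one]
    exact mul_le_mul_of_nonneg_left (Real.rpow_le_rpow_of_exponent_le hU (by linarith)) zero_le_two
  have a6 : |(c1 U - π) * Real.log (|1 + 1 / t|)| ≤
      2 * U ^ (θ - 1) * ((|t| ^ (-θ) + |1 + t| ^ (-θ)) / θ) := by
    rw [abs_mul]
    exact mul_le_mul (abs_le.2 ⟨by linarith, by linarith [show 0 ≤ 2 / U by positivity]⟩) a4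
      (abs_nonneg _) (by positivity)
  have a7 := (abs_add_le _ _).trans (add_le_add a3 a6)
  exact (congrArg abs (by ring)).trans_le (a7.trans_eq (by ring))

end Pool.Agent.MP_20b2fd_nt.H96
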