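import Pool.Agent.MP_20b2fd_nt.H96.K2
import Pool.Agent.MP_20b2fd_nt.H96.K3E
import Pool.Agent.MP_20b2fd_nt.H96.Klim

/-! A bound for the kernel that does not depend on the width of the tube. -/

set_option autoImplicit false

namespace Pool.Agent.MP_20b2fd_nt.H96

open UpperHalfPlane hiding I
open MeasureTheory Complex Filter Topology Pool.Agent.MP_20b2fd_nt.H38
open scoped Real

namespace KuK

open K2K in
theorem core (k : KitS) {θ C U t : ℝ} (h0 : 0 < θ) (h1 : θ < 1) (hC : 0 ≤ C)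
    (hk : ∀ c : ℝ, c ≠ 0 →
      (Integrable fun x : ℝ => |x| ^ (-θ) * (|x - c| ^ (θ - 1) / (1 + |x - c|))) ∧
      ∫ x : ℝ, |x| ^ (-θ) * (|x - c| ^ (θ - 1) / (1 + |x - c|)) ≤ C * |c| ^ (-θ))
    (hU : 1 ≤ U) (ht : t ≠ 0) (ht' : t ≠ -1) : Integrable (Ed U t) ∧
      ∫ w, Ed U t w ≤ 3 / (1 - θ) * C * U ^ (θ - 1) * (|t| ^ (-θ) + |1 + t| ^ (-θ)) := by
  have hθ : 0 < 1 - θ := by linarith
  have hb : 1 + t ≠ 0 := fun h => ht' (by linarith)
  obtain ⟨ia, ba⟩ := hk t ht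
  obtain ⟨ib, bb⟩ := hk (1 + t) hb
  have hK : 0 ≤ 3 / (1 - θ) * U ^ (θ - 1) := by
    have : 0 < U := by linarith
    positivity
  have m1 := (mEd U t).ennreal_ofReal
  have key : ∫⁻ w, ENNReal.ofReal (Ed U t w) ≤
      ENNReal.ofReal (3 / (1 - θ) * C * U ^ (θ - 1) * (|t| ^ (-θ) + |1 + t| ^ (-θ))) := by
    rw [k.lint _ m1, lintegral_lintegral_swap]
    swap
    · exact (((m1.comp k.mpt).comp measurable_swap).mul
        ((measurable_fst.pow_const 2).const_div 1).ennreal_ofReal).aemeasurable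
    have ae : ∀ c : ℝ, ∀ᵐ x : ℝ, x - c ≠ 0 := fun c => by
      simp only [sub_ne_zero]; exact Measure.ae_ne volume c
    refine (lintegral_mono_ae ?_).trans ((ofReal_integral_eq_lintegral_ofReal
      ((ia.add ib).const_mul (3 / (1 - θ) * U ^ (θ - 1))) (Eventually.of_forall fun x => ?_)).ge.trans
      (ENNReal.ofReal_le_ofReal ?_))
    · filter_upwards [ae 0, ae t, ae (1 + t)] with x x0 xa xb
      exact slice k h0 h1 hU (by simpa using x0) xa xb
    · exact mul_nonneg hK (by simp only [Pi.add_apply]; positivity)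
    · rw [integral_const_mul, integral_add' ia ib]
      linarith [mul_le_mul_of_nonneg_left (add_le_add ba bb) hK]
  have n1 : 0 ≤ᵐ[volume] Ed U t := Eventually.of_forall (Ed_nonneg U t)
  refine ⟨⟨(mEd U t).aestronglyMeasurable, (hasFiniteIntegral_iff_ofReal n1).2
    (key.trans_lt ENNReal.ofReal_lt_top)⟩, ?_⟩
  rw [integral_eq_lintegral_of_nonneg_ae n1 (mEd U t).aestronglyMeasurable]
  refine ENNReal.toReal_le_of_le_ofReal ?_ key
  have : 0 < U := by linarith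
  positivity

theorem pw3 {m v : ℝ} (hm : 0 < m) (h : m ≤ v) : v ^ (-(1 / (2 + |Real.log m|))) ≤ 3 := by
  have L0 := abs_nonneg (Real.log m)
  have hθ : 0 < 1 / (2 + |Real.log m|) := by positivity
  refine (Real.rpow_le_rpow_of_nonpos hm h (by linarith)).trans ?_
  rw [Real.rpow_def_of_pos hm]
  refine (Real.exp_le_exp.2 ?_).trans (Real.exp_one_lt_d9.le.trans (by norm_num))
  rw [mul_neg, mul_one_div, ← neg_div, div_le_one (by positivity)]
  linarith [neg_abs_le (Real.log m)]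

end KuK

def KuS : Prop :=
  ∃ C : ℝ, 1 ≤ C ∧ ∀ U t : ℝ, 1 ≤ U → t ≠ 0 → t ≠ -1 → |Kf U t| ≤ C * (1 + |Real.log (mn t)|)

theorem kuOf (k : KitS) (hP : PhS) (hX : XgS) (h1 : K1S) : KuS := by
  refine ⟨1200, by norm_num, fun U t hU ht ht' => ?_⟩
  have hb : 1 + t ≠ 0 := fun h => ht' (by linarith)
  have m0 : 0 < mn t := lt_min one_pos (lt_min (abs_pos.2 ht) (abs_pos.2 hb))
  have p1 := KuK.pw3 m0 ((min_le_right _ _).trans (min_le_left _ _) : mn t ≤ |t|)
  have p2 := KuK.pw3 m0 ((min_le_right _ _).trans (min_le_right _ _) : mn t ≤ |1 + t|)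
  have L0 := abs_nonneg (Real.log (mn t))
  generalize |Real.log (mn t)| = L at *
  have h0 : 0 < 1 / (2 + L) := by positivity
  have h2 : 1 / (2 + L) ≤ 1 / 2 := one_div_le_one_div_of_le two_pos (by linarith)
  have h3 : 1 / (2 + L) < 1 := by linarith
  obtain ⟨i, e⟩ := KuK.core k h0 h3 (C := 16 / (1 / (2 + L))) (by positivity)
    (fun c hc => ⟨(K3K.core h0 h3 hc).1, k3E _ h0 h2 c hc⟩) hU ht ht'
  have a3 := (KlimK.edge k hP hX h1 hU ht ht' i).trans e
  have a4 := KlimK.abs_log h0 h3 ht hb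
  obtain ⟨-, c1a, c1b, a0, a1', -⟩ := hP U hU
  have u1 : U ^ (1 / (2 + L) - 1) ≤ 1 := Real.rpow_le_one_of_one_le_of_nonpos hU (by linarith)
  have u0 : 0 ≤ U ^ (1 / (2 + L) - 1) := Real.rpow_nonneg (by linarith) _
  have s0 : 0 ≤ |t| ^ (-(1 / (2 + L))) + |1 + t| ^ (-(1 / (2 + L))) := by positivity
  have s1 : |t| ^ (-(1 / (2 + L))) + |1 + t| ^ (-(1 / (2 + L))) ≤ 6 := by linarith
  have q : 3 / (1 - 1 / (2 + L)) ≤ 6 := by rw [div_le_iff₀ (by linarith)]; linarith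
  rw [div_div_eq_mul_div, div_one] at a3 a4
  generalize |t| ^ (-(1 / (2 + L))) + |1 + t| ^ (-(1 / (2 + L))) = S at *
  have b1 : 3 / (1 - 1 / (2 + L)) * (16 * (2 + L)) * U ^ (1 / (2 + L) - 1) * S ≤
      6 * (16 * (2 + L)) * 1 * 6 := by gcongr
  have b2 : |c1 U * Real.log (|1 + 1 / t|)| ≤ 4 * (6 * (2 + L)) := by
    rw [abs_mul, abs_of_nonneg (a0.trans a1')]
    exact mul_le_mul (c1b.trans Real.pi_le_four) (a4.trans (by gcongr)) (abs_nonneg _) (by norm_num)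
  have := abs_sub_abs_le_abs_sub (Kf U t) (c1 U * Real.log (|1 + 1 / t|))
  linarith

end Pool.Agent.MP_20b2fd_nt.H96
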