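import Pool.Agent.MP_20b2fd_nt.H96.SpecK
import Pool.Agent.MP_20b2fd_nt.H38.Xs

/-! The sum of the translates, uniformly. -/

set_option autoImplicit false

namespace Pool.Agent.MP_20b2fd_nt.H96

open UpperHalfPlane hiding I
open MeasureTheory Complex Finset Filter Topology Pool.Agent.MP_20b2fd_nt.H38
open scoped Real ContDiff FourierTransform

namespace PoK

theorem poi {φ : ℝ → ℂ} (h1 : HasCompactSupport φ) (h2 : ContDiff ℝ ∞ φ) (x : ℝ) {y : ℝ}
    (hy : 0 < y) : ∑' b : ℤ, φ ((x + b) / y) / y =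
      ∑' n : ℤ, 𝓕 φ (n * y) * fourier n (x : UnitAddCircle) := by
  have y0 : (y : ℂ) ≠ 0 := ofReal_ne_zero.2 hy.ne'
  have g1 : HasCompactSupport fun t => φ (t / y) / y := by
    have := (h1.comp_smul (inv_ne_zero hy.ne')).mul_right (f' := fun _ => (y : ℂ)⁻¹)
    simpa only [smul_eq_mul, div_eq_inv_mul, Pi.mul_def, mul_comm (φ _)] using this
  have g2 : ContDiff ℝ ∞ fun t => φ (t / y) / y := (h2.comp (contDiff_id.div_const y)).div_const _
  have e : ∀ w : ℝ, 𝓕 (fun t => φ (t / y) / y) w = 𝓕 φ (w * y) := fun w => by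
    have := Measure.integral_comp_div
      (fun v : ℝ => cexp (↑(-2 * π * v * (w * y)) * I) • (φ v / y)) y
    rw [Real.fourier_real_eq_integral_exp_smul, Real.fourier_real_eq_integral_exp_smul]
    refine Eq.trans (integral_congr_ae (.of_forall fun v => ?_)) (this.trans ?_)
    · have : -2 * π * (v / y) * (w * y) = -2 * π * v * w := by field_simp
      simp only [this]
    · rw [← integral_smul, abs_of_pos hy]
      refine integral_congr_ae (.of_forall fun v => ?_)
      simp only [smul_eq_mul, real_smul]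
      field_simp
  have P : ∑' b : ℤ, φ ((x + b) / y) / y =
      ∑' n : ℤ, 𝓕 (fun t => φ (t / y) / y) n * fourier n (x : UnitAddCircle) :=
    (g1.toSchwartzMap g2).tsum_eq_tsum_fourier x
  rw [P]
  exact tsum_congr fun n => by rw [e]

theorem tr_be (k : KitS) (U : ℝ) (b : ℤ) (z : ℍ) :
    tr U b z = be U ((z.re + b) / z.im) / z.im := by
  obtain ⟨w, h1, h2, h3, h4⟩ := XsA.tr_eq k U b z
  have y0 : (w.im : ℂ) ≠ 0 := ofReal_ne_zero.2 w.im_ne_zero
  rw [h4, ← h2, ← h3, ph, be, div_div w.re, mul_comm w.im, div_div]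
  congr 1
  rw [ofReal_div, add_mul, div_mul_cancel₀ _ y0, mul_comm]
  exact (re_add_im (w : ℂ)).symm

theorem geo (z : ℍ) : HasSum (fun n : ℤ => (if 0 < n * z.im then
    -(2 * π * I) * (Real.exp (-2 * π * (n * z.im)) : ℂ) else 0) * fourier n (z.re : UnitAddCircle))
    (-(2 * π * I * ee z / (1 - ee z))) := by
  have hq : ‖ee z‖ < 1 := by
    rw [ee, norm_exp, Real.exp_lt_one_iff]
    simpa using mul_pos Real.two_pi_pos z.im_pos
  refine (Function.Injective.hasSum_iff (g := fun n : ℕ => (n : ℤ) + 1)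
    (fun a b h => by simpa using h) fun n hn => ?_).1 ?_
  · rw [if_neg, zero_mul]
    intro h
    have h1 : 0 < n := Int.cast_pos.1 ((mul_pos_iff_of_pos_right z.im_pos).1 h)
    exact hn ⟨(n - 1).toNat, by simp only []; omega⟩
  · rw [div_eq_mul_inv, ← neg_mul (2 * π * I * ee z)]
    refine (congrArg (HasSum · _) (funext fun n => ?_)).mp
      ((hasSum_geometric_of_norm_lt_one hq).mul_left (-(2 * π * I * ee z)))
    rw [Function.comp_apply, if_pos (mul_pos (by positivity) z.im_pos), fourier_coe_apply,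
      neg_mul, neg_mul, neg_mul, mul_assoc _ (ee z), mul_assoc (2 * π * I), ← pow_succ', ee,
      ← Complex.exp_nat_mul, ofReal_exp, ← Complex.exp_add]
    congr 3
    rw [← re_add_im (z : ℂ), coe_re, coe_im]
    push_cast
    linear_combination (2 * π * (n + 1) * z.im) * I_sq

end PoK

theorem poOf : PoOf := by
  rintro k ⟨C, hC, h⟩
  have hs : Summable fun n : ℤ => 1 / (n : ℝ) ^ 2 := Real.summable_one_div_int_pow.2 one_lt_two
  have h0 : 0 ≤ ∑' n : ℤ, 1 / (n : ℝ) ^ 2 := tsum_nonneg fun _ => by positivity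
  refine ⟨C * ∑' n : ℤ, 1 / (n : ℝ) ^ 2 + 1, by nlinarith, fun U z hU => ?_⟩
  have U0 : 0 < U := zero_lt_one.trans_le hU
  have hy := z.im_pos
  have hb : ∀ n : ℤ, ‖if n = 0 then 0 else (𝓕 (be U) (n * z.im) - (if 0 < n * z.im then
      -(2 * π * I) * (Real.exp (-2 * π * (n * z.im)) : ℂ) else 0)) *
        fourier n (z.re : UnitAddCircle)‖ ≤ C / (U * z.im) ^ 2 * (1 / (n : ℝ) ^ 2) := fun n => by
    by_cases hn : n = 0
    · rw [if_pos hn, norm_zero]
      positivity
    · have n0 : (n : ℝ) ≠ 0 := Int.cast_ne_zero.2 hn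
      rw [if_neg hn, norm_mul, fourier_apply, Circle.norm_coe, mul_one]
      refine (h U _ hU (mul_ne_zero n0 hy.ne')).trans (le_of_eq ?_)
      field_simp
  have S := (((hs.mul_left _).of_norm_bounded hb).hasSum.add (hasSum_ite_eq 0 (∫ u, be U u))).add
    (PoK.geo z)
  have S' : ∑' n : ℤ, 𝓕 (be U) (n * z.im) * fourier n (z.re : UnitAddCircle) = _ :=
    Eq.trans (tsum_congr fun n => by
      by_cases hn : n = 0
      · simp [hn, Real.fourier_real_eq]
      · rw [if_neg hn, if_neg hn]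
        ring) S.tsum_eq
  rw [tsum_congr fun b => PoK.tr_be k U b z, PoK.poi (XsA.be_cs U0.ne') (XsA.be_sm U) _ hy, S',
    XsA.be_int U0.ne', add_right_comm _ (-_) (I * _), neg_add_cancel_right, neg_add_cancel_right]
  refine (tsum_of_norm_bounded (hs.hasSum.mul_left _) hb).trans ?_
  rw [div_mul_eq_mul_div]
  gcongr
  linarith

end Pool.Agent.MP_20b2fd_nt.H96
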