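import Pool.Agent.MP_20b2fd_nt.H96.SpecK

/-! Integration against the tube along rays. -/

set_option autoImplicit false

namespace Pool.Agent.MP_20b2fd_nt.H96

open UpperHalfPlane hiding I
open MeasureTheory Complex Set Pool.Agent.MP_20b2fd_nt.H38

namespace RayK

lemma sub {E : Type} [NormedAddCommGroup E] [NormedSpace ℝ E] (f : ℝ → E) {y : ℝ} (hy : 0 < y) :
    ∫ u : ℝ, y • f (y * u) = ∫ x, f x := by
  rw [integral_smul, Measure.integral_comp_mul_left, abs_of_pos (inv_pos.2 hy), smul_smul,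
    mul_inv_cancel₀ hy.ne', one_smul]

lemma polar (g : ℝ × ℝ → ℂ) (mg : Measurable g)
    (hg : Integrable g ((volume.restrict (Ioi (0 : ℝ))).prod volume)) :
    (Integrable fun u : ℝ => ∫ y in Ioi (0 : ℝ), y • g (y, y * u)) ∧
    ∫ y in Ioi (0 : ℝ), ∫ x : ℝ, g (y, x) = ∫ u : ℝ, ∫ y in Ioi (0 : ℝ), y • g (y, y * u) := by
  have hi : Integrable (fun p : ℝ × ℝ => p.1 • g (p.1, p.1 * p.2))
      ((volume.restrict (Ioi (0 : ℝ))).prod volume) := by
    have m : Measurable fun p : ℝ × ℝ => p.1 • g (p.1, p.1 * p.2) :=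
      measurable_fst.smul (mg.comp (by fun_prop))
    refine (integrable_prod_iff m.aestronglyMeasurable).2 ⟨?_, ?_⟩
    · filter_upwards [hg.prod_right_ae, ae_restrict_mem measurableSet_Ioi] with y h hy
      exact (h.comp_mul_left' (ne_of_gt hy)).smul y
    · refine hg.integral_norm_prod_left.congr ?_
      filter_upwards [ae_restrict_mem measurableSet_Ioi] with y hy
      rw [← sub (fun x => ‖g (y, x)‖) hy]
      simp only [norm_smul, smul_eq_mul, Real.norm_of_nonneg (le_of_lt hy)]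
  refine ⟨hi.integral_prod_right, Eq.trans ?_ (integral_integral_swap hi)⟩
  exact setIntegral_congr_fun measurableSet_Ioi fun y hy => (sub (fun x => g (y, x)) hy).symm

end RayK

open RayK in
theorem rayOf : RayOf := by
  intro k p U F hU mF hF
  have m := k.mpe F (ph U) mF (p U hU).1
  obtain ⟨h1, h2⟩ := k.intg _ m
  obtain ⟨a1, a2⟩ := polar (fun p : ℝ × ℝ => pe F (ph U) (pt p.2 p.1) / (p.1 : ℂ) ^ 2)
    ((m.comp (k.mpt.comp measurable_swap)).div (by fun_prop)) (h1.1 hF)
  have e : ∀ u : ℝ, ∫ y in Ioi (0 : ℝ), y • (pe F (ph U) (pt (y * u) y) / (y : ℂ) ^ 2) =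
      (starRingEnd ℂ) (be U u) * ∫ y in Ioi (0 : ℝ), F (pt (y * u) y) := by
    intro u
    rw [← integral_const_mul]
    refine setIntegral_congr_fun measurableSet_Ioi fun y hy => ?_
    replace hy : 0 < y := hy
    have y0 : (y : ℂ) ≠ 0 := ofReal_ne_zero.2 hy.ne'
    obtain ⟨q1, q2, q3⟩ := k.ptc (y * u) y hy
    have a2 : (u : ℂ) - I ≠ 0 := fun h => by simpa using congrArg Complex.im h
    simp only [pe, ph, be, q1, q2, q3, mul_comm U y, mul_div_mul_left _ _ hy.ne', map_div₀,
      map_add, map_mul, conj_ofReal, conj_I, real_smul, ofReal_mul]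
    rw [← mul_add, ← sub_eq_add_neg]
    field_simp
  simp only [e] at a1 a2
  exact ⟨a1, (h2 hF).trans a2⟩

end Pool.Agent.MP_20b2fd_nt.H96
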