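import Pool.Agent.MP_20b2fd_nt.H96.SpecK
import Pool.Agent.MP_20b2fd_nt.H38.Xs

/-! The sum over the translates as an integral over rays. -/

set_option autoImplicit false

namespace Pool.Agent.MP_20b2fd_nt.H96

open UpperHalfPlane hiding I
open MeasureTheory Complex Finset Filter Topology Pool.Agent.MP_20b2fd_nt.H38
open scoped Real

namespace SrK

/-- the truncated disc -/
def DD (s R : ℝ) : Set ℍ := {z | s ≤ z.im ∧ ‖(z : ℂ)‖ ≤ R}

theorem mD (s R : ℝ) : MeasurableSet (DD s R) :=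
  (isClosed_le continuous_const UpperHalfPlane.continuous_im).measurableSet.inter (XsA.mle R)

theorem ray (k : KitS) {s : ℝ} (hs : 0 < s) (R u : ℝ) (G : ℍ → ℂ) :
    ∫ y in Set.Ioi (0 : ℝ), (DD s R).indicator G (pt (y * u) y) =
      ∫ y in Set.Icc s (R / √(1 + u ^ 2)), G (pt (y * u) y) := by
  have e : Set.Ioi (0 : ℝ) ∩ Set.Icc s (R / √(1 + u ^ 2)) = Set.Icc s (R / √(1 + u ^ 2)) :=
    Set.inter_eq_right.2 fun y hy => hs.trans_le hy.1
  rw [← e, ← setIntegral_indicator measurableSet_Icc]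
  refine setIntegral_congr_fun measurableSet_Ioi fun y hy => ?_
  obtain ⟨h1, -, h3⟩ := k.ptc (y * u) y hy
  have h4 : pt (y * u) y ∈ DD s R ↔ y ∈ Set.Icc s (R / √(1 + u ^ 2)) := by
    rw [DD, Set.mem_ofPred_eq, h1, h3, norm_add_mul_I,
      show (y * u) ^ 2 + y ^ 2 = y ^ 2 * (1 + u ^ 2) by ring, Real.sqrt_mul (sq_nonneg y),
      Real.sqrt_sq (le_of_lt hy), Set.mem_Icc, le_div_iff₀ (by positivity)]
  by_cases h : y ∈ Set.Icc s (R / √(1 + u ^ 2))
  · simp only [Set.indicator_of_mem h, Set.indicator_of_mem (h4.2 h)]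
  · simp only [Set.indicator_of_notMem h, Set.indicator_of_notMem (mt h4.1 h)]

end SrK

open XsA SrK in
theorem srOf : SrOf := by
  intro k p _ ry U r R hU r0 h1 h2
  obtain ⟨pm, -, -, -, -, pb, -, -, -, hI, -⟩ := p U hU
  have sup := fun z => (pb z).2
  have U0 : 0 < U := zero_lt_one.trans_le hU
  have R0 := U0.trans_le h2
  obtain ⟨C, hC⟩ := part1 k U0.ne'
  have C0 : 0 ≤ C := by simpa using (norm_nonneg _).trans (hC UpperHalfPlane.I)
  have mt : ∀ b, Measurable (tr U b) := fun b => k.msr _ _ pm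
  unfold Jr
  obtain ⟨s, hs⟩ : ∃ s : ℝ, s = 1 / (32 * U) := ⟨_, rfl⟩
  have s0 : 0 < s := hs ▸ by positivity
  have s1 : 32 * U * s = 1 := by rw [hs]; field_simp
  rw [← hs] at h1 ⊢
  obtain ⟨G, hG⟩ : ∃ G : ℍ → ℂ, G = fun z => (∑' b : ℤ, tr U b z) - ph U z := ⟨_, rfl⟩
  have mG : Measurable G := hG ▸ (k.mts ℤ (tr U) mt (tr_sum sup k)).sub pm
  obtain ⟨B, B0, bG⟩ : ∃ B : ℝ, 0 ≤ B ∧ ∀ z ∈ DD s R, ‖G z‖ ≤ B := by
    refine ⟨C / s ^ 2 + ‖I * c1 U‖ + 1 / s, by positivity, fun z hz => ?_⟩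
    have e : G z = (∑' b : ℤ, tr U b z) + I * c1 U - I * c1 U - ph U z := by rw [hG]; ring
    rw [e]
    exact norm_sub_le_of_le (norm_sub_le_of_le ((hC z).trans (div_le_div_of_nonneg_left C0
      (by positivity) (pow_le_pow_left₀ s0.le hz.1 2))) le_rfl)
      ((pb z).1.trans (one_div_le_one_div_of_le s0 (hz.1.trans (im_le z))))
  have iG : IntegrableOn (pe G (ph U)) (DD s R) :=
    int0 hI mG (mD s R) (B := B + R ^ 2 * B) (by positivity)
      (fun z hz => le_add_of_le_of_nonneg (bG z hz) (by positivity)) fun z hz =>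
        le_add_of_nonneg_of_le B0 (mul_le_mul (pow_le_pow_left₀ z.im_pos.le ((im_le z).trans hz.2) 2)
          (bG z hz) (norm_nonneg _) (sq_nonneg R))
  have e0 : pe ((DD s R).indicator G) (ph U) = (DD s R).indicator (pe G (ph U)) :=
    funext fun z => by by_cases hz : z ∈ DD s R <;> simp [pe, hz]
  obtain ⟨a1, a2⟩ := ry U _ hU (mG.indicator (mD s R))
    (e0 ▸ (integrable_indicator_iff (mD s R)).2 iG)
  rw [e0, integral_indicator (mD s R)] at a2
  simp only [ray k s0] at a1 a2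
  refine ⟨by simpa only [hG] using a1, ?_⟩
  have it : ∀ b, IntegrableOn (pe (tr U b) (ph U)) (DD s R) := fun b =>
    int1 hU sup hI (mt b) (mD _ _) R0.le s0 (fun z h => h.1.trans (im_le z)) fun z hz => by
      obtain ⟨w, -, -, h3, h4⟩ := tr_eq k U b z
      have h5 := (pb w).1.trans (one_div_le_one_div_of_le w.im_pos (im_le w))
      rw [h3, le_div_iff₀ z.im_pos] at h5
      rw [h4]
      nlinarith [(im_le z).trans hz.2, z.im_pos]
  have z0 : ∀ b ∉ Icc (-⌈4 * U * R⌉) ⌈4 * U * R⌉, ∀ z : ℍ, ‖(z : ℂ)‖ ≤ R →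
      pe (tr U b) (ph U) z = 0 := fun b hb z hz => by_contra fun h => hb (memI
    ((pe_sup hU sup k h).le.trans (mul_le_mul_of_nonneg_left hz (by positivity))))
  have t0 : tr U 0 = ph U := (k.one _).1
  have e1 : ∀ b : ℤ, (if b = 0 then 0 else ∫ z in Ann r R, pe (tr U b) (ph U) z) =
      (∫ z in DD s R, pe (tr U b) (ph U) z) -
        if b = 0 then ∫ z in DD s R, pe (ph U) (ph U) z else 0 := fun b => by
    split_ifs with h
    · rw [h, t0, sub_self]
    · rw [sub_zero]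
      refine setIntegral_eq_of_subset_of_forall_sdiff_eq_zero (mA r R)
        (fun z hz => ⟨h1.trans (hz.1.trans (im_le z)), hz.2⟩) fun z hz =>
          by_contra fun h' => hz.2 ⟨?_, hz.1.2⟩
      have b1 : (1 : ℝ) ≤ |(b : ℝ)| := by exact_mod_cast Int.one_le_abs h
      have b2 := abs_lt.1 (tr_sup sup k fun e => h' (pe_zero (.inl e)))
      have b3 := abs_lt.1 (sup z fun e => h' (pe_zero (.inr e)))
      have b4 : |(b : ℝ)| < 4 * U * z.im :=
        abs_lt.2 ⟨by linarith [b2.1, b3.2], by linarith [b2.2, b3.1]⟩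
      have b5 := mul_pos U0 z.im_pos
      exact le_of_mul_le_mul_left (a := 32 * U) (by linarith) (by positivity)
  have e2 : ∑ b ∈ Icc (-⌈4 * U * R⌉) ⌈4 * U * R⌉, ∫ z in DD s R, pe (tr U b) (ph U) z =
      (∫ z in DD s R, pe G (ph U) z) + ∫ z in DD s R, pe (ph U) (ph U) z := by
    rw [← integral_finsetSum _ fun b _ => it b, ← integral_add iG (t0 ▸ it 0)]
    refine setIntegral_congr_fun (mD _ _) fun z hz => ?_
    have := (hasSum_sum_of_ne_finset_zero fun b hb => z0 b hb z hz.2).unique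
      (((tr_sum sup k z).hasSum.mul_right ((starRingEnd ℂ) (ph U z))).mul_right ((z.im : ℂ) ^ 2))
    refine this.trans ?_
    simp only [hG, pe]
    ring
  simp only [e1]
  have H := (hasSum_sum_of_ne_finset_zero (L := SummationFilter.unconditional ℤ)
    (f := fun b => ∫ z in DD s R, pe (tr U b) (ph U) z)
    fun b hb => setIntegral_eq_zero_of_forall_eq_zero fun z hz => z0 b hb z hz.2).sub
      (hasSum_ite_eq 0 (∫ z in DD s R, pe (ph U) (ph U) z))
  refine (congrArg (fun s => HasSum _ s) ?_).mp H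
  rw [e2, add_sub_cancel_right, a2, hG]

end Pool.Agent.MP_20b2fd_nt.H96
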