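import Pool.Agent.MP_20b2fd_nt.H96.SpecK
import Pool.Agent.MP_20b2fd_nt.H38.Xe
import Pool.Agent.MP_20b2fd_nt.H38.Xf
import Pool.Agent.MP_20b2fd_nt.H38.Aut

/-! The second moment bound with the value of the constant. -/

set_option autoImplicit false

namespace Pool.Agent.MP_20b2fd_nt.H96

open UpperHalfPlane hiding I
open MeasureTheory Complex Finset Filter Topology Pool.Agent.MP_20b2fd_nt.H38
open scoped Real

def XeP (Q : ℝ → ℝ → Prop) : Prop :=
  ∀ U : ℝ, 1 ≤ U → ∃ A c₀ : ℝ, Q U c₀ ∧ ∀ N m : ℕ, N.Prime → 1 ≤ m → ¬ N ∣ m →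
    (∀ r R : ℝ, 0 < r → IntegrableOn (pe (AA N U m) (ph U)) (Ann r R)) ∧
    Tendsto (fun R : ℝ => (∫ z in Ann (1 / (N * R)) R, pe (AA N U m) (ph U) z).re - A * sig m * R)
      atTop (𝓝 (2 * (a1 U * tau m * Real.log (N / m) + c₀ * tau m + 2 * Od (Kf U) N m)))

def XfP (Q : ℝ → ℝ → Prop) : Prop :=
  ∀ U : ℝ, 1 ≤ U → ∃ c₀ : ℝ, Q U c₀ ∧
    ∀ (N : ℕ) (ι : Type) (J : Finset ι) (n : ι → ℕ) (x : ι → ℝ),
    N.Prime → (∀ i ∈ J, 1 ≤ n i ∧ n i < N) → ∑ i ∈ J, x i * sig (n i) = 0 →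
    ∃ G : ℍ → ℂ, Measurable G ∧ IP N G G ∧
      (ip N G G).re = 4 * Bl J n x (fun m =>
        a1 U * tau m * Real.log (N / m) + c₀ * tau m + 2 * Od (Kf U) N m) ∧
      ∀ f : CF N, co f 1 = 1 → (∀ p : ℕ, p.Prime → p ≠ N → TT p f = fun z => co f p * f z) →
        ip N f G = c1 U * I * Lc f / π * ∑ i ∈ J, x i * co f (n i)

open Classical in
def AutP (Q : ℝ → ℝ → Prop) : Prop :=
  ∃ (C : ℝ) (c₀ : ℝ → ℝ), 1 ≤ C ∧ (∀ U : ℝ, 1 ≤ U → Q U (c₀ U)) ∧
    ∀ N : ℕ, N.Prime → ∃ S : Sp, S.Ok N C ∧ (∀ U : ℝ, 1 ≤ U → S.Bs N U (c₀ U)) ∧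
      (Hp N).ncard = (univ.filter fun f => S.ε f = 1).card ∧
      (Hn N).ncard = (univ.filter fun f => S.ε f = 1 ∧ S.L f ≠ 0).card

theorem xeP {Q : ℝ → ℝ → Prop} (hQ : ∀ (U : ℝ) (c : ℂ), 1 ≤ U → XsE U c → Q U (2 * c.re))
    (K : KitS) (D : DecS) (P : PhS) (X : XaS) (S : XsS) (G : XgS) : XeP Q := by
  intro U hU
  obtain ⟨-, A, c, r₀, ε, r0, he, hW⟩ := S U hU
  refine ⟨4 * A.re, 2 * c.re, hQ U c hU ⟨A, r₀, ε, r0, he, hW⟩, fun N m hN hm hd =>
    ⟨fun r R hr => (XeA.term K P hU D X hN hm hr R).1, ?_⟩⟩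
  have n0 : (0 : ℝ) < N := by exact_mod_cast hN.pos
  have m0 : (0 : ℝ) < m := by exact_mod_cast hm
  have t1 : ∀ k : ℕ, k ≠ 0 → Tendsto (fun R : ℝ => (ε (k * R)).re) atTop (𝓝 0) := fun k hk =>
    (continuous_re.tendsto 0).comp (he.comp
      (tendsto_id.const_mul_atTop (by positivity : (0 : ℝ) < k)))
  have t2 := ((tendsto_finsetSum m.divisorsAntidiagonal fun x hx =>
    (t1 _ (Nat.left_ne_zero_of_mem_divisorsAntidiagonal hx)).add
      (t1 _ (Nat.right_ne_zero_of_mem_divisorsAntidiagonal hx))).const_mul 2).const_add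
    (2 * (a1 U * tau m * Real.log (N / m) + 2 * c.re * tau m + 2 * Od (Kf U) N m))
  simp only [add_zero, sum_const_zero, mul_zero] at t2
  refine t2.congr' ?_
  filter_upwards [eventually_ge_atTop 1, eventually_ge_atTop r₀, eventually_ge_atTop (m / r₀),
    eventually_ge_atTop ((1 + 4 * U ^ 2) * m)] with R h1 h2 h3 h4
  have R0 : 0 < R := by positivity
  rw [XeA.value K D P X G hU hW hN hm hd h1 h2
    (by rw [div_le_iff₀ R0, mul_comm, ← div_le_iff₀ r0]; exact h3) h4]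
  have e : ∀ x ∈ m.divisorsAntidiagonal, a1 U * Real.log (N * R ^ 2) +
      (A * ((x.1 * R : ℝ) : ℂ) - a1 U * Real.log (x.1 * R) + c + ε (x.1 * R)).re +
      (A * ((x.2 * R : ℝ) : ℂ) - a1 U * Real.log (x.2 * R) + c + ε (x.2 * R)).re =
      (a1 U * Real.log (N / m) + 2 * c.re) + A.re * R * x.1 + A.re * R * x.2 +
        ((ε (x.1 * R)).re + (ε (x.2 * R)).re) := fun x hx => by
    have x1 : (x.1 : ℝ) ≠ 0 := by exact_mod_cast Nat.left_ne_zero_of_mem_divisorsAntidiagonal hx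
    have x2 : (x.2 : ℝ) ≠ 0 := by exact_mod_cast Nat.right_ne_zero_of_mem_divisorsAntidiagonal hx
    have x3 : (m : ℝ) = x.1 * x.2 := by exact_mod_cast (Nat.mem_divisorsAntidiagonal.1 hx).1.symm
    simp only [add_re, sub_re, ← ofReal_mul, ofReal_re, re_mul_ofReal]
    rw [Real.log_div n0.ne' m0.ne', x3, Real.log_mul x1 x2, Real.log_mul x1 R0.ne',
      Real.log_mul x2 R0.ne', Real.log_mul n0.ne' (by positivity), Real.log_pow]
    push_cast
    ring
  have s1 : ∑ x ∈ m.divisorsAntidiagonal, (x.1 : ℝ) = sig m :=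
    Nat.sum_divisorsAntidiagonal fun a _ => (a : ℝ)
  have s2 : ∑ x ∈ m.divisorsAntidiagonal, (x.2 : ℝ) = sig m :=
    Nat.sum_divisorsAntidiagonal' fun _ b => (b : ℝ)
  rw [sum_congr rfl e]
  simp only [sum_add_distrib, XeA.sum_one, ← mul_sum, s1, s2]
  ring

open XfA in
theorem xfP {Q : ℝ → ℝ → Prop} (Hb : HbS) (Ph : PhS) (Xa : XaS) (Xb : XbS) (Xi : XiS) (Xd : XdS)
    (Xe : XeP Q) : XfP Q := by
  intro U hU
  obtain ⟨A, c₀, hq, hc⟩ := Xe U hU
  refine ⟨c₀, hq, fun N ι J n x hN hn hs => ?_⟩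
  have hco : ∀ i ∈ J, 1 ≤ n i ∧ (n i).Coprime N := fun i hi =>
    ⟨(hn i hi).1, (hN.coprime_iff_not_dvd.2 (Nat.not_dvd_of_pos_of_lt (hn i hi).1 (hn i hi).2)).symm⟩
  obtain ⟨h1, h2, h3⟩ := Xd N U ι J n x hN hU hco hs _ rfl
  refine ⟨_, h1, h2, ?_, fun f hf hT => ?_⟩
  · have hk : ∀ k ∈ T3 J n, 1 ≤ n k.1 * n k.2.1 / k.2.2 ^ 2 ∧ ¬ N ∣ n k.1 * n k.2.1 / k.2.2 ^ 2 :=
      fun k hk => by
        simp only [T3, mem_sigma] at hk
        exact ok hN (hn _ hk.1) (hn _ hk.2.1) hk.2.2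
    have hz : ∑ k ∈ T3 J n, x k.1 * x k.2.1 * k.2.2 * sig (n k.1 * n k.2.1 / k.2.2 ^ 2) = 0 := by
      rw [← sum3, sum_congr rfl fun i hi => sum_congr rfl fun j hj => by
        rw [← Hb.2.2.1 _ _ (hn i hi).1 (hn j hj).1, mul_mul_mul_comm], ← sum_mul_sum, hs, zero_mul]
    have he : (fun z => ∑ i ∈ J, ∑ j ∈ J, (x i : ℂ) * x j * Bh (fun k => AA N U k z) (n i) (n j)) =
        fun z => ∑ k ∈ T3 J n, ((x k.1 * x k.2.1 * k.2.2 : ℝ) : ℂ) *
          AA N U (n k.1 * n k.2.1 / k.2.2 ^ 2) z := funext fun z => by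
      rw [sum3]
      simp only [ofReal_mul, ofReal_natCast]
    have hm := main (T3 J n) (fun k => x k.1 * x k.2.1 * k.2.2) _ _
      (fun k => AA N U (n k.1 * n k.2.1 / k.2.2 ^ 2)) (ph U) (Nat.cast_pos.2 hN.pos)
      ((Ph U hU).2.2.2.2.2.2.2.2.2.1 _ (Finset.measurable_sum _ fun k hk' =>
        (Xa N _ U hN (hk k hk').1 hU).2.2.2.1.const_mul _) (Xb N U _ _ _ _ hN hU hk hz)) hz
      fun k hk' => hc N _ hN (hk k hk').1 (hk k hk').2
    rw [h3, he, show (2 : ℂ) = (2 : ℝ) from rfl, re_ofReal_mul, hm, Bl, sum3, mul_sum, mul_sum]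
    exact sum_congr rfl fun k _ => by ring
  · have hx := fun i hi => Xi N U f hN hU hf hT (n i) (hco i hi).1 (hco i hi).2
    rw [ip]
    simp only [pe_right, mul_sum, mul_left_comm (eta N _ : ℂ)]
    rw [integral_finsetSum _ fun i hi => Integrable.const_mul (hx i hi).1 _]
    refine sum_congr rfl fun i hi => ?_
    rw [integral_const_mul, ← ip, (hx i hi).2]
    ring

open AutA in
theorem autP {Q : ℝ → ℝ → Prop} (kit : KitS) (et : EtaS) (de : DecS) (qx : QxS) (cu : CuspS)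
    (hq : HqS) (rs : RsA) (eig : EigS) (bes : BesS) (af : AfS) (pd : PdS) (pee : PeS) (ls : LsA)
    (ph : PhS) (xf : XfP Q) : AutP Q := by
  classical
  obtain ⟨C₁, c1', hP⟩ := pd
  obtain ⟨C₂, c2', hL⟩ := ls
  choose! c₀ hQ hc using xf
  refine ⟨C₁ + C₂, c₀, by linarith, hQ, fun N hN => ?_⟩
  have : NeZero N := ⟨hN.ne_zero⟩
  have N0 : (0 : ℝ) < N := by exact_mod_cast hN.pos
  obtain ⟨E, hE, e1, e2⟩ := eig N hN
  have mE : ∀ f ∈ E, f ∈ EE N := fun f hf => hE ▸ Finset.mem_coe.2 hf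
  let φ : Fin E.card → CF N := fun i => E.equivFin.symm i
  have φE : ∀ i, φ i ∈ E := fun i => (E.equivFin.symm i).2
  have φi : Function.Injective φ := Subtype.val_injective.comp E.equivFin.symm.injective
  have φs : ∀ f ∈ E, ∃ i, φ i = f := fun f hf => ⟨E.equivFin ⟨f, hf⟩, by simp [φ]⟩
  have hs : ∀ F : CF N → ℝ, ∑ i, F (φ i) = ∑ g ∈ E, F g := fun F =>
    (E.equivFin.symm.sum_comp fun x => F x).trans (Finset.sum_coe_sort E F)
  have re : ∀ f ∈ E, co f = fun n => (ar f n : ℂ) := fun f hf => funext fun n =>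
    Complex.ext rfl ((e1 f hf).2.1 n)
  have tw : ∀ f ∈ E, ⇑((-(ep N f : ℂ)) • f) = sl f (WN N) := fun f hf => by
    rw [ep_sl (mE f hf)]
    rfl
  have cw : ∀ f ∈ E, ∀ n, co (sl f (WN N)) n = -(ep N f : ℂ) * ar f n := fun f hf n => by
    rw [← tw f hf, ((qx N f).2.2.2.2.2.2 f _ n).2, re f hf]
  have lc : ∀ f ∈ E, ∀ u : ℝ, 0 < u → Lc f =
      (((∑' n : ℕ, ar f n / n * Real.exp (-2 * π * n * u)) +
        ep N f * ∑' n : ℕ, ar f n / n * Real.exp (-2 * π * n / (N * u)) : ℝ) : ℂ) :=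
    fun f hf u hu => by
    rw [(af N f hN).2.2 _ u hu (ep_sl (mE f hf)), re f hf]
    simp only [ofReal_add, ofReal_mul, ofReal_tsum, ofReal_div, ofReal_natCast]
  have lr : ∀ f ∈ E, Lc f = ((Lc f).re : ℝ) := fun f hf => by
    rw [lc f hf 1 one_pos, ofReal_re]
  have be : ∀ G : ℍ → ℂ, Measurable G → IP N G G →
      ∑ f ∈ E, ‖ip N f G‖ ^ 2 / (ip N f f).re ≤ (ip N G G).re := fun G h1 h2 =>
    bes N (CF N) E (fun f => f) G hN h1 h2 fun f hf =>
      have k := (cu N hN).1 f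
      ⟨k.2.2.1, ipf kit et de hN k.2.2.1 k.2.2.2.1, (e1 f hf).1, (e1 f hf).2.2.1⟩
  have π0 := Real.pi_pos
  refine ⟨⟨E.card, fun i => om N (φ i), fun i => ar (φ i), fun i => ep N (φ i),
    fun i => (Lc (φ i)).re⟩, ⟨fun i => ?_, fun i => ep_sgn _ _, fun i => ?_, fun i => ?_,
      fun i m n h1 h2 h3 => ?_, fun i n => ?_, fun i => ?_, fun i u hu => ?_, fun n hn => ?_,
      fun K b h1 h2 => ?_, fun i => ?_⟩, fun U hU ι J n x h1 h2 => ?_, ?_, ?_⟩
  · have := (e1 _ (φE i)).1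
    exact one_div_pos.2 (by positivity)
  · exact congrArg Complex.re (mE _ (φE i)).1
  · exact congrArg Complex.re (qx N (φ i)).1
  · have := (e1 _ (φE i)).2.2.2.2 m n h1 h2 h3
    rw [re _ (φE i)] at this
    simp only [Bh] at this ⊢
    exact_mod_cast this
  · have := (hq N (φ i) hN).2 _ (tw _ (φE i)) n
    rw [tw _ (φE i), cw _ (φE i), re _ (φE i), neg_mul, neg_neg, ← ofReal_mul] at this
    exact ofReal_injective this
  · obtain ⟨D, hD⟩ := (qx N (φ i)).2.1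
    exact ⟨D, fun n => (abs_re_le_norm _).trans (hD n)⟩
  · exact (congrArg Complex.re (lc _ (φE i) u hu)).trans (ofReal_re _)
  · obtain ⟨P, Q, p1, -, p3, -, -, p6⟩ := hP N hN
    have w : ∀ g ∈ E, ip N P g / ip N g g = om N g := fun g hg => by
      rw [ip_conj N g P, p1, pee N g hN, (mE g hg).1, ip_self N g, om]
      simp only [map_div₀, map_mul, map_one, conj_ofReal, map_ofNat]
      push_cast
      rw [div_div]
    have q1 : co P n = ((∑ i, om N (φ i) * ar (φ i) n : ℝ) : ℂ) := by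
      rw [hs fun g => om N g * ar g n, (e2 P n).1]
      push_cast
      exact Finset.sum_congr rfl fun g hg => by rw [w g hg, re g hg]
    have q2 : co Q n = -((∑ i, om N (φ i) * ep N (φ i) * ar (φ i) n : ℝ) : ℂ) := by
      rw [hs fun g => om N g * ep N g * ar g n, (e2 P n).2 Q p3]
      push_cast
      rw [← Finset.sum_neg_distrib]
      exact Finset.sum_congr rfl fun g hg => by rw [w g hg, cw g hg]; ring
    have q3 : ‖co P n - if n = 1 then 1 else 0‖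
        = |∑ i, om N (φ i) * ar (φ i) n - if n = 1 then 1 else 0| := by
      rw [q1, ← Real.norm_eq_abs, ← norm_real]
      split_ifs <;> simp
    have q4 : ‖co Q n‖ = |∑ i, om N (φ i) * ep N (φ i) * ar (φ i) n| := by
      rw [q2, norm_neg, norm_real, Real.norm_eq_abs]
    obtain ⟨r1, r2, r3, r4⟩ := p6 n hn
    rw [q3] at r1 r3
    rw [q4] at r2 r4
    have c : C₁ ≤ C₁ + C₂ := by linarith
    exact ⟨r1.trans (by gcongr), r2.trans (by gcongr), r3.trans (by gcongr), r4.trans (by gcongr)⟩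
  · obtain ⟨G, g1, g2, g3, g4⟩ := hL N K b hN h1 h2
    refine le_trans ?_ (((be G g1 g2).trans g3).trans (by gcongr; linarith))
    rw [← hs fun f => ‖ip N f G‖ ^ 2 / (ip N f f).re]
    refine Finset.sum_le_sum fun i _ => ?_
    have r := (e1 _ (φE i)).1
    have : ip N (φ i) G = ((∑ k ∈ Ico K (2 * K), b k * ar (φ i) (k ^ 2) / k : ℝ) : ℂ) := by
      rw [g4, re _ (φE i)]
      push_cast
      rfl
    rw [this, norm_real, Real.norm_eq_abs, sq_abs]
    simp only [om]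
    rw [div_mul_eq_mul_div, one_mul]
    gcongr
    nlinarith [Real.pi_gt_three]
  · have r := (e1 _ (φE i)).1
    have := ((rs N (φ i) _ hN (tw _ (φE i))).2).div_const (ip N (φ i) (φ i)).re
    rw [div_self r.ne'] at this
    refine (congrArg (HasSum · (1 : ℝ)) (funext fun n => ?_)).mp this
    rw [tw _ (φE i), cw _ (φE i), re _ (φE i)]
    have s : ‖(ep N (φ i) : ℂ)‖ = 1 := by
      rcases ep_sgn N (φ i) with h | h <;> simp [h]
    simp only [norm_mul, norm_neg, s, one_mul, norm_real, Real.norm_eq_abs, sq_abs, om, kap]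
    by_cases n0 : n = 0
    · have : ar (φ i) 0 = 0 := congrArg Complex.re (qx N (φ i)).1
      simp [n0, this]
    · have : (n : ℝ) ≠ 0 := by exact_mod_cast n0
      field_simp
  · obtain ⟨G, g1, g2, g3, g4⟩ := hc U hU N ι J n x hN h1 h2
    have c0 : 0 < c1 U := by
      have := (ph U hU).2.1
      have : 2 / U ≤ 2 := div_le_self zero_le_two hU
      linarith [Real.pi_gt_three]
    have k := be G g1 g2
    rw [g3, ← hs fun f => ‖ip N f G‖ ^ 2 / (ip N f f).re] at k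
    refine le_trans (le_of_eq ?_) ((mul_le_mul_of_nonneg_left k
      (by positivity : 0 ≤ π / (4 * c1 U ^ 2))).trans (le_of_eq (by ring)))
    rw [Finset.mul_sum]
    refine Finset.sum_congr rfl fun i _ => ?_
    have r := (e1 _ (φE i)).1
    have : ip N (φ i) G
        = I * ((c1 U / π * ((Lc (φ i)).re * ∑ j ∈ J, x j * ar (φ i) (n j)) : ℝ) : ℂ) := by
      rw [g4 _ (mE _ (φE i)).1 (e1 _ (φE i)).2.2.2.1, re _ (φE i)]
      push_cast
      rw [← lr _ (φE i)]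
      ring
    rw [this, norm_mul, norm_I, one_mul, norm_real, Real.norm_eq_abs, sq_abs]
    simp only [om]
    field_simp
  · rw [← Set.ncard_coe_finset, ← Set.ncard_image_of_injective _ φi]
    congr 1
    ext f
    simp only [Hp, coe_filter, mem_univ, true_and, Set.mem_image, Set.mem_ofPred_eq, ep_one]
    refine ⟨fun h => ?_, ?_⟩
    · obtain ⟨i, rfl⟩ := φs f (by rw [← Finset.mem_coe, hE]; exact h.1)
      exact ⟨i, h.2, rfl⟩
    · rintro ⟨i, h, rfl⟩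
      exact ⟨mE _ (φE i), h⟩
  · rw [← Set.ncard_coe_finset, ← Set.ncard_image_of_injective _ φi]
    congr 1
    ext f
    simp only [Hn, Hp, coe_filter, mem_univ, true_and, Set.mem_image, Set.mem_ofPred_eq, ep_one]
    refine ⟨fun h => ?_, ?_⟩
    · obtain ⟨i, rfl⟩ := φs f (by rw [← Finset.mem_coe, hE]; exact h.1.1)
      exact ⟨i, ⟨h.1.2, fun e => h.2 (by rw [lr _ (φE i), e, ofReal_zero])⟩, rfl⟩
    · rintro ⟨i, h, rfl⟩
      exact ⟨⟨mE _ (φE i), h.1⟩, fun e => h.2 (by rw [e, zero_re])⟩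

end Pool.Agent.MP_20b2fd_nt.H96
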