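import Pool.Agent.MP_20b2fd_nt.H38.AllA
import Pool.Agent.MP_20b2fd_nt.H38.SpecX
import Pool.Agent.MP_20b2fd_nt.H96.Thr
import Pool.Agent.MP_20b2fd_nt.H96.A1
import Pool.Agent.MP_20b2fd_nt.H96.Ray
import Pool.Agent.MP_20b2fd_nt.H96.Fo
import Pool.Agent.MP_20b2fd_nt.H96.Po
import Pool.Agent.MP_20b2fd_nt.H96.Jr
import Pool.Agent.MP_20b2fd_nt.H96.Sr
import Pool.Agent.MP_20b2fd_nt.H96.C0
import Pool.Agent.MP_20b2fd_nt.H96.K1
import Pool.Agent.MP_20b2fd_nt.H96.Ku

/-! The archimedean rows put together. -/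

set_option autoImplicit false

namespace Pool.Agent.MP_20b2fd_nt.H96.All

open Pool.Agent.MP_20b2fd_nt.H38
open scoped Real

theorem ray : RayS := rayOf kit All.ph
theorem po : PoS := poOf kit foS
theorem c0 : C0S := c0Of All.ph a1S (jrOf kit All.ph po) (srOf kit All.ph po ray)
theorem k1 : K1S := k1Of kit All.ph ray
theorem klim : KlimS := klimOf kit All.ph All.xg k1 (k2Of kit k3S)
theorem ku : KuS := kuOf kit All.ph All.xg k1

theorem a1_near {U : ℝ} (hU : 1 ≤ U) : |a1 U - π| ≤ 2 / U := by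
  obtain ⟨-, -, h1, -, h2, -⟩ := All.ph U hU
  have := a1S U hU
  have : 0 ≤ 2 / U := by positivity
  exact abs_le.2 ⟨by linarith, by linarith⟩

theorem c1_near {U : ℝ} (hU : 1 ≤ U) : |c1 U - π| ≤ 2 / U := by
  obtain ⟨-, h0, h1, -⟩ := All.ph U hU
  have : 0 ≤ 2 / U := by positivity
  exact abs_le.2 ⟨by linarith, by linarith⟩

theorem aut2 : Aut2S := by
  obtain ⟨B, hB, h⟩ := c0
  obtain ⟨C, c₀, h1, h2, h3⟩ := autP
    (Q := fun U c => |c + 2 * π * Real.log (2 * π)| ≤ 2 * B * U ^ (-1 / 5 : ℝ))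
    kit All.eta All.dec All.qx All.cusp All.hq All.rs All.eig (besOf kit All.eta) All.af All.pd
    All.pe All.lsA All.ph (xfP hb All.ph All.xa All.xb All.xi
      (xdOf kit All.eta All.unf All.dec All.adj hb All.ph All.xa All.xt All.xb)
      (xeP (fun U c hU hc => by
        have e := h U c hU hc
        have : 1 / √U ≤ U ^ (-1 / 5 : ℝ) := by
          rw [Real.sqrt_eq_rpow, one_div, ← Real.rpow_neg (by linarith)]
          exact Real.rpow_le_rpow_of_exponent_le hU (by norm_num)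
        rw [show 2 * c.re + 2 * π * Real.log (2 * π) = 2 * (c.re + π * Real.log (2 * π)) by ring,
          abs_mul, abs_two, mul_assoc]
        refine mul_le_mul_of_nonneg_left (e.trans ?_) zero_le_two
        rw [div_eq_mul_one_div]
        exact mul_le_mul_of_nonneg_left this (by linarith))
        kit All.dec All.ph All.xa All.xs All.xg))
  exact ⟨C, c₀, h1, ⟨2 * B, by linarith, h2⟩, h3⟩

end Pool.Agent.MP_20b2fd_nt.H96.All
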