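import Pool.Agent.MP_20b2fd_nt.H96.SpecB

/-! Row Be: two Beta integrals. -/

set_option autoImplicit false

namespace Pool.Agent.MP_20b2fd_nt.H96

open MeasureTheory Complex Set Filter Asymptotics
open scoped Real Topology

namespace BeB

theorem ind (g : ℝ → ℂ) (a : ℂ) : (fun t : ℝ => (t : ℂ) ^ (a - 1) • (Ioo (0 : ℝ) 1).indicator g t) =
    (Ioo (0 : ℝ) 1).indicator fun t : ℝ => (t : ℂ) ^ (a - 1) * g t := by
  funext t
  by_cases h : t ∈ Ioo (0 : ℝ) 1 <;> simp [h]

theorem val (g : ℝ → ℂ) (a : ℂ) :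
    mellin ((Ioo (0 : ℝ) 1).indicator g) a = ∫ t in Ioo (0 : ℝ) 1, (t : ℂ) ^ (a - 1) * g t := by
  rw [mellin, ind, setIntegral_indicator measurableSet_Ioo,
    inter_eq_right.2 Ioo_subset_Ioi_self]

theorem cv {g : ℝ → ℂ} {a : ℂ} (h : MellinConvergent ((Ioo (0 : ℝ) 1).indicator g) a) :
    IntegrableOn (fun t : ℝ => (t : ℂ) ^ (a - 1) * g t) (Ioo 0 1) := by
  rw [MellinConvergent, ind] at h
  exact (h.mono_set Ioo_subset_Ioi_self).congr_fun (fun t ht => indicator_of_mem ht _)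
    measurableSet_Ioo

end BeB

open BeB

theorem beS : BeS := by
  intro u h0 h1
  have hv : 0 < (1 - u).re := by simpa using h1
  have e : 1 - u - 1 = -u := by ring
  have hI : ∀ a : ℂ, 0 < a.re →
      IntegrableOn (fun y : ℝ => (y : ℂ) ^ (a - 1) * (1 - y : ℂ) ^ (-u)) (Ioo 0 1) := fun a ha => by
    have := betaIntegral_convergent ha hv
    rwa [e, intervalIntegrable_iff_integrableOn_Ioo_of_le zero_le_one] at this
  have hV : ∀ a : ℂ, 0 < a.re → ∫ y in Ioo (0 : ℝ) 1, (y : ℂ) ^ (a - 1) * (1 - y : ℂ) ^ (-u) =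
      Gamma a * Gamma (1 - u) / Gamma (a + (1 - u)) := fun a ha => by
    rw [← betaIntegral_eq_Gamma_mul_div a _ ha hv, betaIntegral, e,
      intervalIntegral.integral_of_le zero_le_one, integral_Ioc_eq_integral_Ioo]
  have hf : Integrable ((Ioo (0 : ℝ) 1).indicator fun y : ℝ => (1 - y : ℂ) ^ (-u)) := by
    rw [integrable_indicator_iff measurableSet_Ioo]
    simpa using hI 1 (by simp)
  have ht : ((Ioo (0 : ℝ) 1).indicator fun y : ℝ => (1 - y : ℂ) ^ (-u)) =O[atTop]
      (· ^ (-1 : ℝ)) := by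
    refine (isBigO_zero _ _).congr' ?_ EventuallyEq.rfl
    filter_upwards [eventually_ge_atTop 1] with t h
    exact (indicator_of_notMem (fun k => k.2.not_ge h) _).symm
  have hb : ((Ioo (0 : ℝ) 1).indicator fun y : ℝ => (1 - y : ℂ) ^ (-u)) =O[𝓝[>] 0]
      (· ^ (-0 : ℝ)) := by
    have hc : ContinuousAt (fun y : ℝ => (1 - y : ℂ) ^ (-u)) 0 :=
      ContinuousAt.cpow (by fun_prop) continuousAt_const (by simp)
    refine ((hc.tendsto.isBigO_one ℝ).mono nhdsWithin_le_nhds).congr' ?_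
      (Eventually.of_forall fun t => by simp)
    filter_upwards [Ioo_mem_nhdsGT zero_lt_one] with t h
    rw [indicator_of_mem h]
  obtain ⟨c1, c2⟩ := mellin_hasDerivAt_of_isBigO_rpow (hf.locallyIntegrable.locallyIntegrableOn _)
    ht h1 hb h0
  have e2 : (fun t : ℝ => Real.log t • (Ioo (0 : ℝ) 1).indicator
      (fun y : ℝ => (1 - y : ℂ) ^ (-u)) t) =
      (Ioo (0 : ℝ) 1).indicator fun y : ℝ => (1 - y : ℂ) ^ (-u) * Real.log y := by
    funext t
    by_cases h : t ∈ Ioo (0 : ℝ) 1 <;> simp [h, mul_comm]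
  rw [e2] at c1 c2
  have g1 : u + (1 - u) = 1 := by ring
  have d1 : HasDerivAt Gamma (deriv Gamma u) u :=
    (differentiableAt_Gamma u fun m hm => by
      rw [hm, neg_re, natCast_re] at h0
      exact h0.not_ge (neg_nonpos.2 m.cast_nonneg)).hasDerivAt
  have d2 : HasDerivAt (fun a => Gamma (a + (1 - u))) (-Real.eulerMascheroniConstant) u :=
    HasDerivAt.comp_add_const u (1 - u) (g1.symm ▸ hasDerivAt_Gamma_one)
  have d3 := (d1.mul_const (Gamma (1 - u))).div d2 (by rw [g1, Gamma_one]; exact one_ne_zero)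
  have d4 := c2.unique (d3.congr_of_eventuallyEq (by
    filter_upwards [(isOpen_lt continuous_const continuous_re).mem_nhds h0] with a ha
    rw [val, hV a ha]
    rfl))
  refine ⟨hI u h0, by simpa only [mul_assoc] using cv c1, ?_, ?_⟩
  · rw [hV u h0, g1, Gamma_one, div_one, Gamma_mul_Gamma_one_sub]
  · simp only [mul_assoc]
    rw [← val, d4, g1, Gamma_one, Gamma_mul_Gamma_one_sub]
    ring

end Pool.Agent.MP_20b2fd_nt.H96
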