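import Pool.Agent.MP_20b2fd_nt.H96.KB
import Pool.Agent.MP_20b2fd_nt.H96.Klim

/-! The Mellin transform of the kernel tends to that of the limit kernel. -/

set_option autoImplicit false

namespace Pool.Agent.MP_20b2fd_nt.H96

open MeasureTheory Complex Set Filter Topology Pool.Agent.MP_20b2fd_nt.H38
open scoped Real

namespace KMK

theorem m_lg : Measurable lg := by
  unfold lg
  fun_prop

theorem m_chi (η : ℝ) : Measurable (chi0 η) := by
  unfold chi0
  refine Measurable.ite (measurableSet_singleton _) measurable_const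
    (Real.smoothTransition.continuous.measurable.comp (by fun_prop))

theorem chi_mem (η t : ℝ) : 0 ≤ chi0 η t ∧ chi0 η t ≤ 1 := by
  unfold chi0
  split_ifs
  · exact ⟨le_rfl, zero_le_one⟩
  · exact ⟨Real.smoothTransition.nonneg _, Real.smoothTransition.le_one _⟩

theorem chi_one {η t : ℝ} (h0 : 0 < η) (h1 : η < 1) (h : η ≤ |1 + t|) : chi0 η t = 1 := by
  have ht : t ≠ -1 := fun e => by simp [e] at h; linarith
  have l0 : Real.log η < 0 := Real.log_neg h0 h1
  rw [chi0, if_neg ht]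
  refine Real.smoothTransition.one_of_one_le ?_
  have : Real.log |1 + t| / Real.log η ≤ 1 := by
    rw [div_le_one_of_neg l0]
    exact Real.log_le_log h0 h
  linarith

theorem m_Kf (hK : KerS) {U : ℝ} (hU : 1 ≤ U) : Measurable (Kf U) := by
  obtain ⟨C, A, -, h⟩ := hK
  obtain ⟨D, d0, d1, -⟩ := h U hU
  refine ContinuousOn.measurable_of_countable_compl (s := ({0, -1} : Set ℝ)ᶜ) (fun t ht => ?_)
    (by simp)
  simp only [mem_compl_iff, mem_insert_iff, mem_singleton_iff, not_or] at ht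
  exact d0 ▸ (d1 0 t ht.1 ht.2).continuousAt.continuousWithinAt

theorem core (hM : MwS) {η s τ a b : ℝ} {K φ : ℝ → ℝ} (mK : Measurable K) (mφ : Measurable φ)
    (hφ : ∀ t, |φ t| ≤ 1 + |lg t|) (h0 : 0 < η) (h1 : η < 1) (hs : |s| = 1)
    (i1 : Integrable fun t => |t| ^ (-1 / 2 : ℝ) * (|K t - π * lg t| * (1 + |lg t|)))
    (e1 : ∫ t, |t| ^ (-1 / 2 : ℝ) * (|K t - π * lg t| * (1 + |lg t|)) ≤ a)
    (i2 : Integrable fun t => |t| ^ (-1 / 2 : ℝ) * (|lg t| * (1 + |lg t|)))
    (e2 : ∫ t in {t : ℝ | |1 + t| ≤ η}, |t| ^ (-1 / 2 : ℝ) * (|lg t| * (1 + |lg t|)) ≤ b) :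
    ‖mel (fun t => kc1 η K t * φ t) s (1 / 2 + τ * I) -
      mel (fun t => π * lg t * φ t) s (1 / 2 + τ * I)‖ ≤ a + π * b := by
  have mw : Measurable fun t : ℝ => |t| ^ (-1 / 2 : ℝ) := by fun_prop
  have w0 : ∀ t : ℝ, 0 ≤ |t| ^ (-1 / 2 : ℝ) := fun t => by positivity
  have ms : MeasurableSet {t : ℝ | |1 + t| ≤ η} := measurableSet_le (by fun_prop) measurable_const
  have i3 := i1.add (((integrable_indicator_iff ms).2 i2.integrableOn).const_mul π)
  have b1 : ∀ t, |t| ^ (-1 / 2 : ℝ) * |kc1 η K t * φ t - π * lg t * φ t| ≤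
      |t| ^ (-1 / 2 : ℝ) * (|K t - π * lg t| * (1 + |lg t|)) + π * {t : ℝ | |1 + t| ≤ η}.indicator
        (fun t => |t| ^ (-1 / 2 : ℝ) * (|lg t| * (1 + |lg t|))) t := fun t => by
    obtain ⟨c0, c1⟩ := chi_mem η t
    rw [← sub_mul, abs_mul]
    by_cases h : |1 + t| ≤ η
    · rw [indicator_of_mem (by exact h), mul_left_comm π, ← mul_add, ← mul_assoc π, ← add_mul]
      refine mul_le_mul_of_nonneg_left (mul_le_mul ?_ (hφ t) (abs_nonneg _) (by positivity)) (w0 t)
      rw [kc1, show K t * chi0 η t - π * lg t =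
        (K t - π * lg t) * chi0 η t - π * lg t * (1 - chi0 η t) by ring]
      refine (abs_sub _ _).trans (add_le_add ?_ ?_)
      · rw [abs_mul, abs_of_nonneg c0]
        exact mul_le_of_le_one_right (abs_nonneg _) c1
      · rw [abs_mul, abs_mul, abs_of_nonneg Real.pi_pos.le, abs_of_nonneg (sub_nonneg.2 c1)]
        exact mul_le_of_le_one_right (by positivity) (by linarith)
    · rw [indicator_of_notMem (by exact h), mul_zero, add_zero, kc1,
        chi_one h0 h1 (not_le.1 h).le, mul_one]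
      exact mul_le_mul_of_nonneg_left (mul_le_mul_of_nonneg_left (hφ t) (abs_nonneg _)) (w0 t)
  have md : Measurable fun t => kc1 η K t * φ t - π * lg t * φ t :=
    ((mK.mul (m_chi η)).mul mφ).sub ((m_lg.const_mul π).mul mφ)
  have j1 : Integrable fun t => |t| ^ (-1 / 2 : ℝ) * (kc1 η K t * φ t - π * lg t * φ t) :=
    i3.mono' (mw.mul md).aestronglyMeasurable (.of_forall fun t => by
      rw [Real.norm_eq_abs, abs_mul, abs_of_nonneg (w0 t)]
      exact b1 t)
  have j2 : Integrable fun t => |t| ^ (-1 / 2 : ℝ) * (π * lg t * φ t) :=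
    (i2.const_mul π).mono' (mw.mul ((m_lg.const_mul π).mul mφ)).aestronglyMeasurable
      (.of_forall fun t => by
        rw [Real.norm_eq_abs, abs_mul, abs_of_nonneg (w0 t), abs_mul, abs_mul,
          abs_of_nonneg Real.pi_pos.le, mul_left_comm π, ← mul_assoc π]
        exact mul_le_mul_of_nonneg_left (mul_le_mul_of_nonneg_left (hφ t) (by positivity)) (w0 t))
  obtain ⟨q1, q2⟩ := hM _ s τ hs j1
  obtain ⟨q3, -⟩ := hM _ s τ hs j2
  have e : mel (fun t => kc1 η K t * φ t) s (1 / 2 + τ * I) =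
      mellin (fun x => (((kc1 η K (-x) * φ (-x) - π * lg (-x) * φ (-x)) +
        s * (kc1 η K x * φ x - π * lg x * φ x) : ℝ) : ℂ)) (1 / 2 + τ * I) +
      mel (fun t => π * lg t * φ t) s (1 / 2 + τ * I) := by
    refine Eq.trans ?_ (integral_add q1 q3)
    refine setIntegral_congr_fun measurableSet_Ioi fun x _ => ?_
    simp only [fe, smul_eq_mul]
    push_cast
    ring
  rw [e, add_sub_cancel_right]
  refine q2.trans ((integral_mono_of_nonneg (.of_forall fun t => mul_nonneg (w0 t) (abs_nonneg _))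
    i3 (.of_forall b1)).trans ?_)
  rw [integral_add' i1 (((integrable_indicator_iff ms).2 i2.integrableOn).const_mul π),
    integral_const_mul, integral_indicator ms]
  exact add_le_add e1 (mul_le_mul_of_nonneg_left e2 Real.pi_pos.le)

end KMK

def KMS : Prop :=
  ∃ C : ℝ, 1 ≤ C ∧ ∀ U η s τ : ℝ, 1 ≤ U → 0 < η → η ≤ 1 / 10 → s = 1 ∨ s = -1 →
    ‖mel (kc1 η (Kf U)) s (1 / 2 + τ * I) - mel (fun t => π * lg t) s (1 / 2 + τ * I)‖ ≤
      C * (U ^ (-1 / 5 : ℝ) + √η) ∧
    ‖mel (fun t => kc1 η (Kf U) t * lg t) s (1 / 2 + τ * I) -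
      mel (fun t => π * lg t ^ 2) s (1 / 2 + τ * I)‖ ≤ C * (U ^ (-1 / 5 : ℝ) + √η)

open KMK in
theorem kmOf (hM : MwS) (hW : WlS) (hK : KerS) (hL : KlimS) : KMS := by
  obtain ⟨C, C1, w1, w2⟩ := hW
  obtain ⟨A, A1, hA⟩ := hL (1 / 4) (by norm_num) (by norm_num)
  obtain ⟨B, B1, hB⟩ := hL (3 / 4) (by norm_num) (by norm_num)
  have π4 := Real.pi_le_four
  have π0 := Real.pi_pos
  refine ⟨C * (A + B + 4), one_le_mul_of_one_le_of_one_le C1 (by linarith),
    fun U η s τ hU h0 h1 hs => ?_⟩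
  have s1 : |s| = 1 := by rcases hs with h | h <;> simp [h]
  have u0 : 0 ≤ U ^ (-1 / 5 : ℝ) := by positivity
  have n1 : (-(1 / 4) : ℝ) = -1 / 4 := by norm_num
  have n3 : (-(3 / 4) : ℝ) = -3 / 4 := by norm_num
  obtain ⟨i1, e1⟩ := w1 (fun t => Kf U t - π * lg t) ((A + B) * U ^ (-1 / 5 : ℝ))
    ((m_Kf hK hU).sub (m_lg.const_mul π)).aestronglyMeasurable (by positivity) fun t ht ht' => by
      have a := hA U t hU ht ht'
      have b := hB U t hU ht ht'
      rw [n1] at a
      rw [n3] at b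
      exact ⟨a.trans (mul_le_mul_of_nonneg_right (mul_le_mul (by linarith)
          (Real.rpow_le_rpow_of_exponent_le hU (by norm_num)) (by positivity) (by positivity))
          (by positivity)),
        b.trans (mul_le_mul_of_nonneg_right (mul_le_mul (by linarith)
          (Real.rpow_le_rpow_of_exponent_le hU (by norm_num)) (by positivity) (by positivity))
          (by positivity))⟩
  obtain ⟨i2, -⟩ := w1 lg 5 m_lg.aestronglyMeasurable (by norm_num) fun t ht ht' => by
    have a := KlimK.lgb (θ := 1 / 4) (by norm_num) (by norm_num) ht ht'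
    have b := KlimK.lgb (θ := 3 / 4) (by norm_num) (by norm_num) ht ht'
    rw [n1] at a
    rw [n3] at b
    exact ⟨a.trans (mul_le_mul_of_nonneg_right (by norm_num) (by positivity)),
      b.trans (mul_le_mul_of_nonneg_right (by norm_num) (by positivity))⟩
  have e2 := w2 η h0 h1
  have fin : C * ((A + B) * U ^ (-1 / 5 : ℝ)) + π * (C * √η) ≤
      C * (A + B + 4) * (U ^ (-1 / 5 : ℝ) + √η) := by
    have r0 : 0 ≤ √η := Real.sqrt_nonneg _
    have : (A + B) * U ^ (-1 / 5 : ℝ) + π * √η ≤ (A + B + 4) * (U ^ (-1 / 5 : ℝ) + √η) := by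
      nlinarith
    nlinarith [mul_le_mul_of_nonneg_left this (zero_le_one.trans C1)]
  have k1 := core hM (τ := τ) (φ := fun _ => 1) (m_Kf hK hU) measurable_const
    (fun t => by simp) h0 (by linarith) s1 i1 e1 i2 e2
  have k2 := core hM (τ := τ) (m_Kf hK hU) m_lg (fun t => by linarith) h0 (by linarith) s1
    i1 e1 i2 e2
  simp only [mul_one] at k1
  simp only [mul_assoc, ← sq] at k2
  exact ⟨k1.trans fin, k2.trans (le_of_eq_of_le (by ring) fin)⟩

end Pool.Agent.MP_20b2fd_nt.H96
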