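import Pool.Agent.MP_20b2fd_nt.H96.SpecB

/-! Mellin transforms on the central line are bounded by a weighted norm. -/

set_option autoImplicit false

namespace Pool.Agent.MP_20b2fd_nt.H96

open MeasureTheory Complex Set

theorem mwS : MwS := by
  intro k s τ hs hk
  set g : ℝ → ℝ := fun t => |t| ^ (-1 / 2 : ℝ) * k t with hg
  have e : ∀ x ∈ Ioi (0 : ℝ), (x : ℂ) ^ (1 / 2 + τ * I - 1) • ((k (-x) + s * k x : ℝ) : ℂ) =
      (x : ℂ) ^ (τ * I) * ((g (-x) + s * g x : ℝ) : ℂ) := fun x hx => by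
    have hx' : (0 : ℝ) < x := hx
    rw [show 1 / 2 + τ * I - 1 = τ * I + ((-1 / 2 : ℝ) : ℂ) by push_cast; ring,
      cpow_add _ _ (ofReal_ne_zero.2 hx'.ne'), ← ofReal_cpow hx'.le, hg]
    simp only [abs_neg, abs_of_pos hx', smul_eq_mul]
    push_cast
    ring
  have n : ∀ x ∈ Ioi (0 : ℝ), ‖(x : ℂ) ^ (τ * I)‖ = 1 := fun x hx => by
    rw [norm_cpow_eq_rpow_re_of_pos hx]
    simp
  have i1 : IntegrableOn (fun x => g (-x)) (Ioi 0) := hk.comp_neg.integrableOn
  have i2 : IntegrableOn g (Ioi 0) := hk.integrableOn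
  refine ⟨(integrableOn_congr_fun e measurableSet_Ioi).2 <| (i1.add (i2.const_mul s)).ofReal.bdd_mul
    (c := 1) (measurable_ofReal.pow_const _).aestronglyMeasurable
    (ae_restrict_of_forall_mem measurableSet_Ioi fun x hx => (n x hx).le), ?_⟩
  rw [mellin, setIntegral_congr_fun measurableSet_Ioi e]
  refine (norm_integral_le_of_norm_le (i1.abs.add i2.abs)
    (ae_restrict_of_forall_mem measurableSet_Ioi fun x hx => ?_)).trans_eq ?_
  · rw [norm_mul, n x hx, one_mul, norm_real]
    exact (abs_add_le _ _).trans_eq (by rw [abs_mul s, hs, one_mul]; rfl)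
  · rw [integral_add' i1.abs i2.abs, integral_comp_neg_Ioi 0 fun x => |g x|, neg_zero,
      intervalIntegral.integral_Iic_add_Ioi hk.abs.integrableOn i2.abs]
    refine integral_congr_ae (.of_forall fun x => ?_)
    simp only [hg]
    rw [abs_mul, abs_of_nonneg (by positivity)]

end Pool.Agent.MP_20b2fd_nt.H96
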