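import Pool.Agent.MP_20b2fd_nt.H96.SpecB

/-! The Mellin transforms of the powers of the logarithm on the positive axis. -/

set_option autoImplicit false

namespace Pool.Agent.MP_20b2fd_nt.H96

open MeasureTheory Complex Set Filter Topology Asymptotics
open scoped Real

namespace PmB

theorem bd {c : ℝ} (h0 : 0 < c) (h1 : c ≤ 1) (k : ℕ) :
    ∃ C : ℝ, ∀ x : ℝ, 0 < x → ‖lgp x ^ (k + 1)‖ ≤ C * x ^ (-c) := by
  have hk : (1 : ℝ) ≤ (k + 1 : ℕ) := by exact_mod_cast Nat.succ_pos k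
  obtain ⟨e, he⟩ : ∃ e : ℝ, e = c / (k + 1 : ℕ) := ⟨_, rfl⟩
  have e0 : 0 < e := by rw [he]; positivity
  have e1 : e ≤ 1 := by rw [he, div_le_one (by linarith)]; linarith
  refine ⟨(1 / e) ^ (k + 1), fun x hx => ?_⟩
  have hv : 0 < 1 / x := by positivity
  have l0 : 0 ≤ Real.log (1 + 1 / x) := Real.log_nonneg (by linarith)
  have l1 : Real.log (1 + 1 / x) ≤ 1 / e * x ^ (-e) := by
    have a1 := Real.log_le_sub_one_of_pos (Real.rpow_pos_of_pos (by linarith : 0 < 1 + 1 / x) e)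
    have a2 := Real.rpow_add_le_add_rpow zero_le_one hv.le e0.le e1
    rw [Real.log_rpow (by linarith)] at a1
    rw [Real.one_rpow, one_div x, Real.inv_rpow hx.le, ← Real.rpow_neg hx.le, ← one_div x] at a2
    rw [one_div e, ← div_eq_inv_mul, le_div_iff₀' e0]
    linarith
  rw [norm_pow, lgp, Complex.norm_real, Real.norm_of_nonneg l0,
    show x ^ (-c) = (x ^ (-e)) ^ (k + 1) by
      rw [← Real.rpow_natCast, ← Real.rpow_mul hx.le, he, neg_mul, div_mul_cancel₀ _ (by linarith)],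
    ← mul_pow]
  exact pow_le_pow_left₀ l0 l1 _

theorem der {x : ℝ} (hx : 0 < x) : HasDerivAt lgp (-(1 / (x * (1 + x)) : ℂ)) x := by
  have h := (((hasDerivAt_inv hx.ne').const_add 1).log (by positivity)).ofReal_comp
  simp only [← one_div] at h
  refine h.congr_deriv ?_
  have h1 : (x : ℂ) ≠ 0 := by exact_mod_cast hx.ne'
  have h2 : (1 + x : ℂ) ≠ 0 := by exact_mod_cast (by linarith : 1 + x ≠ 0)
  have h3 : (x + 1 : ℂ) ≠ 0 := by rwa [add_comm]
  push_cast
  field_simp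
  ring

theorem conv {u : ℂ} (h0 : 0 < u.re) (h1 : u.re < 1) (k : ℕ) :
    MellinConvergent (fun x => lgp x ^ (k + 1)) u := by
  obtain ⟨C, hC⟩ := bd one_pos le_rfl k
  obtain ⟨C', hC'⟩ := bd (half_pos h0) (by linarith) k
  refine mellinConvergent_of_isBigO_rpow (a := 1) (b := u.re / 2)
    (ContinuousOn.locallyIntegrableOn (fun x hx => ((der hx).continuousAt.pow _).continuousWithinAt)
      measurableSet_Ioi) (IsBigO.of_bound C ?_) h1 (IsBigO.of_bound C' ?_) (by linarith)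
  · filter_upwards [Ioi_mem_atTop 0] with x hx
    rw [Real.norm_of_nonneg (Real.rpow_nonneg hx.le _)]
    exact hC x hx
  · filter_upwards [self_mem_nhdsWithin] with x hx
    rw [Real.norm_of_nonneg (Real.rpow_nonneg hx.le _)]
    exact hC' x hx

theorem parts {u : ℂ} (h0 : 0 < u.re) (h1 : u.re < 1) (k : ℕ)
    (hi : IntegrableOn (fun x : ℝ => (x : ℂ) ^ (u - 1) / (1 + x) * lgp x ^ k) (Ioi 0)) :
    u * mellin (fun x => lgp x ^ (k + 1)) u =
      (k + 1) * ∫ x in Ioi (0 : ℝ), (x : ℂ) ^ (u - 1) / (1 + x) * lgp x ^ k := by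
  have hu : u ≠ 0 := fun h => by simp [h] at h0
  have hm : IntegrableOn (fun x : ℝ => (x : ℂ) ^ (u - 1) * lgp x ^ (k + 1)) (Ioi 0) := conv h0 h1 k
  have nb : ∀ c C : ℝ, (∀ x : ℝ, 0 < x → ‖lgp x ^ (k + 1)‖ ≤ C * x ^ (-c)) → ∀ x : ℝ, 0 < x →
      ‖(x : ℂ) ^ u * lgp x ^ (k + 1)‖ ≤ C * x ^ (u.re - c) := fun c C h x hx => by
    rw [norm_mul, norm_cpow_eq_rpow_re_of_pos hx, sub_eq_add_neg, Real.rpow_add hx, mul_left_comm]
    exact mul_le_mul_of_nonneg_left (h x hx) (Real.rpow_nonneg hx.le _)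
  obtain ⟨C, hC⟩ := bd one_pos le_rfl k
  obtain ⟨C', hC'⟩ := bd (half_pos h0) (by linarith) k
  have key := integral_Ioi_of_hasDerivAt_of_tendsto (a := 0) (m := 0)
    (f := fun x : ℝ => (x : ℂ) ^ u * lgp x ^ (k + 1))
    (f' := fun x : ℝ => u * ((x : ℂ) ^ (u - 1) * lgp x ^ (k + 1)) -
      (k + 1) * ((x : ℂ) ^ (u - 1) / (1 + x) * lgp x ^ k)) ?_ (fun x hx => ?_)
    ((hm.const_mul u).sub (hi.const_mul _)) ?_
  · rw [integral_sub (hm.const_mul u) (hi.const_mul _), integral_const_mul, integral_const_mul,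
      ofReal_zero, zero_cpow hu, zero_mul, sub_zero, sub_eq_zero] at key
    exact key
  · rw [← continuousWithinAt_Ioi_iff_Ici, ContinuousWithinAt, ofReal_zero, zero_cpow hu, zero_mul]
    refine squeeze_zero_norm' (a := fun x : ℝ => C' * x ^ (u.re - u.re / 2)) ?_ ?_
    · filter_upwards [self_mem_nhdsWithin] with x hx using nb _ _ hC' x hx
    · have h := ((Real.continuousAt_rpow_const 0 (u.re - u.re / 2)
        (Or.inr (by linarith))).tendsto.const_mul C').mono_left (nhdsWithin_le_nhds (s := Ioi 0))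
      rwa [Real.zero_rpow (by linarith), mul_zero] at h
  · have hx' : (0 : ℝ) < x := hx
    refine ((hasDerivAt_ofReal_cpow_const hx'.ne' hu).mul ((der hx').pow (k + 1))).congr_deriv ?_
    have h1 : (x : ℂ) ≠ 0 := by exact_mod_cast hx'.ne'
    have h2 : (1 + x : ℂ) ≠ 0 := by exact_mod_cast (by linarith : 1 + x ≠ 0)
    rw [show (x : ℂ) ^ u = x ^ (u - 1) * x by rw [cpow_sub _ _ h1, cpow_one, div_mul_cancel₀ _ h1]]
    simp only [Pi.pow_apply, Nat.add_sub_cancel]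
    push_cast
    field_simp
    ring
  · refine squeeze_zero_norm' (a := fun x : ℝ => C * x ^ (u.re - 1)) ?_ ?_
    · filter_upwards [Ioi_mem_atTop 0] with x hx using nb _ _ hC x hx
    · have h := (tendsto_rpow_neg_atTop (sub_pos.2 h1)).const_mul C
      rwa [mul_zero, neg_sub] at h

theorem img : (fun y : ℝ => y / (1 - y)) '' Ioo 0 1 = Ioi 0 := by
  ext x
  constructor
  · rintro ⟨y, hy, rfl⟩
    exact div_pos hy.1 (sub_pos.2 hy.2)
  · intro hx
    have hx' : (0 : ℝ) < x := hx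
    refine ⟨x / (1 + x), ⟨by positivity, (div_lt_one (by linarith)).2 (by linarith)⟩, ?_⟩
    field_simp
    ring

theorem dphi : ∀ y ∈ Ioo (0 : ℝ) 1,
    HasDerivWithinAt (fun y : ℝ => y / (1 - y)) (1 / (1 - y) ^ 2) (Ioo 0 1) y := fun y hy =>
  (((hasDerivAt_id y).div ((hasDerivAt_id y).const_sub 1) (sub_pos.2 hy.2).ne').congr_deriv
    (by simp)).hasDerivWithinAt

theorem inj : InjOn (fun y : ℝ => y / (1 - y)) (Ioo 0 1) := fun a ha b hb h => by
  have := (div_eq_div_iff (sub_pos.2 ha.2).ne' (sub_pos.2 hb.2).ne').1 h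
  linarith

theorem sub (u : ℂ) (k : ℕ) {y : ℝ} (hy : y ∈ Ioo (0 : ℝ) 1) :
    |1 / (1 - y) ^ 2| • (((y / (1 - y) : ℝ) : ℂ) ^ (u - 1) / (1 + (y / (1 - y) : ℝ)) *
      lgp (y / (1 - y)) ^ k) = (y : ℂ) ^ (u - 1) * (1 - y : ℂ) ^ (-u) * (-Real.log y) ^ k := by
  have h0 := hy.1
  have h1 : 0 < 1 - y := sub_pos.2 hy.2
  have c1 : (1 - y : ℂ) ≠ 0 := by exact_mod_cast h1.ne'
  have e1 : lgp (y / (1 - y)) = -Real.log y := by
    rw [lgp, show 1 + 1 / (y / (1 - y)) = y⁻¹ by field_simp; ring, Real.log_inv, ofReal_neg]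
  have e2 : ((y / (1 - y) : ℝ) : ℂ) ^ (u - 1) = (y : ℂ) ^ (u - 1) * (1 - y : ℂ) ^ (-u) * (1 - y) := by
    rw [div_eq_mul_inv, ofReal_mul, mul_cpow_ofReal_nonneg h0.le (inv_nonneg.2 h1.le), ofReal_inv,
      inv_cpow _ _ (by rw [arg_ofReal_of_nonneg h1.le]; exact Real.pi_pos.ne), ← cpow_neg,
      show -(u - 1) = -u + 1 by ring, ofReal_sub, ofReal_one, cpow_add _ _ c1, cpow_one, mul_assoc]
  rw [e1, e2, abs_of_pos (by positivity), real_smul]
  push_cast
  rw [show (1 + y / (1 - y) : ℂ) = (1 - y : ℂ)⁻¹ by field_simp; ring]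
  field_simp

end PmB

open PmB in
theorem pmOf : PmOf := by
  intro be u h0 h1
  obtain ⟨i0, i1, v0, v1⟩ := be u h0 h1
  have hu : u ≠ 0 := fun h => by simp [h] at h0
  have tr : ∀ k : ℕ, IntegrableOn
      (fun y : ℝ => (y : ℂ) ^ (u - 1) * (1 - y : ℂ) ^ (-u) * (-Real.log y) ^ k) (Ioo 0 1) →
      u * mellin (fun x => lgp x ^ (k + 1)) u = (k + 1) *
        ∫ y in Ioo (0 : ℝ) 1, (y : ℂ) ^ (u - 1) * (1 - y : ℂ) ^ (-u) * (-Real.log y) ^ k := by
    intro k hk
    rw [parts h0 h1 k, ← img, integral_image_eq_integral_abs_deriv_smul measurableSet_Ioo dphi inj,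
      setIntegral_congr_fun measurableSet_Ioo fun y hy => sub u k hy]
    rw [← img, integrableOn_image_iff_integrableOn_abs_deriv_smul measurableSet_Ioo dphi inj]
    exact hk.congr_fun (fun y hy => (sub u k hy).symm) measurableSet_Ioo
  have t0 := tr 0 (by simpa using i0)
  have t1 := tr 1 (by simpa using i1.neg)
  simp only [zero_add, pow_one, pow_zero, mul_one, Nat.cast_zero, one_mul, v0] at t0
  simp only [pow_one, mul_neg, integral_neg, v1, Nat.cast_one] at t1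
  refine ⟨by simpa using conv h0 h1 0, conv h0 h1 1, mul_left_cancel₀ hu ?_,
    mul_left_cancel₀ hu (t1.trans ?_)⟩
  · rw [← mul_div_assoc, mul_div_mul_left _ _ hu]
    exact t0
  · field_simp
    ring

end Pool.Agent.MP_20b2fd_nt.H96
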