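import Pool.Agent.MP_20b2fd_nt.H96.SpecB

/-! The rotation of the ray in a Mellin transform. -/

set_option autoImplicit false

namespace Pool.Agent.MP_20b2fd_nt.H96

open MeasureTheory Complex Set Filter Topology
open scoped Real

namespace Ro1B

theorem shift (g : ℂ → ℂ) (θ c C : ℝ) (hc : 0 < c)
    (hd : ∀ w : ℂ, |w.im| ≤ |θ| → DifferentiableAt ℂ g w)
    (hb : ∀ r y : ℝ, |y| ≤ |θ| → ‖g (r + y * I)‖ ≤ C * Real.exp (c * r) ∧
      ‖g (r + y * I)‖ ≤ C * Real.exp (-c * r)) :
    ∫ r : ℝ, g (r + θ * I) = ∫ r : ℝ, g (r + (0 : ℝ) * I) := by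
  have hi : ∀ y : ℝ, |y| ≤ |θ| → Integrable fun r : ℝ => g (r + y * I) := fun y hy => by
    have hm : AEStronglyMeasurable (fun r : ℝ => g (r + y * I)) volume :=
      (continuous_iff_continuousAt.2 fun r => ContinuousAt.comp (f := fun r : ℝ => r + y * I)
        (hd _ (by simpa using hy)).continuousAt (by fun_prop)).aestronglyMeasurable
    rw [← integrableOn_univ, ← Iic_union_Ioi (a := (0 : ℝ))]
    exact IntegrableOn.union (((integrableOn_exp_mul_Iic hc 0).const_mul C).mono' hm.restrict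
      (Eventually.of_forall fun r => (hb r y hy).1))
      (((integrableOn_exp_mul_Ioi (neg_lt_zero.2 hc) 0).const_mul C).mono' hm.restrict
        (Eventually.of_forall fun r => (hb r y hy).2))
  have hu : ∀ y ∈ uIcc 0 θ, |y| ≤ |θ| := fun y hy => by
    simpa using abs_sub_left_of_mem_uIcc hy
  have t0 : Tendsto (fun T : ℝ => C * Real.exp (-c * T) * |θ - 0|) atTop (𝓝 0) := by
    simpa using ((Real.tendsto_exp_atBot.comp
      (tendsto_id.const_mul_atTop_of_neg (neg_lt_zero.2 hc))).const_mul C).mul_const |θ|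
  have v1 : Tendsto (fun T : ℝ => ∫ y : ℝ in (0 : ℝ)..θ, g (T + y * I)) atTop (𝓝 0) :=
    squeeze_zero_norm (fun T => intervalIntegral.norm_integral_le_of_norm_le_const fun y hy =>
      (hb T y (hu y (uIoc_subset_uIcc hy))).2) t0
  have v2 : Tendsto (fun T : ℝ => ∫ y : ℝ in (0 : ℝ)..θ, g ((-T : ℝ) + y * I)) atTop (𝓝 0) :=
    squeeze_zero_norm (fun T => intervalIntegral.norm_integral_le_of_norm_le_const fun y hy =>
      (hb (-T) y (hu y (uIoc_subset_uIcc hy))).1.trans_eq (by ring_nf)) t0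
  have h1 := intervalIntegral_tendsto_integral (hi 0 (by simp)) tendsto_neg_atTop_atBot tendsto_id
  have h2 := intervalIntegral_tendsto_integral (hi θ le_rfl) tendsto_neg_atTop_atBot tendsto_id
  have h3 := ((h1.sub h2).add (v1.const_smul I)).sub (v2.const_smul I)
  have h4 := tendsto_nhds_unique h3 (tendsto_const_nhds.congr fun T =>
    (integral_boundary_rect_eq_zero_of_differentiableOn g ⟨-T, 0⟩ ⟨T, θ⟩ fun w hw =>
      (hd w (hu _ hw.2)).differentiableWithinAt).symm)
  simp only [smul_zero, add_zero, sub_zero, sub_eq_zero] at h4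
  exact h4.symm

theorem slit {w : ℂ} (h : |w.im| < π) : 1 + exp (-w) ∈ slitPlane := by
  rw [mem_slitPlane_iff]
  by_cases e : w.im = 0
  · left
    simp only [add_re, one_re, exp_re, neg_im, e, neg_zero, Real.cos_zero, mul_one]
    positivity
  · right
    simp only [add_im, one_im, exp_im, neg_im, zero_add, Real.sin_neg, mul_neg, neg_ne_zero]
    exact mul_ne_zero (Real.exp_pos _).ne' fun s =>
      e ((Real.sin_eq_zero_iff_of_lt_of_lt (abs_lt.1 h).1 (abs_lt.1 h).2).1 s)

theorem bd {θ : ℝ} (hθ : |θ| < π) {δ : ℝ} (h0 : 0 < δ) (h1 : δ ≤ 1) : ∃ K : ℝ, 0 ≤ K ∧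
    ∀ r y : ℝ, |y| ≤ |θ| → ‖log (1 + exp (-(r + y * I)))‖ ≤ K * Real.exp (-δ * r) := by
  obtain ⟨m, hm⟩ : ∃ m, m = (1 + Real.cos |θ|) / 2 := ⟨_, rfl⟩
  have m0 : 0 < m := by
    have := Real.cos_lt_cos_of_nonneg_of_le_pi (abs_nonneg θ) le_rfl hθ
    rw [Real.cos_pi] at this
    linarith
  have m1 : m ≤ 1 := by linarith [Real.cos_le_one |θ|]
  have l0 : Real.log m ≤ 0 := Real.log_nonpos m0.le m1
  have p3 := Real.pi_gt_three
  have d0 : 0 < 1 / δ := by positivity
  have K0 : 0 ≤ (π - Real.log m + 2 + 1 / δ) * Real.exp δ :=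
    mul_nonneg (by linarith) (Real.exp_pos _).le
  refine ⟨_, K0, fun r y hy => ?_⟩
  have nv : ‖exp (-(r + y * I))‖ = Real.exp (-r) := by simp [norm_exp]
  rcases le_total 1 r with h | h
  · have e1 : Real.exp (-r) ≤ 1 / 2 := by
      rw [Real.exp_neg, ← one_div]
      exact one_div_le_one_div_of_le two_pos (by linarith [Real.add_one_le_exp r])
    refine (norm_log_one_add_half_le_self (nv.trans_le e1)).trans ?_
    rw [nv]
    refine mul_le_mul ?_ (Real.exp_le_exp.2 (by nlinarith)) (Real.exp_pos _).le K0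
    nlinarith [Real.one_le_exp h0.le]
  · obtain ⟨ρ, hρ⟩ : ∃ ρ, ρ = Real.exp (-r) := ⟨_, rfl⟩
    have ρ0 : 0 < ρ := hρ ▸ Real.exp_pos _
    have cy : Real.cos |θ| ≤ Real.cos y := by
      rw [← Real.cos_abs y]
      exact Real.cos_le_cos_of_nonneg_of_le_pi (abs_nonneg _) hθ.le hy
    have n1 : m ≤ ‖1 + exp (-(r + y * I))‖ := by
      refine (abs_le_of_sq_le_sq' ?_ (norm_nonneg _)).2
      rw [Complex.sq_norm, normSq_apply]
      simp only [add_re, one_re, exp_re, add_im, one_im, exp_im, neg_re, neg_im, ofReal_re,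
        ofReal_im, mul_re, mul_im, I_re, I_im, mul_zero, mul_one, sub_zero, zero_add, add_zero,
        Real.cos_neg, Real.sin_neg, ← hρ]
      have s := Real.sin_sq_add_cos_sq y
      have : 2 * m - 1 ≤ Real.cos y := by linarith
      have e : (1 + ρ * Real.cos y) * (1 + ρ * Real.cos y) + ρ * -Real.sin y * (ρ * -Real.sin y)
          = 1 + 2 * ρ * Real.cos y + ρ ^ 2 := by linear_combination ρ ^ 2 * s
      rw [e]
      nlinarith [mul_le_mul_of_nonneg_left this ρ0.le, sq_nonneg (ρ + 2 * m - 1),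
        mul_nonneg m0.le (sub_nonneg.2 m1)]
    have n2 : Real.log ‖1 + exp (-(r + y * I))‖ ≤ 2 - r := by
      rw [Real.log_le_iff_le_exp (m0.trans_le n1)]
      refine (norm_add_le _ _).trans ?_
      rw [nv, norm_one, show 2 - r = 1 + (1 - r) by ring, Real.exp_add]
      nlinarith [Real.add_one_le_exp 1, Real.one_le_exp (sub_nonneg.2 h),
        Real.exp_le_exp.2 (show -r ≤ 1 - r by linarith)]
    have n3 := Real.log_le_log m0 n1
    have n4 : ‖log (1 + exp (-(r + y * I)))‖ ≤ π - Real.log m + 2 + (1 - r) := by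
      refine (norm_le_abs_re_add_abs_im _).trans ?_
      rw [log_re, log_im]
      have := abs_arg_le_pi (1 + exp (-(r + y * I)))
      have : |Real.log ‖1 + exp (-(r + y * I))‖| ≤ -Real.log m + 2 + (1 - r) :=
        abs_le.2 ⟨by linarith, by linarith⟩
      linarith
    refine n4.trans ?_
    have e : Real.exp δ * Real.exp (-δ * r) = Real.exp (δ * (1 - r)) := by
      rw [← Real.exp_add]; ring_nf
    have a1 := Real.add_one_le_exp (δ * (1 - r))
    have a2 : 1 ≤ Real.exp (δ * (1 - r)) := Real.one_le_exp (mul_nonneg h0.le (by linarith))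
    have a3 : 1 - r ≤ 1 / δ * Real.exp (δ * (1 - r)) := by
      rw [one_div, ← div_eq_inv_mul, le_div_iff₀ h0]; linarith
    rw [mul_assoc, e]
    nlinarith

theorem mel (f : ℝ → ℂ) (u : ℂ) : mellin f u = ∫ r : ℝ, exp (u * r) * f (Real.exp r) := by
  rw [mellin, ← Real.range_exp, ← image_univ, integral_image_eq_integral_abs_deriv_smul
    MeasurableSet.univ (fun x _ => (Real.hasDerivAt_exp x).hasDerivWithinAt)
    Real.exp_injective.injOn, Measure.restrict_univ]
  refine integral_congr_ae (Eventually.of_forall fun r => ?_)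
  simp only [Real.abs_exp, real_smul, smul_eq_mul, ofReal_exp]
  rw [cpow_def_of_ne_zero (exp_ne_zero _), log_exp (by simp [Real.pi_pos])
    (by simp [Real.pi_pos.le]), ← mul_assoc, ← exp_add]
  ring_nf

end Ro1B

open Ro1B in
theorem ro1S : Ro1S := by
  intro u k θ h0 h1 hk hθ
  have k0 : (1 : ℝ) ≤ k := by exact_mod_cast hk
  obtain ⟨c, hc⟩ : ∃ c, c = min u.re (1 - u.re) / 2 := ⟨_, rfl⟩
  have c0 : 0 < c := by rw [hc]; exact half_pos (lt_min h0 (by linarith))
  have c1 : 2 * c ≤ u.re := by linarith [min_le_left u.re (1 - u.re)]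
  have c2 : 2 * c ≤ 1 - u.re := by linarith [min_le_right u.re (1 - u.re)]
  have key : ∀ δ : ℝ, 0 < δ → δ ≤ 1 → ∃ K : ℝ, ∀ r y : ℝ, |y| ≤ |θ| →
      ‖exp (u * (r + y * I)) * log (1 + exp (-(r + y * I))) ^ k‖ ≤
        K * Real.exp ((u.re - δ) * r) := fun δ d0 d1 => by
    obtain ⟨K, K0, hK⟩ := bd hθ (δ := δ / k) (by positivity)
      ((div_le_one (by linarith)).2 (by linarith))
    refine ⟨Real.exp (|u.im| * π) * K ^ k, fun r y hy => ?_⟩
    rw [norm_mul, norm_pow, norm_exp]
    have e : (u * (r + y * I)).re ≤ |u.im| * π + u.re * r := by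
      have : |u.im * y| ≤ |u.im| * π := by
        rw [abs_mul]; exact mul_le_mul_of_nonneg_left (hy.trans hθ.le) (abs_nonneg _)
      simp
      linarith [neg_abs_le (u.im * y)]
    calc _ ≤ Real.exp (|u.im| * π + u.re * r) * (K * Real.exp (-(δ / k) * r)) ^ k := by
          gcongr; exact hK r y hy
      _ = _ := by
          rw [mul_pow, ← Real.exp_nat_mul, Real.exp_add, mul_mul_mul_comm, ← Real.exp_add]
          congr 2
          field_simp
          ring
  obtain ⟨K1, a1⟩ := key (u.re - c) (by linarith) (by linarith)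
  obtain ⟨K2, a2⟩ := key (u.re + c) (by linarith) (by linarith)
  have := shift (fun w => exp (u * w) * log (1 + exp (-w)) ^ k) θ c (max K1 K2) c0
    (fun w hw => DifferentiableAt.mul (by fun_prop)
      ((DifferentiableAt.clog (f := fun w => 1 + exp (-w)) (by fun_prop)
        (slit (hw.trans_lt hθ))).pow k))
    fun r y hy => ⟨(a1 r y hy).trans (by
      rw [sub_sub_cancel]; gcongr; exact le_max_left _ _), (a2 r y hy).trans (by
      rw [sub_add_cancel_left]; gcongr; exact le_max_right _ _)⟩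
  rw [mel, mel, ← integral_const_mul]
  refine (integral_congr_ae (Eventually.of_forall fun r => ?_)).trans
    (this.trans (integral_congr_ae (Eventually.of_forall fun r => ?_)))
  · simp only [ofReal_exp]
    rw [← mul_assoc, ← exp_add, ← exp_add, one_div, ← exp_neg]
    ring_nf
  · simp only [lgp]
    rw [ofReal_log (by positivity)]
    simp [exp_neg]

end Pool.Agent.MP_20b2fd_nt.H96
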