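import Pool.Agent.MP_20b2fd_nt.H96.SpecB

/-! Row Rot of block K: the Mellin transforms on the negative axis. -/

set_option autoImplicit false

namespace Pool.Agent.MP_20b2fd_nt.H96

open MeasureTheory Complex Set Filter Topology
open scoped Real

namespace RotB

noncomputable def vv (x θ : ℝ) : ℂ := 1 + 1 / (x * exp (θ * I))

lemma norm_w (x θ : ℝ) (hx : 0 < x) : ‖(1 / (x * exp (θ * I)) : ℂ)‖ = 1 / x := by
  rw [norm_div, norm_mul, norm_exp_ofReal_mul_I, norm_one, mul_one, norm_real,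
    Real.norm_of_nonneg hx.le]

lemma norm_vv_le (x θ : ℝ) (hx : 0 < x) : ‖vv x θ‖ ≤ 1 + 1 / x := by
  unfold vv
  refine (norm_add_le _ _).trans ?_
  rw [norm_w x θ hx, norm_one]

lemma le_norm_vv (x θ : ℝ) (hx : 0 < x) : |1 - 1 / x| ≤ ‖vv x θ‖ := by
  unfold vv
  have h := abs_norm_sub_norm_le (1 : ℂ) (-(1 / (x * exp (θ * I))))
  rw [norm_neg, norm_w x θ hx, norm_one, sub_neg_eq_add] at h
  exact h

lemma norm_log_le (z : ℂ) : ‖log z‖ ≤ |Real.log ‖z‖| + π := by
  unfold Complex.log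
  refine (norm_add_le _ _).trans ?_
  rw [norm_real, norm_mul, norm_I, mul_one, norm_real, Real.norm_eq_abs, Real.norm_eq_abs]
  exact add_le_add le_rfl (abs_arg_le_pi z)

lemma pow_le_sq {a B : ℝ} {k : ℕ} (ha : 0 ≤ a) (haB : a ≤ B) (hB : 1 ≤ B) (hk : k ≤ 2) :
    a ^ k ≤ B ^ 2 :=
  (pow_le_pow_left₀ ha haB k).trans (pow_le_pow_right₀ hB hk)

noncomputable def gg (x : ℝ) : ℝ := |(1 - x) ^ (-1 / 2 : ℝ)| + |(x - 1) ^ (-1 / 2 : ℝ)|

lemma gg_nonneg (x : ℝ) : 0 ≤ gg x := add_nonneg (abs_nonneg _) (abs_nonneg _)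

lemma le_gg (x : ℝ) : |1 - x| ^ (-1 / 2 : ℝ) ≤ gg x := by
  unfold gg
  rcases le_total x 1 with h | h
  · rw [abs_of_nonneg (sub_nonneg.2 h)]
    exact (le_abs_self _).trans (le_add_of_nonneg_right (abs_nonneg _))
  · rw [abs_sub_comm, abs_of_nonneg (sub_nonneg.2 h)]
    exact (le_abs_self _).trans (le_add_of_nonneg_left (abs_nonneg _))

lemma gg_int : IntegrableOn gg (Ioc 0 2) := by
  have h1 : IntervalIntegrable (fun x : ℝ => (1 - x) ^ (-1 / 2 : ℝ)) volume 0 2 := by
    have := (intervalIntegral.intervalIntegrable_rpow' (a := 1) (b := -1)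
      (r := -1 / 2) (by norm_num)).comp_sub_left 1
    convert this using 1 <;> norm_num
  have h2 : IntervalIntegrable (fun x : ℝ => (x - 1) ^ (-1 / 2 : ℝ)) volume 0 2 := by
    have := (intervalIntegral.intervalIntegrable_rpow' (a := -1) (b := 1)
      (r := -1 / 2) (by norm_num)).comp_sub_right 1
    convert this using 1 <;> norm_num
  exact ((h1.abs).add (h2.abs)).1

/-- the majorant -/
noncomputable def bd (σ x : ℝ) : ℝ :=
  2 * (x ^ (σ - 1) * Real.log (1 + 1 / x) ^ 2) +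
    (Ioc (0 : ℝ) 2).indicator (fun x => 200 * x ^ (σ - 1) + 200 * gg x) x +
    (Ioi (2 : ℝ)).indicator (fun x => 2 * x ^ (σ - 2)) x

lemma bd_int (u : ℂ) (h0 : 0 < u.re) (h1 : u.re < 1)
    (hP : MellinConvergent (fun x => lgp x ^ 2) u) : IntegrableOn (bd u.re) (Ioi 0) := by
  unfold bd
  refine (Integrable.add (Integrable.const_mul ?_ 2) ?_).add ?_
  · have h : IntegrableOn (fun x : ℝ => ‖(x : ℂ) ^ (u - 1) • lgp x ^ 2‖) (Ioi 0) := hP.norm
    refine h.congr_fun (fun x hx => ?_) measurableSet_Ioi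
    simp only [smul_eq_mul, norm_mul, norm_pow, lgp]
    rw [norm_cpow_eq_rpow_re_of_pos hx, norm_real, Real.norm_eq_abs, sq_abs, sub_re, one_re]
  · refine Integrable.integrableOn ?_
    rw [integrable_indicator_iff measurableSet_Ioc]
    refine Integrable.add (Integrable.const_mul ?_ _) (gg_int.const_mul _)
    exact (intervalIntegral.intervalIntegrable_rpow' (a := 0) (b := 2) (by linarith)).1
  · refine Integrable.integrableOn ?_
    rw [integrable_indicator_iff measurableSet_Ioi]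
    exact (integrableOn_Ioi_rpow_of_lt (by linarith) (by norm_num)).const_mul _

lemma le_bd (σ x θ : ℝ) (k : ℕ) (h0 : 0 < σ) (h1 : σ < 1) (hk1 : 1 ≤ k) (hk : k ≤ 2)
    (hx : 0 < x) (hx1 : x ≠ 1) : x ^ (σ - 1) * ‖log (vv x θ)‖ ^ k ≤ bd σ x := by
  have hp : 0 < x ^ (σ - 1) := Real.rpow_pos_of_pos hx _
  have hpi := Real.pi_lt_four
  have hpi3 := Real.pi_gt_three
  have hix : 0 < 1 / x := by positivity
  have hL : 0 ≤ Real.log (1 + 1 / x) := Real.log_nonneg (by linarith)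
  have hA : 0 ≤ 2 * (x ^ (σ - 1) * Real.log (1 + 1 / x) ^ 2) := by positivity
  have hup := norm_vv_le x θ hx
  have hlo := le_norm_vv x θ hx
  have hg := gg_nonneg x
  unfold bd
  rcases le_or_gt x 2 with h2 | h2
  · rw [indicator_of_mem (show x ∈ Ioc (0 : ℝ) 2 from ⟨hx, h2⟩),
      indicator_of_notMem (show x ∉ Ioi (2 : ℝ) from not_lt.2 h2), add_zero]
    rcases le_or_gt x (1 / 2) with h3 | h3
    · have h4 : 2 ≤ 1 / x := by rw [le_div_iff₀ hx]; linarith
      have h5 : 1 ≤ ‖vv x θ‖ := by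
        refine le_trans ?_ hlo
        rw [abs_of_nonpos (by linarith)]; linarith
      have h6 : ‖log (vv x θ)‖ ≤ Real.log (1 + 1 / x) + π := by
        refine (norm_log_le _).trans ?_
        rw [abs_of_nonneg (Real.log_nonneg h5)]
        exact add_le_add (Real.log_le_log (by linarith) hup) le_rfl
      have h7 := pow_le_sq (norm_nonneg _) h6 (by linarith) hk
      have h8 : (Real.log (1 + 1 / x) + π) ^ 2 ≤ 2 * Real.log (1 + 1 / x) ^ 2 + 200 := by
        nlinarith [sq_nonneg (Real.log (1 + 1 / x) - π)]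
      nlinarith [mul_le_mul_of_nonneg_left (h7.trans h8) hp.le]
    · have hd : 0 < |1 - x| := abs_pos.2 (sub_ne_zero.2 hx1.symm)
      have hd1 : |1 - x| ≤ 1 := abs_le.2 ⟨by linarith, by linarith⟩
      have h4 : 1 / x ≤ 2 := by rw [div_le_iff₀ hx]; linarith
      have h5 : |1 - x| / 2 ≤ ‖vv x θ‖ := by
        refine le_trans ?_ hlo
        have : 1 - 1 / x = -(1 - x) / x := by field_simp; ring
        rw [this, abs_div, abs_neg, abs_of_pos hx]
        exact div_le_div_of_nonneg_left hd.le hx h2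
      set w := |1 - x| ^ (-1 / 4 : ℝ) with hw
      have hw0 : 0 < w := Real.rpow_pos_of_pos hd _
      have hw2 : w ^ 2 ≤ gg x := by
        refine le_trans (le_of_eq ?_) (le_gg x)
        rw [hw, ← Real.rpow_natCast, ← Real.rpow_mul hd.le]; norm_num
      have hn : 0 < ‖vv x θ‖ := lt_of_lt_of_le (by positivity) h5
      have h6 : Real.log ‖vv x θ‖ ≤ 2 := by
        have := Real.log_le_sub_one_of_pos hn
        linarith
      have h7 : -Real.log ‖vv x θ‖ ≤ 1 + 4 * w := by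
        have a1 := Real.log_le_log (by positivity) h5
        rw [Real.log_div hd.ne' (by norm_num)] at a1
        have a2 : Real.log 2 ≤ 1 := by
          have := Real.log_le_sub_one_of_pos (show (0 : ℝ) < 2 by norm_num); linarith
        have a3 := Real.log_le_rpow_div (x := |1 - x|⁻¹) (ε := 1 / 4) (by positivity) (by norm_num)
        rw [Real.log_inv, Real.inv_rpow hd.le, ← Real.rpow_neg hd.le] at a3
        have a4 : |1 - x| ^ (-(1 / 4) : ℝ) = w := by rw [hw]; norm_num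
        rw [a4] at a3
        linarith
      have h8 : ‖log (vv x θ)‖ ≤ 6 + 4 * w := by
        refine (norm_log_le _).trans ?_
        have : |Real.log ‖vv x θ‖| ≤ 2 + 4 * w := abs_le.2 ⟨by linarith, by linarith⟩
        linarith
      have h9 := pow_le_sq (norm_nonneg _) h8 (by linarith) hk
      have h10 : (6 + 4 * w) ^ 2 ≤ 72 + 32 * gg x := by nlinarith [sq_nonneg (6 - 4 * w)]
      have h11 : x ^ (σ - 1) ≤ 2 := by
        have a1 : x ^ (σ - 1) ≤ (1 / 2 : ℝ) ^ (σ - 1) :=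
          Real.rpow_le_rpow_of_nonpos (by norm_num) h3.le (by linarith)
        have a2 : (1 / 2 : ℝ) ^ (σ - 1) ≤ (1 / 2 : ℝ) ^ (-1 : ℝ) :=
          Real.rpow_le_rpow_of_exponent_ge (by norm_num) (by norm_num) (by linarith)
        rw [Real.rpow_neg_one] at a2
        linarith
      nlinarith [mul_le_mul_of_nonneg_left (h9.trans h10) hp.le,
        mul_le_mul_of_nonneg_right h11 hg]
  · rw [indicator_of_notMem (show x ∉ Ioc (0 : ℝ) 2 from fun h => not_le.2 h2 h.2),
      indicator_of_mem (show x ∈ Ioi (2 : ℝ) from h2), add_zero]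
    have h4 : 1 / x ≤ 1 / 2 := one_div_le_one_div_of_le (by norm_num) h2.le
    have h5 : ‖log (vv x θ)‖ ≤ 3 / 2 * (1 / x) := by
      have := norm_log_one_add_half_le_self (z := 1 / (x * exp (θ * I)))
        (by rw [norm_w x θ hx]; exact h4)
      rwa [norm_w x θ hx] at this
    have h6 : ‖log (vv x θ)‖ ^ k ≤ 3 / 2 * (1 / x) :=
      (pow_le_of_le_one (norm_nonneg _) (by linarith) (by omega)).trans h5
    have h7 : x ^ (σ - 2) = x ^ (σ - 1) * (1 / x) := by
      rw [show σ - 2 = (σ - 1) - 1 by ring, Real.rpow_sub_one hx.ne']; ring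
    rw [h7]
    nlinarith [mul_le_mul_of_nonneg_left h6 hp.le, mul_pos hp hix]

/-- the boundary values -/
noncomputable def Ls (s x : ℝ) : ℂ :=
  lgm x - s * π * I * (Ioc (0 : ℝ) 1).indicator (fun _ => (1 : ℂ)) x

lemma vv_im (x θ : ℝ) (hx : 0 < x) : (vv x θ).im = -(Real.sin θ / x) := by
  have : vv x θ = 1 + ((1 / x : ℝ) : ℂ) * exp ((-θ : ℝ) * I) := by
    unfold vv
    have hx' : (x : ℂ) ≠ 0 := ofReal_ne_zero.2 hx.ne'
    push_cast
    rw [neg_mul, exp_neg]
    field_simp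
  rw [this, add_im, one_im, im_ofReal_mul, exp_ofReal_mul_I_im, Real.sin_neg]
  ring

lemma vv_tendsto (s x : ℝ) (hs : s = 1 ∨ s = -1) (hx : 0 < x) :
    Tendsto (fun t : ℝ => vv x (s * t)) (𝓝[<] π) (𝓝 ((1 - 1 / x : ℝ) : ℂ)) := by
  have hx' : (x : ℂ) ≠ 0 := ofReal_ne_zero.2 hx.ne'
  have hc : Continuous fun t : ℝ => vv x (s * t) := by
    unfold vv
    refine continuous_const.add (continuous_const.div (by fun_prop) fun t => ?_)
    exact mul_ne_zero hx' (exp_ne_zero _)
  have he : exp (((s * π : ℝ) : ℂ) * I) = -1 := by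
    rcases hs with rfl | rfl
    · rw [one_mul]; exact exp_pi_mul_I
    · push_cast
      rw [show -1 * (π : ℂ) * I = -(π * I) by ring, exp_neg, exp_pi_mul_I]; norm_num
  have := (hc.tendsto π).mono_left (nhdsWithin_le_nhds (s := Iio π))
  convert this using 2
  unfold vv
  rw [he]; push_cast; field_simp; ring

lemma log_tendsto (s x : ℝ) (hs : s = 1 ∨ s = -1) (hx : 0 < x) (hx1 : x ≠ 1) :
    Tendsto (fun t : ℝ => log (vv x (s * t))) (𝓝[<] π) (𝓝 (Ls s x)) := by
  have hv := vv_tendsto s x hs hx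
  unfold Ls lgm
  rcases lt_or_gt_of_ne hx1 with h | h
  · have h1 : 1 - 1 / x < 0 := by
      have : 1 < 1 / x := by rw [lt_div_iff₀ hx]; linarith
      linarith
    have hev : ∀ᶠ t in 𝓝[<] π, 0 < Real.sin t := by
      filter_upwards [Ioo_mem_nhdsLT Real.pi_pos] with t ht
      exact Real.sin_pos_of_pos_of_lt_pi ht.1 ht.2
    rw [indicator_of_mem (show x ∈ Ioc (0 : ℝ) 1 from ⟨hx, h.le⟩), mul_one, ← Real.norm_eq_abs,
      ← norm_real]
    rcases hs with rfl | rfl
    · have := (tendsto_log_nhdsWithin_im_neg_of_re_neg_of_im_zero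
        (z := ((1 - 1 / x : ℝ) : ℂ)) (by rwa [ofReal_re]) (ofReal_im _)).comp
        (tendsto_nhdsWithin_iff.2 ⟨hv, hev.mono fun t ht => by
          show (vv x (1 * t)).im < 0
          rw [vv_im _ _ hx, one_mul]
          exact neg_neg_of_pos (div_pos ht hx)⟩)
      simpa [Function.comp_def] using this
    · have := (tendsto_log_nhdsWithin_im_nonneg_of_re_neg_of_im_zero
        (z := ((1 - 1 / x : ℝ) : ℂ)) (by rwa [ofReal_re]) (ofReal_im _)).comp
        (tendsto_nhdsWithin_iff.2 ⟨hv, hev.mono fun t ht => by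
          show 0 ≤ (vv x (-1 * t)).im
          rw [vv_im _ _ hx, neg_one_mul, Real.sin_neg, neg_div, neg_neg]
          exact (div_pos ht hx).le⟩)
      simpa [Function.comp_def] using this
  · have h1 : 0 < 1 - 1 / x := by
      have : 1 / x < 1 := by rw [div_lt_iff₀ hx]; linarith
      linarith
    rw [indicator_of_notMem (show x ∉ Ioc (0 : ℝ) 1 from fun h' => not_le.2 h h'.2), mul_zero,
      sub_zero, abs_of_pos h1, ofReal_log h1.le]
    exact (continuousAt_clog (ofReal_mem_slitPlane.2 h1)).tendsto.comp hv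

lemma meas (u : ℂ) (θ : ℝ) (k : ℕ) :
    Measurable fun x : ℝ => (x : ℂ) ^ (u - 1) • log (vv x θ) ^ k := by
  unfold vv
  simp only [smul_eq_mul]
  refine (measurable_ofReal.pow_const _).mul (Measurable.pow_const ?_ _)
  exact measurable_log.comp (by fun_prop)

lemma main (u : ℂ) (h0 : 0 < u.re) (h1 : u.re < 1) (hP : MellinConvergent (fun x => lgp x ^ 2) u)
    (hR : Ro1S) (s : ℝ) (hs : s = 1 ∨ s = -1) (k : ℕ) (hk1 : 1 ≤ k) (hk : k ≤ 2) :
    MellinConvergent (fun x => Ls s x ^ k) u ∧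
      mellin (fun x => Ls s x ^ k) u = exp (-(s * π * I * u)) * mellin (fun x => lgp x ^ k) u := by
  have hae : ∀ᵐ x ∂(volume.restrict (Ioi (0 : ℝ))), 0 < x ∧ x ≠ 1 := by
    filter_upwards [ae_restrict_mem measurableSet_Ioi,
      ae_restrict_of_ae (Measure.ae_ne volume (1 : ℝ))] with x h h' using ⟨h, h'⟩
  have hb : ∀ t : ℝ, ∀ᵐ x ∂(volume.restrict (Ioi (0 : ℝ))),
      ‖((x : ℝ) : ℂ) ^ (u - 1) • log (vv x (s * t)) ^ k‖ ≤ bd u.re x := fun t => by
    filter_upwards [hae] with x hx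
    rw [smul_eq_mul, norm_mul, norm_pow, norm_cpow_eq_rpow_re_of_pos hx.1, sub_re, one_re]
    exact le_bd _ _ _ _ h0 h1 hk1 hk hx.1 hx.2
  have hl : ∀ᵐ x ∂(volume.restrict (Ioi (0 : ℝ))),
      Tendsto (fun t : ℝ => ((x : ℝ) : ℂ) ^ (u - 1) • log (vv x (s * t)) ^ k) (𝓝[<] π)
        (𝓝 (((x : ℝ) : ℂ) ^ (u - 1) • Ls s x ^ k)) := by
    filter_upwards [hae] with x hx
    exact ((log_tendsto s x hs hx.1 hx.2).pow k).const_smul _
  have hi := bd_int u h0 h1 hP
  constructor
  · refine hi.mono' (aestronglyMeasurable_of_tendsto_ae (𝓝[<] π)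
      (fun t => (meas u (s * t) k).aestronglyMeasurable) hl) ?_
    have hall : ∀ᵐ x ∂(volume.restrict (Ioi (0 : ℝ))), ∀ t : ℝ,
        ‖((x : ℝ) : ℂ) ^ (u - 1) • log (vv x (s * t)) ^ k‖ ≤ bd u.re x := by
      filter_upwards [hae] with x hx t
      rw [smul_eq_mul, norm_mul, norm_pow, norm_cpow_eq_rpow_re_of_pos hx.1, sub_re, one_re]
      exact le_bd _ _ _ _ h0 h1 hk1 hk hx.1 hx.2
    filter_upwards [hl, hall] with x hx hx'
    exact le_of_tendsto hx.norm (Eventually.of_forall hx')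
  · have t1 := tendsto_integral_filter_of_dominated_convergence (bd u.re)
      (Eventually.of_forall fun t => (meas u (s * t) k).aestronglyMeasurable)
      (Eventually.of_forall hb) hi hl
    have hc : Continuous fun t : ℝ =>
        exp (-(s * t * I * u)) * mellin (fun x => lgp x ^ k) u := by fun_prop
    have t2 := (hc.tendsto π).mono_left (nhdsWithin_le_nhds (s := Iio π))
    refine tendsto_nhds_unique t1 (t2.congr' ?_)
    filter_upwards [Ioo_mem_nhdsLT Real.pi_pos] with t ht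
    have habs : |s * t| < π := by
      rcases hs with rfl | rfl
      · rw [one_mul, abs_of_pos ht.1]; exact ht.2
      · rw [neg_one_mul, abs_neg, abs_of_pos ht.1]; exact ht.2
    rw [← hR u k (s * t) h0 h1 hk1 habs, ← mul_assoc, ← exp_add]
    push_cast
    rw [neg_add_cancel, exp_zero, one_mul]
    simp only [mellin, vv]
    push_cast
    rfl

end RotB

open RotB in
theorem rotOf : RotOf := by
  intro hP hR u h0 h1
  obtain ⟨-, hP2, -, -⟩ := hP u h0 h1
  obtain ⟨a1, b1⟩ := main u h0 h1 hP2 hR 1 (Or.inl rfl) 1 le_rfl (by norm_num)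
  obtain ⟨a2, b2⟩ := main u h0 h1 hP2 hR (-1) (Or.inr rfl) 1 le_rfl (by norm_num)
  obtain ⟨a3, b3⟩ := main u h0 h1 hP2 hR 1 (Or.inl rfl) 2 (by norm_num) le_rfl
  obtain ⟨a4, b4⟩ := main u h0 h1 hP2 hR (-1) (Or.inr rfl) 2 (by norm_num) le_rfl
  have hcos : ∀ P : ℂ, (1 / 2 : ℂ) • (exp (-((1 : ℝ) * π * I * u)) * P +
      exp (-((-1 : ℝ) * π * I * u)) * P) = cos (π * u) * P := fun P => by
    rw [Complex.cos, smul_eq_mul]
    push_cast
    rw [show -(1 * (π : ℂ) * I * u) = -(π * u) * I by ring,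
      show -(-1 * (π : ℂ) * I * u) = π * u * I by ring]
    ring
  have c1 := hasMellin_add a1 a2
  have d1 := hasMellin_const_smul c1.1 (1 / 2 : ℂ)
  have c2 := hasMellin_add a3 a4
  have d2 := hasMellin_const_smul c2.1 (1 / 2 : ℂ)
  have e0 := hasMellin_one_Ioc h0
  have e1 := hasMellin_const_smul e0.1 ((π : ℂ) ^ 2)
  have e2 := hasMellin_add d2.1 e1.1
  have f1 : lgm = fun t => (1 / 2 : ℂ) • (Ls 1 t ^ 1 + Ls (-1) t ^ 1) := by
    funext t; simp only [Ls, smul_eq_mul]; push_cast; ring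
  have f2 : (fun x => lgm x ^ 2) = fun t => (1 / 2 : ℂ) • (Ls 1 t ^ 2 + Ls (-1) t ^ 2) +
      (π : ℂ) ^ 2 • (Ioc (0 : ℝ) 1).indicator (fun _ => (1 : ℂ)) t := by
    funext t
    simp only [Ls, smul_eq_mul]
    by_cases ht : t ∈ Ioc (0 : ℝ) 1
    · rw [indicator_of_mem ht]; push_cast; linear_combination (-(π : ℂ) ^ 2) * I_sq
    · rw [indicator_of_notMem ht]; ring
  refine ⟨by rw [f1]; exact d1.1, by rw [f2]; exact e2.1, ?_, ?_⟩
  · rw [f1, d1.2, c1.2, b1, b2, hcos]; simp only [pow_one]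
  · rw [f2, e2.2, d2.2, c2.2, b3, b4, hcos, e1.2, e0.2, smul_eq_mul]; ring

end Pool.Agent.MP_20b2fd_nt.H96
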