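import Pool.Agent.MP_20b2fd_nt.H96.SpecB

/-! Weighted norms. -/

set_option autoImplicit false

namespace Pool.Agent.MP_20b2fd_nt.H96

open MeasureTheory Set

namespace WlB

theorem int_pos {r c : ℝ} (hr : -1 < r) (hc : 0 ≤ c) :
    IntervalIntegrable (fun x : ℝ => |x| ^ r) volume 0 c ∧
      ∫ x in (0 : ℝ)..c, |x| ^ r = c ^ (r + 1) / (r + 1) := by
  have e : EqOn (fun x : ℝ => x ^ r) (fun x : ℝ => |x| ^ r) (uIcc 0 c) := fun x hx => by
    rw [uIcc_of_le hc] at hx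
    simp only [abs_of_nonneg hx.1]
  refine ⟨(intervalIntegral.intervalIntegrable_rpow' hr).congr (e.mono uIoc_subset_uIcc), ?_⟩
  rw [← intervalIntegral.integral_congr e, integral_rpow (Or.inl hr),
    Real.zero_rpow (by linarith), sub_zero]

theorem int_sym {r c : ℝ} (hr : -1 < r) (hc : 0 ≤ c) :
    IntervalIntegrable (fun x : ℝ => |x| ^ r) volume (-c) c ∧
      ∫ x in (-c)..c, |x| ^ r = 2 * (c ^ (r + 1) / (r + 1)) := by
  obtain ⟨h1, h2⟩ := int_pos hr hc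
  have h3 : IntervalIntegrable (fun x : ℝ => |x| ^ r) volume (-c) 0 := by
    have := (IntervalIntegrable.iff_comp_neg (f := fun x : ℝ => |x| ^ r) (a := 0) (b := c)).1 h1
    simp only [abs_neg, neg_zero] at this
    exact this.symm
  have h4 : ∫ x in (-c)..0, |x| ^ r = ∫ x in (0 : ℝ)..c, |x| ^ r := by
    have := intervalIntegral.integral_comp_neg (fun x : ℝ => |x| ^ r) (a := 0) (b := c)
    simp only [abs_neg, neg_zero] at this
    exact this.symm
  refine ⟨h3.trans h1, ?_⟩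
  rw [← intervalIntegral.integral_add_adjacent_intervals h3 h1, h4, h2]
  ring

theorem pw {x : ℝ} (hx : 0 < x) (e f : ℝ) (n : ℕ) (h : f = e * n) : x ^ f = (x ^ e) ^ n := by
  rw [h, Real.rpow_mul hx.le, Real.rpow_natCast]

theorem log_small {x e : ℝ} (hx : 0 < x) (h1 : x ≤ 1) (he : 0 < e) :
    |Real.log x| ≤ x ^ (-e) / e := by
  rw [abs_of_nonpos (Real.log_nonpos hx.le h1), ← Real.log_inv, Real.rpow_neg hx.le,
    ← Real.inv_rpow hx.le]
  exact Real.log_le_rpow_div (inv_nonneg.2 hx.le) he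

theorem log_mid {x : ℝ} (hx : 0 < x) (h3 : x ≤ 3) :
    |Real.log x| ≤ 8 * x ^ (-1 / 8 : ℝ) + 2 := by
  have h0 : 0 ≤ x ^ (-1 / 8 : ℝ) := Real.rpow_nonneg hx.le _
  rcases le_total x 1 with h | h
  · have := log_small hx h (show (0 : ℝ) < 1 / 8 by norm_num)
    rw [show (-(1 / 8) : ℝ) = -1 / 8 by norm_num] at this
    linarith
  · rw [abs_of_nonneg (Real.log_nonneg h)]
    linarith [Real.log_le_sub_one_of_pos hx]

theorem lg_eq {t : ℝ} (h0 : t ≠ 0) (h1 : t ≠ -1) :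
    Real.log (|1 + 1 / t|) = Real.log (|1 + t|) - Real.log (|t|) := by
  have h2 : 1 + t ≠ 0 := fun e => h1 (by linarith)
  rw [← Real.log_div (abs_ne_zero.2 h2) (abs_ne_zero.2 h0), ← abs_div]
  congr 2
  field_simp
  ring

theorem lg_le {t : ℝ} (h0 : t ≠ 0) (h1 : t ≠ -1) :
    |Real.log (|1 + 1 / t|)| ≤ |Real.log (|1 + t|)| + |Real.log (|t|)| := by
  rw [lg_eq h0 h1]
  exact abs_sub _ _

theorem alg {u v d l a : ℝ} (hu : 0 ≤ u) (hv : 0 ≤ v) (ha : 0 ≤ a) (hl0 : 0 ≤ l)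
    (hd : d ≤ a * (u ^ 2 + v ^ 2)) (hl : l ≤ 8 * v + 2 + (8 * u + 2)) :
    u ^ 4 * (d * (1 + l)) ≤ a * (10 + 42 * (u ^ 7 + v ^ 7)) := by
  set m := max u v with hm
  have h1 : u ≤ m := le_max_left _ _
  have h2 : v ≤ m := le_max_right _ _
  have hm0 : 0 ≤ m := hu.trans h1
  have h3 : d ≤ a * (2 * m ^ 2) := hd.trans (mul_le_mul_of_nonneg_left (by
    linarith [pow_le_pow_left₀ hu h1 2, pow_le_pow_left₀ hv h2 2]) ha)
  have h4 : d * (1 + l) ≤ a * (2 * m ^ 2) * (5 + 16 * m) :=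
    mul_le_mul h3 (by linarith) (by linarith) (by positivity)
  have h5 : u ^ 4 * (d * (1 + l)) ≤ m ^ 4 * (a * (2 * m ^ 2) * (5 + 16 * m)) :=
    (mul_le_mul_of_nonneg_left h4 (by positivity)).trans
      (mul_le_mul_of_nonneg_right (pow_le_pow_left₀ hu h1 4) (by positivity))
  have h6 : m ^ 6 ≤ 1 + m ^ 7 := by
    rcases le_total m 1 with h | h
    · linarith [pow_le_one₀ (n := 6) hm0 h, pow_nonneg hm0 7]
    · linarith [pow_le_pow_right₀ h (show 6 ≤ 7 by norm_num)]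
  have h7 : m ^ 7 ≤ u ^ 7 + v ^ 7 := by
    rcases max_cases u v with ⟨e, -⟩ | ⟨e, -⟩ <;> rw [hm, e]
    · linarith [pow_nonneg hv 7]
    · linarith [pow_nonneg hu 7]
  have h8 : m ^ 4 * (a * (2 * m ^ 2) * (5 + 16 * m)) = a * (10 * m ^ 6 + 32 * m ^ 7) := by ring
  rw [h8] at h5
  exact h5.trans (mul_le_mul_of_nonneg_left (by linarith) ha)

theorem near {t d a : ℝ} (h0 : t ≠ 0) (h1 : t ≠ -1) (h2 : |t| ≤ 2) (ha : 0 ≤ a)
    (hd : d ≤ a * (|t| ^ (-1 / 4 : ℝ) + |1 + t| ^ (-1 / 4 : ℝ))) :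
    |t| ^ (-1 / 2 : ℝ) * (d * (1 + |Real.log (|1 + 1 / t|)|))
      ≤ a * (10 + 42 * (|t| ^ (-7 / 8 : ℝ) + |1 + t| ^ (-7 / 8 : ℝ))) := by
  have hx : 0 < |t| := abs_pos.2 h0
  have hy : 0 < |1 + t| := abs_pos.2 fun e => h1 (by linarith)
  have hy3 : |1 + t| ≤ 3 := by
    have := abs_add_le 1 t
    rw [abs_one] at this
    linarith
  rw [pw hx (-1 / 8) (-1 / 4) 2 (by norm_num), pw hy (-1 / 8) (-1 / 4) 2 (by norm_num)] at hd
  rw [pw hx (-1 / 8) (-1 / 2) 4 (by norm_num), pw hx (-1 / 8) (-7 / 8) 7 (by norm_num),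
    pw hy (-1 / 8) (-7 / 8) 7 (by norm_num)]
  exact alg (Real.rpow_nonneg hx.le _) (Real.rpow_nonneg hy.le _) ha (abs_nonneg _) hd
    ((lg_le h0 h1).trans (add_le_add (log_mid hy hy3) (log_mid hx (by linarith))))

theorem far {t d a : ℝ} (h2 : 2 ≤ |t|) (ha : 0 ≤ a)
    (hd : d ≤ a * (|t| ^ (-3 / 4 : ℝ) + |1 + t| ^ (-3 / 4 : ℝ))) :
    |t| ^ (-1 / 2 : ℝ) * (d * (1 + |Real.log (|1 + 1 / t|)|))
      ≤ a * (64 * (1 + ‖t‖) ^ (-(5 / 4) : ℝ)) := by
  have hx : 0 < |t| := by linarith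
  have hy : |t| - 1 ≤ |1 + t| := by
    have := abs_sub (1 + t) 1
    rw [abs_one, add_sub_cancel_left] at this
    linarith
  set z := (1 + |t|) / 4 with hz
  have hz0 : 0 < z := by positivity
  have b1 : |t| ^ (-1 / 2 : ℝ) ≤ z ^ (-1 / 2 : ℝ) :=
    Real.rpow_le_rpow_of_nonpos hz0 (by linarith) (by norm_num)
  have b2 : |t| ^ (-3 / 4 : ℝ) ≤ z ^ (-3 / 4 : ℝ) :=
    Real.rpow_le_rpow_of_nonpos hz0 (by linarith) (by norm_num)
  have b3 : |1 + t| ^ (-3 / 4 : ℝ) ≤ z ^ (-3 / 4 : ℝ) :=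
    Real.rpow_le_rpow_of_nonpos hz0 (by linarith) (by norm_num)
  have b4 : |Real.log (|1 + 1 / t|)| ≤ 1 := by
    have c1 : |1 / t| ≤ 1 / 2 := by
      rw [abs_div, abs_one]
      exact one_div_le_one_div_of_le two_pos h2
    have c2 := abs_le.1 c1
    rw [abs_of_pos (show 0 < 1 + 1 / t by linarith), abs_le]
    have c3 := Real.log_le_sub_one_of_pos (show 0 < 1 + 1 / t by linarith)
    have c4 := Real.one_sub_inv_le_log_of_pos (show 0 < 1 + 1 / t by linarith)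
    have c5 : (1 + 1 / t)⁻¹ ≤ 2 := inv_le_of_inv_le₀ two_pos (by linarith)
    constructor <;> linarith
  have p1 : 0 ≤ z ^ (-3 / 4 : ℝ) := Real.rpow_nonneg hz0.le _
  have b5 : d * (1 + |Real.log (|1 + 1 / t|)|) ≤ a * (2 * z ^ (-3 / 4 : ℝ)) * 2 :=
    mul_le_mul (hd.trans (mul_le_mul_of_nonneg_left (by linarith) ha)) (by linarith)
      (by positivity) (by positivity)
  have b6 : z ^ (-1 / 2 : ℝ) * z ^ (-3 / 4 : ℝ) ≤ 16 * (1 + ‖t‖) ^ (-(5 / 4) : ℝ) := by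
    rw [← Real.rpow_add hz0, hz, Real.div_rpow (by positivity) (by norm_num), Real.norm_eq_abs,
      show (-1 / 2 + -3 / 4 : ℝ) = -(5 / 4) by norm_num, Real.rpow_neg (show (0 : ℝ) ≤ 4 by norm_num),
      div_inv_eq_mul, mul_comm]
    refine mul_le_mul_of_nonneg_right ?_ (by positivity)
    have := Real.rpow_le_rpow_of_exponent_le (show (1 : ℝ) ≤ 4 by norm_num)
      (show (5 / 4 : ℝ) ≤ 2 by norm_num)
    rw [Real.rpow_two] at this
    linarith
  calc _ ≤ z ^ (-1 / 2 : ℝ) * (a * (2 * z ^ (-3 / 4 : ℝ)) * 2) :=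
        (mul_le_mul_of_nonneg_left b5 (by positivity)).trans
          (mul_le_mul_of_nonneg_right b1 (by positivity))
    _ = a * (4 * (z ^ (-1 / 2 : ℝ) * z ^ (-3 / 4 : ℝ))) := by ring
    _ ≤ _ := mul_le_mul_of_nonneg_left (by linarith) ha

theorem spike {t : ℝ} (h1 : t ≠ -1) (h2 : |1 + t| ≤ 1 / 10) :
    |t| ^ (-1 / 2 : ℝ) * (|Real.log (|1 + 1 / t|)| * (1 + |Real.log (|1 + 1 / t|)|))
      ≤ 60 * |1 + t| ^ (-1 / 2 : ℝ) := by
  have h3 := abs_le.1 h2
  have ht : |t| = -t := abs_of_neg (by linarith)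
  have h0 : t ≠ 0 := fun e => by rw [e] at h3; linarith
  have hy : 0 < |1 + t| := abs_pos.2 fun e => h1 (by linarith)
  have b1 : |t| ^ (-1 / 2 : ℝ) ≤ 2 := by
    have c1 : |t| ^ (-1 / 2 : ℝ) ≤ (1 / 2 : ℝ) ^ (-1 / 2 : ℝ) :=
      Real.rpow_le_rpow_of_nonpos (by norm_num) (by linarith) (by norm_num)
    have c2 : (1 / 2 : ℝ) ^ (-1 / 2 : ℝ) ≤ (1 / 2 : ℝ) ^ (-1 : ℝ) :=
      Real.rpow_le_rpow_of_exponent_ge (by norm_num) (by norm_num) (by norm_num)
    rw [Real.rpow_neg_one] at c2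
    linarith
  have b2 : |Real.log (|t|)| ≤ 1 := by
    have hx : 0 < |t| := abs_pos.2 h0
    have c3 := Real.log_le_sub_one_of_pos hx
    have c4 := Real.one_sub_inv_le_log_of_pos hx
    have c5 : |t|⁻¹ ≤ 2 := inv_le_of_inv_le₀ two_pos (by linarith)
    rw [abs_le]
    constructor <;> linarith
  have b3 := log_small hy (by linarith) (show (0 : ℝ) < 1 / 4 by norm_num)
  have b4 : 1 ≤ |1 + t| ^ (-(1 / 4) : ℝ) :=
    Real.one_le_rpow_of_pos_of_le_one_of_nonpos hy (by linarith) (by norm_num)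
  have b5 := lg_le h0 h1
  rw [pw hy (-(1 / 4)) (-1 / 2) 2 (by norm_num)]
  set w := |1 + t| ^ (-(1 / 4) : ℝ)
  set l := |Real.log (|1 + 1 / t|)|
  have l0 : 0 ≤ l := abs_nonneg _
  have b6 : l * (1 + l) ≤ 5 * w * (6 * w) :=
    mul_le_mul (by linarith) (by linarith) (by linarith) (by linarith)
  have b7 := mul_le_mul b1 b6 (by positivity) (by norm_num)
  linarith

/-- the majorant -/
noncomputable def G (t : ℝ) : ℝ :=
  (Icc (-2 : ℝ) 2).indicator (fun t => 10 + 42 * (|t| ^ (-7 / 8 : ℝ) + |1 + t| ^ (-7 / 8 : ℝ))) t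
    + 64 * (1 + ‖t‖) ^ (-(5 / 4) : ℝ)

theorem G_int : Integrable G := by
  refine Integrable.add ?_ ((integrable_one_add_norm (by simp; norm_num)).const_mul _)
  rw [integrable_indicator_iff measurableSet_Icc,
    ← intervalIntegrable_iff_integrableOn_Icc_of_le (by norm_num)]
  have h1 := (int_sym (r := -7 / 8) (c := 2) (by norm_num) (by norm_num)).1
  have h2 := ((int_sym (r := -7 / 8) (c := 3) (by norm_num) (by norm_num)).1.comp_add_left 1).mono_set
    (c := -2) (d := 2) (uIcc_subset_uIcc (mem_uIcc.2 (by norm_num)) (mem_uIcc.2 (by norm_num)))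
  exact intervalIntegrable_const.add ((h1.add h2).const_mul _)

theorem ae_ne : ∀ᵐ t : ℝ, t ≠ 0 ∧ t ≠ -1 :=
  (Measure.ae_ne volume 0).and (Measure.ae_ne volume (-1))

end WlB

open WlB in
theorem wlS : WlS := by
  refine ⟨max 240 (∫ t, G t), le_max_of_le_left (by norm_num), fun Δ a hΔ ha h => ?_,
    fun η h0 h1 => ?_⟩
  · have hb : ∀ᵐ t : ℝ, |t| ^ (-1 / 2 : ℝ) * (|Δ t| * (1 + |Real.log (|1 + 1 / t|)|)) ≤ a * G t := by
      filter_upwards [ae_ne] with t ht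
      unfold G
      rcases le_total |t| 2 with h2 | h2
      · rw [indicator_of_mem (mem_Icc.2 (abs_le.1 h2))]
        refine (near ht.1 ht.2 h2 ha (h t ht.1 ht.2).1).trans (mul_le_mul_of_nonneg_left ?_ ha)
        exact le_add_of_nonneg_right (by positivity)
      · refine (far h2 ha (h t ht.1 ht.2).2).trans (mul_le_mul_of_nonneg_left ?_ ha)
        exact le_add_of_nonneg_left (indicator_nonneg (fun _ _ => by positivity) t)
    have hn : ∀ t : ℝ, 0 ≤ |t| ^ (-1 / 2 : ℝ) * (|Δ t| * (1 + |Real.log (|1 + 1 / t|)|)) :=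
      fun t => by positivity
    refine ⟨(G_int.const_mul a).mono' ?_ ?_, ?_⟩
    · have m1 : Measurable fun t : ℝ => |t| ^ (-1 / 2 : ℝ) := by fun_prop
      have m2 : Measurable fun t : ℝ => 1 + |Real.log (|1 + 1 / t|)| := by fun_prop
      exact m1.aestronglyMeasurable.mul
        ((continuous_abs.comp_aestronglyMeasurable hΔ).mul m2.aestronglyMeasurable)
    · filter_upwards [hb] with t ht
      rwa [Real.norm_of_nonneg (hn t)]
    · refine (integral_mono_of_nonneg (Filter.Eventually.of_forall hn) (G_int.const_mul a) hb).trans ?_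
      rw [integral_const_mul, mul_comm]
      exact mul_le_mul_of_nonneg_right (le_max_right _ _) ha
  · have e : {t : ℝ | |1 + t| ≤ η} = Icc (-η - 1) (η - 1) := by
      ext t
      simp only [mem_ofPred_eq, mem_Icc, abs_le]
      constructor <;> rintro ⟨a, b⟩ <;> constructor <;> linarith
    obtain ⟨i1, i2⟩ := int_sym (r := -1 / 2) (c := η) (by norm_num) h0.le
    have hle : -η - 1 ≤ η - 1 := by linarith
    have i3 := (intervalIntegrable_iff_integrableOn_Icc_of_le hle).1 (i1.comp_add_left 1)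
    have i4 : ∫ t in Icc (-η - 1) (η - 1), |1 + t| ^ (-1 / 2 : ℝ) = 4 * √η := by
      rw [integral_Icc_eq_integral_Ioc, ← intervalIntegral.integral_of_le hle,
        intervalIntegral.integral_comp_add_left (fun x : ℝ => |x| ^ (-1 / 2 : ℝ)),
        add_sub_cancel, add_sub_cancel, i2, Real.sqrt_eq_rpow]
      norm_num
      ring
    rw [e]
    refine (integral_mono_of_nonneg (Filter.Eventually.of_forall fun t => by positivity)
      (i3.const_mul 60) ?_).trans ?_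
    · filter_upwards [ae_restrict_of_ae ae_ne, ae_restrict_mem measurableSet_Icc] with t ht hm
      refine spike ht.2 (abs_le.2 ⟨?_, ?_⟩) <;> linarith [hm.1, hm.2]
    · rw [integral_const_mul, i4, ← mul_assoc]
      exact mul_le_mul_of_nonneg_right (le_max_of_le_left (by norm_num)) (Real.sqrt_nonneg _)

end Pool.Agent.MP_20b2fd_nt.H96
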