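import Pool.Agent.MP_20b2fd_nt.F5.Spec
import Pool.Agent.MP_20b2fd_nt.H96.AllK
import Pool.Agent.MP_20b2fd_nt.H96.KM
import Pool.Agent.MP_20b2fd_nt.H96.Be
import Pool.Agent.MP_20b2fd_nt.H96.Pm
import Pool.Agent.MP_20b2fd_nt.H96.Ro1
import Pool.Agent.MP_20b2fd_nt.H96.Rot
import Pool.Agent.MP_20b2fd_nt.H96.Mw
import Pool.Agent.MP_20b2fd_nt.H96.Wl

/-! The archimedean inputs of the fourth moment block. -/

set_option autoImplicit false

namespace Pool.Agent.MP_20b2fd_nt.H96.All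

open Complex Pool.Agent.MP_20b2fd_nt.H38

theorem kbS : F5.KBS := fun s u hs hu => by
  have h := kb (pmOf beS) (rotOf (pmOf beS) ro1S) hs (u := u) (by rw [hu]; norm_num)
    (by rw [hu]; norm_num)
  refine ⟨h.1, ?_⟩
  have h2 := h.2
  rw [mul_assoc (2 * _), mul_assoc (-2 * _)] at h2
  exact h2

theorem kmS : F5.KMS := by
  obtain ⟨A, A1, hA⟩ := ku
  obtain ⟨B, B1, hB⟩ := kmOf mwS wlS All.ker klim
  refine ⟨A + B, by linarith, fun U hU => ⟨a1_near hU, fun t h1 h2 => (hA U t hU h1 h2).trans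
    (mul_le_mul_of_nonneg_right (by linarith) (by positivity)), fun η s u h0 h1 hs hu => ?_⟩⟩
  have e : u = 1 / 2 + u.im * I := by
    apply Complex.ext <;> simp [hu]
  have h := hB U η s u.im hU h0 h1 hs
  rw [← e] at h
  have m : B * (U ^ (-1 / 5 : ℝ) + √η) ≤ (A + B) * (U ^ (-1 / 5 : ℝ) + √η) :=
    mul_le_mul_of_nonneg_right (by linarith) (by positivity)
  exact ⟨h.1.trans m, h.2.trans m⟩

end Pool.Agent.MP_20b2fd_nt.H96.All
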