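import Pool.Agent.MP_20b2fd_nt.H96.SpecK

/-! The integral of the majorant of the edge term. -/

set_option autoImplicit false

namespace Pool.Agent.MP_20b2fd_nt.H96

open UpperHalfPlane hiding I
open MeasureTheory Complex Filter Topology Pool.Agent.MP_20b2fd_nt.H38
open scoped Real ENNReal

namespace K2K

theorem one_r {θ y v r : ℝ} (h0 : 0 < θ) (h1 : θ < 1) (hy : 0 < y) (hv : v ≠ 0) (hry : y ≤ r)
    (hrv : |v| ≤ r) : 1 / (r * (1 + r)) ≤ y ^ (-θ) * (|v| ^ (θ - 1) / (1 + |v|)) := by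
  have hv' : 0 < |v| := abs_pos.2 hv
  have hr : 0 < r := hy.trans_le hry
  have e : y ^ θ * |v| ^ (1 - θ) ≤ r := by
    calc y ^ θ * |v| ^ (1 - θ) ≤ r ^ θ * r ^ (1 - θ) := by gcongr
      _ = r := by rw [← Real.rpow_add hr]; simp
  rw [show θ - 1 = -(1 - θ) by ring, Real.rpow_neg hy.le, Real.rpow_neg hv'.le, ← mul_div_assoc,
    ← mul_inv, inv_eq_one_div, div_div]
  exact one_div_le_one_div_of_le (by positivity) (by gcongr)

theorem two_r {a b : ℝ} (ha : 0 < a) (hb : 0 < b) (h : 1 ≤ a + b) :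
    1 / (a * b) ≤ 3 * (1 / (a * (1 + a)) + 1 / (b * (1 + b))) := by
  have key : ∀ a b : ℝ, 0 < a → a ≤ b → 1 ≤ a + b → 1 / (a * b) ≤ 3 * (1 / (a * (1 + a))) := by
    intro a b ha hab h
    have hb := ha.trans_le hab
    rw [mul_one_div, div_le_div_iff₀ (by positivity) (by positivity)]
    nlinarith
  have p1 : 0 ≤ 1 / (a * (1 + a)) := by positivity
  have p2 : 0 ≤ 1 / (b * (1 + b)) := by positivity
  rcases le_total a b with hab | hab
  · linarith [key a b ha hab h]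
  · have := key b a hb hab (by linarith)
    rw [mul_comm b a] at this
    linarith

theorem mEd (U t : ℝ) : Measurable (Ed U t) := by
  have c1 : Measurable fun w : ℍ => w.im := UpperHalfPlane.continuous_im.measurable
  have c2 : Measurable fun w : ℍ => w.re := UpperHalfPlane.continuous_re.measurable
  have c3 : Measurable fun w : ℍ => (w : ℂ) := UpperHalfPlane.continuous_coe.measurable
  unfold Ed
  refine Measurable.ite (measurableSet_le (c1.const_mul U) c2.abs) ?_ measurable_const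
  exact (c1.pow_const 2).div ((c3.norm.mul (c3.sub_const _).norm).mul (c3.sub_const _).norm)

theorem Ed_nonneg (U t : ℝ) (w : ℍ) : 0 ≤ Ed U t w := by
  unfold Ed
  split_ifs <;> positivity

theorem pw (k : KitS) {θ U t x y : ℝ} (h0 : 0 < θ) (h1 : θ < 1) (hy : 0 < y) (hx : x ≠ 0)
    (ha : x - t ≠ 0) (hb : x - (1 + t) ≠ 0) :
    Ed U t (pt x y) * (1 / y ^ 2) ≤ 3 * |x|⁻¹ * (|x - t| ^ (θ - 1) / (1 + |x - t|) +
      |x - (1 + t)| ^ (θ - 1) / (1 + |x - (1 + t)|)) * y ^ (-θ) := by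
  obtain ⟨e1, e2, e3⟩ := k.ptc x y hy
  have hx' : 0 < |x| := abs_pos.2 hx
  unfold Ed
  split_ifs
  swap
  · rw [zero_mul]; positivity
  rw [e3, e1]
  have r0 : |x| ≤ ‖(x : ℂ) + y * I‖ := by simpa using Complex.abs_re_le_norm ((x : ℂ) + y * I)
  have ra : |x - t| ≤ ‖(x : ℂ) + y * I - t‖ := by
    simpa using Complex.abs_re_le_norm ((x : ℂ) + y * I - t)
  have rb : |x - (1 + t)| ≤ ‖(x : ℂ) + y * I - (1 + t)‖ := by
    simpa using Complex.abs_re_le_norm ((x : ℂ) + y * I - (1 + t))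
  have ya : y ≤ ‖(x : ℂ) + y * I - t‖ := by
    simpa using Complex.im_le_norm ((x : ℂ) + y * I - t)
  have yb : y ≤ ‖(x : ℂ) + y * I - (1 + t)‖ := by
    simpa using Complex.im_le_norm ((x : ℂ) + y * I - (1 + t))
  have ab : 1 ≤ ‖(x : ℂ) + y * I - t‖ + ‖(x : ℂ) + y * I - (1 + t)‖ := by
    simpa using norm_sub_le ((x : ℂ) + y * I - t) ((x : ℂ) + y * I - (1 + t))
  have h2 := two_r (hy.trans_le ya) (hy.trans_le yb) ab
  have h3 := one_r h0 h1 hy ha ya ra
  have h4 := one_r h0 h1 hy hb yb rb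
  generalize ‖(x : ℂ) + y * I‖ = r at *
  generalize ‖(x : ℂ) + y * I - t‖ = a at *
  generalize ‖(x : ℂ) + y * I - (1 + t)‖ = b at *
  have pa := hy.trans_le ya
  have pb := hy.trans_le yb
  have pr := hx'.trans_le r0
  calc y ^ 2 / (r * a * b) * (1 / y ^ 2) = r⁻¹ * (1 / (a * b)) := by field_simp
    _ ≤ |x|⁻¹ * (3 * (y ^ (-θ) * (|x - t| ^ (θ - 1) / (1 + |x - t|)) +
        y ^ (-θ) * (|x - (1 + t)| ^ (θ - 1) / (1 + |x - (1 + t)|)))) :=
      mul_le_mul (inv_anti₀ hx' r0) (by linarith) (by positivity) (by positivity)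
    _ = _ := by ring

theorem slice (k : KitS) {θ U t x : ℝ} (h0 : 0 < θ) (h1 : θ < 1) (hU : 1 ≤ U) (hx : x ≠ 0)
    (ha : x - t ≠ 0) (hb : x - (1 + t) ≠ 0) :
    ∫⁻ y in Set.Ioi (0 : ℝ), ENNReal.ofReal (Ed U t (pt x y)) * ENNReal.ofReal (1 / y ^ 2) ≤
      ENNReal.ofReal (3 / (1 - θ) * U ^ (θ - 1) * (|x| ^ (-θ) * (|x - t| ^ (θ - 1) / (1 + |x - t|)) +
        |x| ^ (-θ) * (|x - (1 + t)| ^ (θ - 1) / (1 + |x - (1 + t)|)))) := by
  have hx' : 0 < |x| := abs_pos.2 hx
  have hU0 : 0 < U := by linarith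
  obtain ⟨c, hc⟩ : ∃ c, c = 3 * |x|⁻¹ * (|x - t| ^ (θ - 1) / (1 + |x - t|) +
      |x - (1 + t)| ^ (θ - 1) / (1 + |x - (1 + t)|)) := ⟨_, rfl⟩
  have c0 : 0 ≤ c := by rw [hc]; positivity
  have hs : 0 ≤ |x| / U := by positivity
  have hi : IntervalIntegrable (fun y : ℝ => c * y ^ (-θ)) volume 0 (|x| / U) :=
    (intervalIntegral.intervalIntegrable_rpow' (by linarith)).const_mul c
  calc _ ≤ ∫⁻ y in Set.Ioi (0 : ℝ), (Set.Iic (|x| / U)).indicator
        (fun y => ENNReal.ofReal (c * y ^ (-θ))) y := by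
        refine setLIntegral_mono' measurableSet_Ioi fun y hy => ?_
        rw [← ENNReal.ofReal_mul (Ed_nonneg _ _ _)]
        by_cases h : y ≤ |x| / U
        · rw [Set.indicator_of_mem (Set.mem_Iic.2 h), hc]
          exact ENNReal.ofReal_le_ofReal (pw k h0 h1 hy hx ha hb)
        · obtain ⟨-, e2, e3⟩ := k.ptc x y hy
          rw [Ed, if_neg (by rw [e2, e3, mul_comm, ← le_div_iff₀ hU0]; exact h)]
          simp
    _ = ∫⁻ y in Set.Ioc (0 : ℝ) (|x| / U), ENNReal.ofReal (c * y ^ (-θ)) := by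
        rw [lintegral_indicator measurableSet_Iic, Measure.restrict_restrict measurableSet_Iic,
          Set.Iic_inter_Ioi]
    _ = ENNReal.ofReal (∫ y in (0 : ℝ)..(|x| / U), c * y ^ (-θ)) := by
        rw [intervalIntegral.integral_of_le hs, ofReal_integral_eq_lintegral_ofReal hi.1
          ((ae_restrict_iff' measurableSet_Ioc).2 (Eventually.of_forall fun y hy =>
            mul_nonneg c0 (Real.rpow_nonneg hy.1.le _)))]
    _ = _ := by
        rw [intervalIntegral.integral_const_mul, integral_rpow (Or.inl (by linarith)),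
          Real.zero_rpow (by linarith), Real.div_rpow hx'.le hU0.le, Real.rpow_add_one hx'.ne',
          show θ - 1 = -(-θ + 1) by ring, Real.rpow_neg hU0.le, hc,
          show θ - 1 = -(-θ + 1) by ring]
        congr 1
        have : -θ + 1 ≠ 0 := by linarith
        have : 1 - θ ≠ 0 := by linarith
        field_simp
        ring

end K2K

open K2K in
theorem k2Of : K2Of := by
  intro k k3 θ h0 h1
  obtain ⟨C, hC, hk⟩ := k3 θ h0 h1
  have hθ : 0 < 1 - θ := by linarith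
  have h3 : 1 ≤ 3 / (1 - θ) := by rw [le_div_iff₀ hθ]; linarith
  refine ⟨3 / (1 - θ) * C, one_le_mul_of_one_le_of_one_le h3 hC, fun U t hU ht ht' => ?_⟩
  have hb : 1 + t ≠ 0 := fun h => ht' (by linarith)
  obtain ⟨ia, ba⟩ := hk t ht
  obtain ⟨ib, bb⟩ := hk (1 + t) hb
  have hK : 0 ≤ 3 / (1 - θ) * U ^ (θ - 1) := by
    have : 0 < U := by linarith
    positivity
  have m1 := (mEd U t).ennreal_ofReal
  have key : ∫⁻ w, ENNReal.ofReal (Ed U t w) ≤
      ENNReal.ofReal (3 / (1 - θ) * C * U ^ (θ - 1) * (|t| ^ (-θ) + |1 + t| ^ (-θ))) := by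
    rw [k.lint _ m1, lintegral_lintegral_swap]
    swap
    · exact (((m1.comp k.mpt).comp measurable_swap).mul
        ((measurable_fst.pow_const 2).const_div 1).ennreal_ofReal).aemeasurable
    have ae : ∀ c : ℝ, ∀ᵐ x : ℝ, x - c ≠ 0 := fun c => by
      simp only [sub_ne_zero]; exact Measure.ae_ne volume c
    refine (lintegral_mono_ae ?_).trans ((ofReal_integral_eq_lintegral_ofReal
      ((ia.add ib).const_mul (3 / (1 - θ) * U ^ (θ - 1))) (Eventually.of_forall fun x => ?_)).ge.trans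
      (ENNReal.ofReal_le_ofReal ?_))
    · filter_upwards [ae 0, ae t, ae (1 + t)] with x x0 xa xb
      exact slice k h0 h1 hU (by simpa using x0) xa xb
    · exact mul_nonneg hK (by simp only [Pi.add_apply]; positivity)
    · rw [integral_const_mul, integral_add' ia ib]
      linarith [mul_le_mul_of_nonneg_left (add_le_add ba bb) hK]
  have n1 : 0 ≤ᵐ[volume] Ed U t := Eventually.of_forall (Ed_nonneg U t)
  refine ⟨⟨(mEd U t).aestronglyMeasurable, (hasFiniteIntegral_iff_ofReal n1).2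
    (key.trans_lt ENNReal.ofReal_lt_top)⟩, ?_⟩
  rw [integral_eq_lintegral_of_nonneg_ae n1 (mEd U t).aestronglyMeasurable]
  refine ENNReal.toReal_le_of_le_ofReal ?_ key
  have : 0 < U := by linarith
  positivity

end Pool.Agent.MP_20b2fd_nt.H96
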