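import Pool.Agent.MP_20b2fd_nt.H96.SpecK

/-! Row K3: a convolution bound. -/

set_option autoImplicit false

namespace Pool.Agent.MP_20b2fd_nt.H96

open MeasureTheory Set

namespace K3K

theorem int_abs {f : ℝ → ℝ} (h : IntegrableOn f (Ioi 0)) : Integrable fun x => f |x| := by
  have hf : IntegrableOn (fun x => f |x|) (Ioi 0) :=
    h.congr_fun (fun x hx => by rw [abs_of_pos hx]) measurableSet_Ioi
  have h2 : IntegrableOn (fun x => f |x|) (Iic 0) := by
    have m : MeasurableEmbedding fun x : ℝ => -x := (Homeomorph.neg ℝ).measurableEmbedding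
    rw [← Measure.map_neg_eq_self (volume : Measure ℝ), m.integrableOn_map_iff]
    simp_rw [Function.comp_def, abs_neg, neg_preimage, neg_Iic, neg_zero]
    exact Iff.mpr integrableOn_Ici_iff_integrableOn_Ioi hf
  rw [← integrableOn_univ, ← Iic_union_Ioi (a := (0 : ℝ))]
  exact h2.union hf

theorem int_phi {θ : ℝ} (h0 : 0 < θ) (h1 : θ < 1) :
    IntegrableOn (fun v : ℝ => v ^ (θ - 1) / (1 + v)) (Ioi 0) := by
  have hm : Measurable fun v : ℝ => v ^ (θ - 1) / (1 + v) := by fun_prop
  rw [← Ioc_union_Ioi_eq_Ioi (zero_le_one' ℝ)]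
  refine IntegrableOn.union ?_ ?_
  · refine Integrable.mono' (intervalIntegral.intervalIntegrable_rpow' (r := θ - 1) (a := 0) (b := 1)
      (by linarith)).1 hm.aestronglyMeasurable ?_
    filter_upwards [ae_restrict_mem measurableSet_Ioc] with v hv
    have := hv.1
    rw [Real.norm_of_nonneg (by positivity)]
    exact div_le_self (by positivity) (by linarith)
  · refine Integrable.mono' (integrableOn_Ioi_rpow_of_lt (a := θ - 1 - 1) (by linarith) one_pos)
      hm.aestronglyMeasurable ?_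
    filter_upwards [ae_restrict_mem measurableSet_Ioi] with v hv
    have : 0 < v := one_pos.trans hv
    rw [Real.norm_of_nonneg (by positivity), Real.rpow_sub_one this.ne' (θ - 1)]
    exact div_le_div_of_nonneg_left (by positivity) this (by linarith)

theorem int_cut {θ v : ℝ} (h1 : θ < 1) (hv : 0 < v) :
    (Integrable fun x : ℝ => (Iic v).indicator (fun y : ℝ => y ^ (-θ)) |x|) ∧
      ∫ x : ℝ, (Iic v).indicator (fun y : ℝ => y ^ (-θ)) |x| = 2 * (v ^ (1 - θ) / (1 - θ)) := by
  have h := intervalIntegral.intervalIntegrable_rpow' (r := -θ) (a := 0) (b := v) (by linarith)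
  refine ⟨int_abs ?_, ?_⟩
  · rw [integrableOn_indicator_iff measurableSet_Iic, inter_comm, Ioi_inter_Iic]
    exact h.1
  · rw [integral_comp_abs, setIntegral_indicator measurableSet_Iic, Ioi_inter_Iic,
      ← intervalIntegral.integral_of_le hv.le, integral_rpow (Or.inl (by linarith)),
      Real.zero_rpow (by linarith), sub_zero, neg_add_eq_sub]

theorem inv_le {θ v : ℝ} (h0 : 0 < θ) (h1 : θ < 1) (hv : 0 < v) : 1 / (1 + v) ≤ v ^ (-θ) := by
  rw [Real.rpow_neg hv.le, one_div]
  refine inv_anti₀ (by positivity) ?_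
  rcases le_total v 1 with h | h
  · linarith [Real.rpow_le_one hv.le h h0.le]
  · linarith [Real.rpow_le_self_of_one_le h h1.le]

theorem core {θ : ℝ} (h0 : 0 < θ) (h1 : θ < 1) {c : ℝ} (hc : c ≠ 0) :
    (Integrable fun x : ℝ => |x| ^ (-θ) * (|x - c| ^ (θ - 1) / (1 + |x - c|))) ∧
    ∫ x : ℝ, |x| ^ (-θ) * (|x - c| ^ (θ - 1) / (1 + |x - c|)) ≤
      2 * ((∫ x : ℝ, |x| ^ (θ - 1) / (1 + |x|)) + 2 / (1 - θ)) * |c| ^ (-θ) := by
  have hφ := int_abs (int_phi h0 h1)
  set K : ℝ := ∫ x : ℝ, |x| ^ (θ - 1) / (1 + |x|) with hK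
  have hK0 : 0 ≤ K := integral_nonneg fun x => by positivity
  have hθ : 0 < 1 - θ := by linarith
  have hc0 : 0 < |c| := abs_pos.2 hc
  set v := |c| / 2 with hv
  have hv0 : 0 < v := by positivity
  obtain ⟨i1, i2⟩ := int_cut h1 hv0
  have j1 := (hφ.comp_sub_right c).const_mul (v ^ (-θ))
  have j2 := i1.mul_const (v ^ (θ - 1) / (1 + v))
  have hle : ∀ x : ℝ, |x| ^ (-θ) * (|x - c| ^ (θ - 1) / (1 + |x - c|)) ≤
      v ^ (-θ) * (|x - c| ^ (θ - 1) / (1 + |x - c|)) +
        (Iic v).indicator (fun y : ℝ => y ^ (-θ)) |x| * (v ^ (θ - 1) / (1 + v)) := fun x => by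
    by_cases hx : |x| ≤ v
    · have h2 : v ≤ |x - c| := by
        have := abs_sub_abs_le_abs_sub c x
        rw [abs_sub_comm] at this
        linarith
      rw [indicator_of_mem (mem_Iic.2 hx)]
      refine le_add_of_nonneg_of_le (by positivity) (mul_le_mul_of_nonneg_left ?_ (by positivity))
      exact div_le_div₀ (by positivity) (Real.rpow_le_rpow_of_nonpos hv0 h2 (by linarith))
        (by positivity) (by linarith)
    · rw [indicator_of_notMem (fun h => hx (mem_Iic.1 h)), zero_mul, add_zero]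
      exact mul_le_mul_of_nonneg_right
        (Real.rpow_le_rpow_of_nonpos hv0 (not_le.1 hx).le (by linarith)) (by positivity)
  have hi : Integrable fun x : ℝ => |x| ^ (-θ) * (|x - c| ^ (θ - 1) / (1 + |x - c|)) :=
    (j1.add j2).mono' (Measurable.aestronglyMeasurable (by fun_prop))
      (Filter.Eventually.of_forall fun x => by
        rw [Real.norm_of_nonneg (by positivity)]
        exact hle x)
  refine ⟨hi, ((integral_mono hi (j1.add j2) hle).trans_eq (integral_add j1 j2)).trans ?_⟩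
  rw [integral_const_mul, integral_mul_const, i2,
    integral_sub_right_eq_self (fun x : ℝ => |x| ^ (θ - 1) / (1 + |x|)) c, ← hK]
  have e1 : v ^ (1 - θ) * v ^ (θ - 1) = 1 := by
    rw [← Real.rpow_add hv0]
    simp
  have e2 : 2 * (v ^ (1 - θ) / (1 - θ)) * (v ^ (θ - 1) / (1 + v)) = 2 / (1 - θ) * (1 / (1 + v)) := by
    linear_combination 2 / (1 - θ) * (1 / (1 + v)) * e1
  have e3 := mul_le_mul_of_nonneg_left (inv_le h0 h1 hv0) (by positivity : 0 ≤ 2 / (1 - θ))
  have e4 : v ^ (-θ) ≤ 2 * |c| ^ (-θ) := by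
    rw [hv, Real.div_rpow hc0.le zero_le_two, Real.rpow_neg zero_le_two, div_inv_eq_mul, mul_comm]
    exact mul_le_mul_of_nonneg_right (Real.rpow_le_self_of_one_le one_le_two h1.le) (by positivity)
  have e5 := mul_le_mul_of_nonneg_left e4 (by positivity : 0 ≤ K + 2 / (1 - θ))
  rw [e2]
  linarith

end K3K

theorem k3S : K3S := by
  intro θ h0 h1
  have hK0 : 0 ≤ ∫ x : ℝ, |x| ^ (θ - 1) / (1 + |x|) := integral_nonneg fun x => by positivity
  have hθ : 0 < 1 - θ := by linarith
  refine ⟨1 + 2 * ((∫ x : ℝ, |x| ^ (θ - 1) / (1 + |x|)) + 2 / (1 - θ)),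
    le_add_of_nonneg_right (by positivity), fun c hc => ⟨(K3K.core h0 h1 hc).1, ?_⟩⟩
  exact (K3K.core h0 h1 hc).2.trans
    (mul_le_mul_of_nonneg_right (le_add_of_nonneg_left zero_le_one) (by positivity))

end Pool.Agent.MP_20b2fd_nt.H96
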