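import Mathlib

/-! Statements of the Mellin rows of block K.
Paper proof: /team-store/MP_20b2fd_H96_B.md -/

set_option autoImplicit false

namespace Pool.Agent.MP_20b2fd_nt.H96

open MeasureTheory Complex Set
open scoped Real

noncomputable def lgp (x : ℝ) : ℂ := Real.log (1 + 1 / x)

noncomputable def lgm (x : ℝ) : ℂ := Real.log |1 - 1 / x|

/-- two Beta integrals -/
def BeS : Prop :=
  ∀ u : ℂ, 0 < u.re → u.re < 1 →
    IntegrableOn (fun y : ℝ => (y : ℂ) ^ (u - 1) * (1 - y : ℂ) ^ (-u)) (Ioo 0 1) ∧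
    IntegrableOn (fun y : ℝ => (y : ℂ) ^ (u - 1) * (1 - y : ℂ) ^ (-u) * Real.log y) (Ioo 0 1) ∧
    ∫ y in Ioo (0 : ℝ) 1, (y : ℂ) ^ (u - 1) * (1 - y : ℂ) ^ (-u) = π / sin (π * u) ∧
    ∫ y in Ioo (0 : ℝ) 1, (y : ℂ) ^ (u - 1) * (1 - y : ℂ) ^ (-u) * Real.log y =
      deriv Gamma u * Gamma (1 - u) + Real.eulerMascheroniConstant * (π / sin (π * u))

/-- the Mellin transforms on the positive axis -/
def PmS : Prop :=
  ∀ u : ℂ, 0 < u.re → u.re < 1 →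
    MellinConvergent lgp u ∧ MellinConvergent (fun x => lgp x ^ 2) u ∧
    mellin lgp u = π / (u * sin (π * u)) ∧
    mellin (fun x => lgp x ^ 2) u =
      -(2 / u) * (deriv Gamma u * Gamma (1 - u) + Real.eulerMascheroniConstant * (π / sin (π * u)))

/-- the rotation of the ray -/
def Ro1S : Prop :=
  ∀ (u : ℂ) (k : ℕ) (θ : ℝ), 0 < u.re → u.re < 1 → 1 ≤ k → |θ| < π →
    exp (θ * I * u) * mellin (fun x => log (1 + 1 / (x * exp (θ * I))) ^ k) u =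
      mellin (fun x => lgp x ^ k) u

/-- the Mellin transforms on the negative axis -/
def RotS : Prop :=
  ∀ u : ℂ, 0 < u.re → u.re < 1 →
    MellinConvergent lgm u ∧ MellinConvergent (fun x => lgm x ^ 2) u ∧
    mellin lgm u = cos (π * u) * mellin lgp u ∧
    mellin (fun x => lgm x ^ 2) u = cos (π * u) * mellin (fun x => lgp x ^ 2) u + π ^ 2 / u

/-- Mellin transforms on the central line are bounded by a weighted norm -/
def MwS : Prop :=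
  ∀ (k : ℝ → ℝ) (s τ : ℝ), |s| = 1 → (Integrable fun t => |t| ^ (-1 / 2 : ℝ) * k t) →
    MellinConvergent (fun x => ((k (-x) + s * k x : ℝ) : ℂ)) (1 / 2 + τ * I) ∧
    ‖mellin (fun x => ((k (-x) + s * k x : ℝ) : ℂ)) (1 / 2 + τ * I)‖ ≤
      ∫ t, |t| ^ (-1 / 2 : ℝ) * |k t|

/-- weighted norms -/
def WlS : Prop :=
  ∃ C : ℝ, 1 ≤ C ∧
    (∀ (Δ : ℝ → ℝ) (a : ℝ), AEStronglyMeasurable Δ → 0 ≤ a →
      (∀ t, t ≠ 0 → t ≠ -1 → |Δ t| ≤ a * (|t| ^ (-1 / 4 : ℝ) + |1 + t| ^ (-1 / 4 : ℝ)) ∧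
        |Δ t| ≤ a * (|t| ^ (-3 / 4 : ℝ) + |1 + t| ^ (-3 / 4 : ℝ))) →
      (Integrable fun t => |t| ^ (-1 / 2 : ℝ) * (|Δ t| * (1 + |Real.log (|1 + 1 / t|)|))) ∧
      ∫ t, |t| ^ (-1 / 2 : ℝ) * (|Δ t| * (1 + |Real.log (|1 + 1 / t|)|)) ≤ C * a) ∧
    ∀ η : ℝ, 0 < η → η ≤ 1 / 10 →
      ∫ t in {t : ℝ | |1 + t| ≤ η},
        |t| ^ (-1 / 2 : ℝ) * (|Real.log (|1 + 1 / t|)| * (1 + |Real.log (|1 + 1 / t|)|)) ≤ C * √η

def PmOf : Prop := BeS → PmS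
def RotOf : Prop := PmS → Ro1S → RotS

end Pool.Agent.MP_20b2fd_nt.H96
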