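import Pool.Agent.MP_20b2fd_nt.H38.SpecC
import Pool.Agent.MP_20b2fd_nt.H96.SpecB

/-! The Mellin transform of the limit kernel against the gamma factors. -/

set_option autoImplicit false

namespace Pool.Agent.MP_20b2fd_nt.H96

open MeasureTheory Complex Set Filter Topology Pool.Agent.MP_20b2fd_nt.H38
open scoped Real

namespace KBK

theorem mel_eq {k : ℝ → ℝ} {f g : ℝ → ℂ} {s : ℝ} {u : ℂ} (hf : MellinConvergent f u)
    (hg : MellinConvergent g u) (h1 : ∀ x, 0 < x → (k (-x) : ℂ) = π * f x)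
    (h2 : ∀ x, 0 < x → (k x : ℂ) = π * g x) :
    mel k s u = π * (mellin f u + s * mellin g u) := by
  unfold mel mellin
  rw [← integral_const_mul, ← integral_add hf (hg.const_mul _), ← integral_const_mul]
  refine setIntegral_congr_fun measurableSet_Ioi fun x hx => ?_
  simp only [fe, ofReal_add, ofReal_mul, h1 x hx, h2 x hx, smul_eq_mul]
  ring

theorem sin_ne {u : ℂ} (h0 : 0 < u.re) (h1 : u.re < 1) : sin (π * u) ≠ 0 := by
  intro h
  have := Gamma_mul_Gamma_one_sub u
  rw [h, div_zero] at this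
  exact mul_ne_zero (Gamma_ne_zero_of_re_pos h0)
    (Gamma_ne_zero_of_re_pos (by simp; linarith)) this

theorem dG {u : ℂ} (h0 : 0 < u.re) : HasDerivAt Gamma (deriv Gamma u) u :=
  (differentiableAt_Gamma u fun m h => by
    have := congrArg re h
    simp at this
    linarith [Nat.cast_nonneg (α := ℝ) m]).hasDerivAt

theorem refl {u : ℂ} (h0 : 0 < u.re) (h1 : u.re < 1) :
    deriv Gamma u * Gamma (1 - u) =
      Gamma u * deriv Gamma (1 - u) - π ^ 2 * cos (π * u) / sin (π * u) ^ 2 := by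
  have a := (dG h0).mul ((dG (u := 1 - u) (by simp; linarith)).comp u
    ((hasDerivAt_id u).const_sub 1))
  have b := (hasDerivAt_const u (π : ℂ)).div (((hasDerivAt_id u).const_mul (π : ℂ)).csin)
    (sin_ne h0 h1)
  have e : (Gamma * Gamma ∘ HSub.hSub 1) = (fun _ => (π : ℂ)) / fun y => sin (π * id y) :=
    funext fun z => Gamma_mul_Gamma_one_sub z
  have := a.unique (e ▸ b)
  simp only [Function.comp, id] at this
  linear_combination this

end KBK

noncomputable def lg (t : ℝ) : ℝ := Real.log |1 + 1 / t|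

noncomputable def Ys (s : ℝ) (u : ℂ) : ℂ :=
  2 * (2 * π) ^ (2 * u - 2) * Gamma (1 - u) ^ 2 * (1 - s * cos (π * u))

noncomputable def Gu (u : ℂ) : ℂ := (2 * π) ^ (2 * u) * Gamma (1 - u) / Gamma (1 + u)

open KBK in
theorem kb (hP : PmS) (hR : RotS) {s : ℝ} (hs : s = 1 ∨ s = -1) {u : ℂ} (h0 : 0 < u.re)
    (h1 : u.re < 1) :
    mel (fun t => π * lg t) s u * Ys s u = s * π / 2 * Gu u ∧
    mel (fun t => π * lg t ^ 2) s u * Ys s u - mel (fun t => π * lg t) s u * deriv (Ys s) u +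
        2 * Real.eulerMascheroniConstant * mel (fun t => π * lg t) s u * Ys s u =
      -2 * Real.log (2 * π) * mel (fun t => π * lg t) s u * Ys s u := by
  obtain ⟨p1, p2, p3, p4⟩ := hP u h0 h1
  obtain ⟨r1, r2, r3, r4⟩ := hR u h0 h1
  have a1 : ∀ x : ℝ, lg (-x) = Real.log |1 - 1 / x| := fun x => by
    rw [lg, div_neg, ← sub_eq_add_neg]
  have a2 : ∀ x : ℝ, lg x = Real.log (1 + 1 / x) := fun x => by rw [lg, Real.log_abs]
  have m0 := mel_eq (k := fun t => π * lg t) (s := s) r1 p1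
    (fun x _ => by simp only [a1, lgm, ofReal_mul]) fun x _ => by simp only [a2, lgp, ofReal_mul]
  have m1 := mel_eq (k := fun t => π * lg t ^ 2) (s := s) r2 p2
    (fun x _ => by simp only [a1, lgm, ofReal_mul, ofReal_pow])
    fun x _ => by simp only [a2, lgp, ofReal_mul, ofReal_pow]
  have S0 := sin_ne h0 h1
  have u0 : u ≠ 0 := fun h => by simp [h] at h0
  have h2 : 0 < (1 - u).re := by simp; linarith
  have G0 := Gamma_ne_zero_of_re_pos h2
  have π0 : (2 * π : ℂ) ≠ 0 := mul_ne_zero two_ne_zero (ofReal_ne_zero.2 Real.pi_ne_zero)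
  have π1 : (π : ℂ) ≠ 0 := ofReal_ne_zero.2 Real.pi_ne_zero
  have g : Gamma u = π / (sin (π * u) * Gamma (1 - u)) := by
    rw [← div_div, ← Gamma_mul_Gamma_one_sub, mul_div_cancel_right₀ _ G0]
  have s2 : (s : ℂ) ^ 2 = 1 := by rcases hs with h | h <;> simp [h]
  have key : (cos (π * u) + s) * (1 - s * cos (π * u)) = s * sin (π * u) ^ 2 := by
    linear_combination (-(s : ℂ)) * sin_sq_add_cos_sq (π * u) - cos (π * u) * s2
  have dY : deriv (Ys s) u = 2 * ((2 * π) ^ (2 * u - 2) * Real.log (2 * π) * 2) *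
      Gamma (1 - u) ^ 2 * (1 - s * cos (π * u)) -
      4 * (2 * π) ^ (2 * u - 2) * Gamma (1 - u) * deriv Gamma (1 - u) * (1 - s * cos (π * u)) +
      2 * (2 * π) ^ (2 * u - 2) * Gamma (1 - u) ^ 2 * (s * π * sin (π * u)) := by
    have d1 := (((hasDerivAt_id u).const_mul 2).sub_const 2).const_cpow (c := 2 * π) (.inl π0)
    have d2 := (dG h2).comp u ((hasDerivAt_id u).const_sub 1)
    have d3 := ((((hasDerivAt_id u).const_mul (π : ℂ)).ccos).const_mul (s : ℂ)).const_sub 1
    have d := ((d1.const_mul 2).mul (d2.pow 2)).mul d3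
    have l : log (2 * π) = Real.log (2 * π) := by
      rw [ofReal_log (by positivity)]; push_cast; rfl
    refine (HasDerivAt.deriv d).trans ?_
    simp only [Function.comp, id, Pi.mul_apply, Pi.pow_apply, l]
    ring
  have c2 : (2 * π : ℂ) ^ (2 * u) = (2 * π) ^ (2 * u - 2) * (2 * π) ^ 2 := by
    rw [cpow_sub _ _ π0, cpow_two, div_mul_cancel₀ _ (pow_ne_zero 2 π0)]
  rw [m0, m1, r3, r4, p3, p4, dY, refl h0 h1, Gu, add_comm 1 u, Gamma_add_one u u0, c2, g, Ys]
  generalize sin (π * u) = S at *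
  generalize cos (π * u) = c at *
  generalize Gamma (1 - u) = G at *
  generalize deriv Gamma (1 - u) = G1 at *
  generalize (2 * π : ℂ) ^ (2 * u - 2) = A at *
  constructor
  · have : π * (c * (π / (u * S)) + s * (π / (u * S))) * (2 * A * G ^ 2 * (1 - s * c)) =
        2 * π ^ 2 * A * G ^ 2 / (u * S) * ((c + s) * (1 - s * c)) := by ring
    rw [this, key]
    field_simp
  · rw [← sub_eq_zero]
    refine Eq.trans (b := 2 * A * G ^ 2 * π / u * (2 * π ^ 2 * c / S ^ 2 *
      ((c + s) * (1 - s * c) - s * S ^ 2) + π ^ 2 * (1 - s ^ 2))) ?_ (by rw [key, s2]; ring)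
    field_simp
    ring

end Pool.Agent.MP_20b2fd_nt.H96
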