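import Pool.Agent.MP_20b2fd_nt.H38.SpecA

/-! Statements of the archimedean rows: limits of the kernel and of the constant.
Paper proof: /team-store/MP_20b2fd_H96_K.md -/

set_option autoImplicit false

namespace Pool.Agent.MP_20b2fd_nt.H96

open UpperHalfPlane hiding I
open MeasureTheory Complex Finset Filter Topology Pool.Agent.MP_20b2fd_nt.H38
open scoped Real FourierTransform

/-- integration against the tube along rays -/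
def RayS : Prop :=
  ∀ (U : ℝ) (F : ℍ → ℂ), 1 ≤ U → Measurable F → Integrable (pe F (ph U)) →
    (Integrable fun u : ℝ =>
      (starRingEnd ℂ) (be U u) * ∫ y in Set.Ioi (0 : ℝ), F (pt (y * u) y)) ∧
    ∫ z, pe F (ph U) z =
      ∫ u : ℝ, (starRingEnd ℂ) (be U u) * ∫ y in Set.Ioi (0 : ℝ), F (pt (y * u) y)

/-- the mass of the tube -/
def A1S : Prop := ∀ U : ℝ, 1 ≤ U → π - 2 / U ≤ a1 U

/-- the Fourier transform of the profile -/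
def FoS : Prop :=
  ∃ C : ℝ, 1 ≤ C ∧ ∀ U ξ : ℝ, 1 ≤ U → ξ ≠ 0 →
    ‖𝓕 (be U) ξ - (if 0 < ξ then -(2 * π * I) * Real.exp (-2 * π * ξ) else 0)‖ ≤ C / (U * ξ) ^ 2

/-- the sum of the translates, uniformly -/
def PoS : Prop :=
  ∃ C : ℝ, 1 ≤ C ∧ ∀ (U : ℝ) (z : ℍ), 1 ≤ U →
    ‖(∑' b : ℤ, tr U b z) + I * c1 U + 2 * π * I * ee z / (1 - ee z)‖ ≤ C / (U * z.im) ^ 2

/-- the translates summed along one ray -/
noncomputable def Jr (U R u : ℝ) : ℂ :=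
  ∫ y in Set.Icc (1 / (32 * U)) (R / √(1 + u ^ 2)),
    ((∑' b : ℤ, tr U b (pt (y * u) y)) - ph U (pt (y * u) y))

def JrS : Prop :=
  ∃ C : ℝ, 1 ≤ C ∧ ∀ U R u : ℝ, 1 ≤ U → U ≤ R →
    |((starRingEnd ℂ) (be U u) * Jr U R u).re - R * (c1 U * bm (u / U) / √(1 + u ^ 2) ^ 3) +
        bm (u / U) ^ 2 / (1 + u ^ 2) * Real.log R +
        bm (u / U) / (1 + u ^ 2) * Real.log (2 * π)| ≤
      C * (bm (u / U) / (U * √(1 + u ^ 2)) + (bm (u / U) - bm (u / U) ^ 2) / (1 + u ^ 2) +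
        U / R * (bm (u / U) / (1 + u ^ 2)))

/-- the expansion of the translates has constant term `c` -/
def XsE (U : ℝ) (c : ℂ) : Prop :=
  ∃ (A : ℂ) (r₀ : ℝ) (ε : ℝ → ℂ), 0 < r₀ ∧ Tendsto ε atTop (𝓝 0) ∧
    ∀ r R : ℝ, 0 < r → r ≤ r₀ → r₀ ≤ R →
      HasSum (fun b : ℤ => if b = 0 then 0 else ∫ z in Ann r R, pe (tr U b) (ph U) z)
        (A * R - a1 U * Real.log R + c + ε R)

/-- the sum over the translates as an integral over rays -/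
def SrS : Prop :=
  ∀ U r R : ℝ, 1 ≤ U → 0 < r → r ≤ 1 / (32 * U) → U ≤ R →
    (Integrable fun u : ℝ => (starRingEnd ℂ) (be U u) * Jr U R u) ∧
    HasSum (fun b : ℤ => if b = 0 then 0 else ∫ z in Ann r R, pe (tr U b) (ph U) z)
      (∫ u : ℝ, (starRingEnd ℂ) (be U u) * Jr U R u)

def C0S : Prop :=
  ∃ C : ℝ, 1 ≤ C ∧ ∀ (U : ℝ) (c : ℂ), 1 ≤ U → XsE U c →
    |c.re + π * Real.log (2 * π)| ≤ C / √U

open Classical in
/-- the spectral data, with the value of the constant -/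
def AutK : Prop :=
  ∃ (C : ℝ) (c₀ : ℝ → ℝ), 1 ≤ C ∧
    (∀ U : ℝ, 1 ≤ U → |c₀ U + 2 * π * Real.log (2 * π)| ≤ C / √U) ∧
    ∀ N : ℕ, N.Prime → ∃ S : Sp, S.Ok N C ∧ (∀ U : ℝ, 1 ≤ U → S.Bs N U (c₀ U)) ∧
      (Hp N).ncard = (univ.filter fun f => S.ε f = 1).card ∧
      (Hn N).ncard = (univ.filter fun f => S.ε f = 1 ∧ S.L f ≠ 0).card

/-- the holomorphic kernel -/
noncomputable def Fk (t : ℝ) (z : ℍ) : ℂ := 1 / (((z : ℂ) + 1) * ((1 + t) * z + t))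

def K1S : Prop :=
  ∀ U t : ℝ, 1 ≤ U → t ≠ 0 → t ≠ -1 → Measurable (Fk t) ∧ Integrable (pe (Fk t) (ph U)) ∧
    (∫ z, pe (Fk t) (ph U) z).re = c1 U * Real.log |1 + 1 / t|

/-- a convolution bound -/
def K3S : Prop :=
  ∀ θ : ℝ, 0 < θ → θ < 1 → ∃ C : ℝ, 1 ≤ C ∧ ∀ c : ℝ, c ≠ 0 →
    (Integrable fun x : ℝ => |x| ^ (-θ) * (|x - c| ^ (θ - 1) / (1 + |x - c|))) ∧
    ∫ x : ℝ, |x| ^ (-θ) * (|x - c| ^ (θ - 1) / (1 + |x - c|)) ≤ C * |c| ^ (-θ)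

open Classical in
/-- the majorant of the edge term -/
noncomputable def Ed (U t : ℝ) (w : ℍ) : ℝ :=
  if U * w.im ≤ |w.re| then w.im ^ 2 / (‖(w : ℂ)‖ * ‖(w : ℂ) - t‖ * ‖(w : ℂ) - (1 + t)‖) else 0

def K2S : Prop :=
  ∀ θ : ℝ, 0 < θ → θ < 1 → ∃ C : ℝ, 1 ≤ C ∧ ∀ U t : ℝ, 1 ≤ U → t ≠ 0 → t ≠ -1 →
    Integrable (Ed U t) ∧ ∫ w, Ed U t w ≤ C * U ^ (θ - 1) * (|t| ^ (-θ) + |1 + t| ^ (-θ))

/-- the limit of the kernel -/
def KlimS : Prop :=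
  ∀ θ : ℝ, 0 < θ → θ < 1 → ∃ C : ℝ, 1 ≤ C ∧ ∀ U t : ℝ, 1 ≤ U → t ≠ 0 → t ≠ -1 →
    |Kf U t - π * Real.log (|1 + 1 / t|)| ≤ C * U ^ (θ - 1) * (|t| ^ (-θ) + |1 + t| ^ (-θ))

/-! ### rows -/

def RayOf : Prop := KitS → PhS → RayS
def PoOf : Prop := KitS → FoS → PoS
def JrOf : Prop := KitS → PhS → PoS → JrS
def SrOf : Prop := KitS → PhS → PoS → RayS → SrS
def C0Of : Prop := PhS → A1S → JrS → SrS → C0S
def K1Of : Prop := KitS → PhS → RayS → K1S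
def K2Of : Prop := KitS → K3S → K2S
def KlimOf : Prop := KitS → PhS → XgS → K1S → K2S → KlimS

end Pool.Agent.MP_20b2fd_nt.H96
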